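import Mathlib
import Pool.Graph.R_seed8.Y397.PG.Defs

/-!
# The packing problem of a plumbing graph for a real parameter h (the Coxeter number)
-/

set_option autoImplicit false

open Finset

namespace Pool.Agent.Helper83.AllG

open W719AEC Pool.Agent.Y397

variable {n m : ℕ}

/-- The weight ∑_v (1 - h (g_v - 1)) α_v of a function α on the vertices, g_v the genus of v. -/
noncomputable def weight (h : ℝ) (Γ : PlumbingGraph n m) (α : Fin n → ℝ) : ℝ :=
  ∑ v, (1 - h * ((Γ.genus v : ℝ) - 1)) * α v

/-- A packing α (see `PG.IsPacking`) which is optimal for h: the function weight - h * excess on the cube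
[0, 1]^n takes its maximum at α (the excess of a packing is 0, see `PG.excess`). -/
def IsOptimal (h : ℝ) (Γ : PlumbingGraph n m) (α : Fin n → ℝ) : Prop :=
  PG.IsPacking Γ α ∧ ∀ β : Fin n → ℝ, (∀ v, 0 ≤ β v ∧ β v ≤ 1) →
    weight h Γ β - h * PG.excess Γ β ≤ weight h Γ α

/-- The growth exponent d (P + ∑_v (g_v - 1)) + ℓ a, P the number of the positive edges. -/
noncomputable def growth (d ℓ : ℝ) (Γ : PlumbingGraph n m) (a : ℝ) : ℝ :=
  d * (((PG.pos Γ).card : ℝ) + ∑ v, ((Γ.genus v : ℝ) - 1)) + ℓ * a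

end Pool.Agent.Helper83.AllG
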