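import Mathlib
import Pool.Graph.R_seed8.Y397.PG.LP
import Pool.Agent.Helper83.AllG.PDefs

/-!
# Linear programming duality for the packing problem with a real parameter
-/

set_option autoImplicit false

open Finset

namespace Pool.Agent.Helper83.AllG

open W719AEC Pool.Agent.Y397
open Pool.Agent.Y397.PG (IsPacking Doubled excess load sum_ends farkas_fintype IsMaxPacking)

variable {n m : ℕ}

/-- Duality. -/
theorem exists_dual N (hN : 0 ≤ N) (Γ : PlumbingGraph n m) (α : Fin n → ℝ) (hα : IsOptimal N Γ α) :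
    ∃ (w : Fin m → ℝ) (t : Fin n → ℝ), (∀ e, 0 ≤ w e) ∧ (∀ e, w e ≤ N) ∧ (∀ v, 0 ≤ t v) ∧
      (∀ v, 1 - N * ((Γ.genus v : ℝ) - 1) ≤ load Γ w v + t v) ∧
      ∑ e ∈ PG.pos Γ, w e + ∑ v, t v ≤ weight N Γ α := by
  classical
  obtain ⟨⟨hα1, hα2⟩, hmax⟩ := hα
  -- the polyhedron in the variables (β, ξ)
  let U := (Fin n → ℝ) × (Fin m → ℝ)
  let X : Fin n → (U →ₗ[ℝ] ℝ) := fun v => (LinearMap.proj v).comp (LinearMap.fst ℝ _ _)
  let Y : Fin m → (U →ₗ[ℝ] ℝ) := fun e => (LinearMap.proj e).comp (LinearMap.snd ℝ _ _)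
  have hX : ∀ v (β : Fin n → ℝ) (ξ : Fin m → ℝ), X v (β, ξ) = β v := fun v β ξ => rfl
  have hY : ∀ e (β : Fin n → ℝ) (ξ : Fin m → ℝ), Y e (β, ξ) = ξ e := fun v β ξ => rfl
  let K := (Fin m ⊕ Fin m) ⊕ (Fin n ⊕ Fin n)
  let P : Fin m → ℝ := fun e => if Γ.positive e = true then 1 else 0
  have hP : ∀ f : Fin m → ℝ, ∑ e, P e * f e = ∑ e ∈ PG.pos Γ, f e := by
    intro f
    unfold PG.pos
    rw [Finset.sum_filter]
    refine Finset.sum_congr rfl fun e _ => ?_
    simp only [P]
    split_ifs <;> simp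
  let ℓ : K → (U →ₗ[ℝ] ℝ) := Sum.elim (Sum.elim (fun e => P e • (X (Γ.src e) + X (Γ.tgt e) - Y e)) (fun e => - Y e))
    (Sum.elim X (fun v => - X v))
  let b : K → ℝ := Sum.elim (Sum.elim (fun e => P e) (fun _ => 0)) (Sum.elim (fun _ => 1) (fun _ => 0))
  let f : U →ₗ[ℝ] ℝ := ∑ v, (1 - N * ((Γ.genus v : ℝ) - 1)) • X v - N • ∑ e, P e • Y e
  have hf : ∀ (β : Fin n → ℝ) (ξ : Fin m → ℝ), f (β, ξ) = weight N Γ β - N * ∑ e ∈ PG.pos Γ, ξ e := by
    intro β ξ
    simp only [f, LinearMap.sub_apply, LinearMap.smul_apply, LinearMap.sum_apply, hX, hY, smul_eq_mul]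
    rw [hP]
    rfl
  obtain ⟨w0, μ, hw0, hμ, hid⟩ := farkas_fintype ℓ b f (weight N Γ α) (α, 0) (by
      rintro ((e | e) | (v | v))
      · simp only [ℓ, b, Sum.elim_inl, LinearMap.smul_apply, LinearMap.add_apply,
          LinearMap.sub_apply, hX, hY, Pi.zero_apply, sub_zero, smul_eq_mul]
        have h1 := hα2 e
        have h2 : 0 ≤ P e := by simp only [P]; split_ifs <;> norm_num
        nlinarith
      · simp [ℓ, b, hY]
      · simp only [ℓ, b, Sum.elim_inl, Sum.elim_inr, hX]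
        exact (hα1 v).2
      · simp only [ℓ, b, Sum.elim_inr, LinearMap.neg_apply, hX]
        linarith [(hα1 v).1]) (by
      rintro ⟨β, ξ⟩ hx
      rw [hf]
      have h1 : ∀ v, 0 ≤ β v ∧ β v ≤ 1 := by
        intro v
        have e1 := hx (Sum.inr (Sum.inl v))
        have e2 := hx (Sum.inr (Sum.inr v))
        simp only [ℓ, b, Sum.elim_inr, Sum.elim_inl, LinearMap.neg_apply, hX] at e1 e2
        constructor <;> linarith
      have h2 : ∀ e ∈ PG.pos Γ, max 0 (β (Γ.src e) + β (Γ.tgt e) - 1) ≤ ξ e := by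
        intro e he
        have e1 := hx (Sum.inl (Sum.inl e))
        have e2 := hx (Sum.inl (Sum.inr e))
        have e3 : P e = 1 := if_pos (Finset.mem_filter.mp he).2
        simp only [ℓ, b, Sum.elim_inr, Sum.elim_inl, LinearMap.neg_apply, hX, hY,
          LinearMap.smul_apply, LinearMap.add_apply, LinearMap.sub_apply, smul_eq_mul, e3] at e1 e2
        refine max_le ?_ ?_ <;> linarith
      have h3 : excess Γ β ≤ ∑ e ∈ PG.pos Γ, ξ e := Finset.sum_le_sum h2
      have h4 := hmax β h1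
      have h5 : N * excess Γ β ≤ N * ∑ e ∈ PG.pos Γ, ξ e :=
        mul_le_mul_of_nonneg_left h3 (hN)
      linarith)
  set w : Fin m → ℝ := fun e => μ (Sum.inl (Sum.inl e)) with hw
  set y : Fin m → ℝ := fun e => μ (Sum.inl (Sum.inr e)) with hy
  set t : Fin n → ℝ := fun v => μ (Sum.inr (Sum.inl v)) with ht
  set z : Fin n → ℝ := fun v => μ (Sum.inr (Sum.inr v)) with hz
  have key : ∀ (β : Fin n → ℝ) (ξ : Fin m → ℝ), weight N Γ α - (weight N Γ β - N * ∑ e ∈ PG.pos Γ, ξ e) =
      w0 + ∑ e ∈ PG.pos Γ, w e * (1 - (β (Γ.src e) + β (Γ.tgt e) - ξ e)) + ∑ e, y e * ξ e +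
        ∑ v, t v * (1 - β v) + ∑ v, z v * β v := by
    intro β ξ
    have h1 := hid (β, ξ)
    rw [hf] at h1
    rw [h1]
    rw [Fintype.sum_sum_type, Fintype.sum_sum_type, Fintype.sum_sum_type]
    simp only [ℓ, b, Sum.elim_inr, Sum.elim_inl, LinearMap.neg_apply, hX, hY,
          LinearMap.smul_apply, LinearMap.add_apply, LinearMap.sub_apply, smul_eq_mul]
    rw [← hP]
    simp only [hw, hy, ht, hz]
    have e1 : ∀ e, μ (Sum.inl (Sum.inl e)) * (P e - P e * (β (Γ.src e) + β (Γ.tgt e) - ξ e)) =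
        P e * (μ (Sum.inl (Sum.inl e)) * (1 - (β (Γ.src e) + β (Γ.tgt e) - ξ e))) := by
      intro e; ring
    simp only [e1, zero_sub, neg_neg]
    ring
  -- the constant term
  have k0 := key 0 0
  have hwt0 : weight N Γ 0 = 0 := by simp [weight]
  simp only [hwt0, Pi.zero_apply, Finset.sum_const_zero, mul_zero, sub_zero, add_zero, mul_one] at k0
  -- w e ≤ N for positive e
  have hwN : ∀ e ∈ PG.pos Γ, w e ≤ N := by
    intro e he
    have k1 := key 0 (Pi.single e 1)
    simp only [hwt0, Pi.zero_apply, mul_zero, add_zero, zero_sub, mul_one, sub_zero,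
      Finset.sum_const_zero] at k1
    rw [Finset.sum_eq_single_of_mem e he (fun e' _ hne => by simp [hne])] at k1
    have e1 : ∑ e' ∈ PG.pos Γ, w e' * (1 - -(Pi.single e (1 : ℝ) : Fin m → ℝ) e') = ∑ e' ∈ PG.pos Γ, w e' + w e := by
      have : ∀ e', w e' * (1 - -(Pi.single e (1 : ℝ) : Fin m → ℝ) e') = w e' + w e' * (Pi.single e (1 : ℝ) : Fin m → ℝ) e' := by
        intro e'; ring
      simp only [this, Finset.sum_add_distrib]
      congr 1
      rw [Finset.sum_eq_single_of_mem e he (fun e' _ hne => by simp [hne])]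
      simp
    have e2 : ∑ e', y e' * (Pi.single e (1 : ℝ) : Fin m → ℝ) e' = y e := by
      rw [Finset.sum_eq_single_of_mem e (mem_univ e) (fun e' _ hne => by simp [hne])]
      simp
    rw [e1, e2] at k1
    simp only [Pi.single_eq_same, mul_one] at k1
    have := hμ (Sum.inl (Sum.inr e))
    have h5 : y e = μ (Sum.inl (Sum.inr e)) := rfl
    linarith
  have hcov : ∀ v, 1 - N * ((Γ.genus v : ℝ) - 1) ≤ load Γ w v + t v := by
    intro v
    have k1 := key (Pi.single v 1) 0
    have e1 : weight N Γ (Pi.single v 1) = 1 - N * ((Γ.genus v : ℝ) - 1) := by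
      unfold weight
      rw [Finset.sum_eq_single_of_mem v (mem_univ v) (fun e' _ hne => by simp [hne])]
      simp
    have e2 : ∑ u, t u * (1 - (Pi.single v (1 : ℝ) : Fin n → ℝ) u) = ∑ u, t u - t v := by
      have : ∀ u, t u * (1 - (Pi.single v (1 : ℝ) : Fin n → ℝ) u) = t u - t u * (Pi.single v (1 : ℝ) : Fin n → ℝ) u := by
        intro u; ring
      simp only [this, Finset.sum_sub_distrib]
      congr 1
      rw [Finset.sum_eq_single_of_mem v (mem_univ v) (fun e' _ hne => by simp [hne])]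
      simp
    have e3 : ∑ u, z u * (Pi.single v (1 : ℝ) : Fin n → ℝ) u = z v := by
      rw [Finset.sum_eq_single_of_mem v (mem_univ v) (fun e' _ hne => by simp [hne])]
      simp
    have e4 : ∑ e ∈ PG.pos Γ, w e * (1 - ((Pi.single v (1 : ℝ) : Fin n → ℝ) (Γ.src e) +
        (Pi.single v (1 : ℝ) : Fin n → ℝ) (Γ.tgt e))) = ∑ e ∈ PG.pos Γ, w e - load Γ w v := by
      have h1 := sum_ends Γ w (Pi.single v (1 : ℝ))
      have h2 : ∑ u, load Γ w u * (Pi.single v (1 : ℝ) : Fin n → ℝ) u = load Γ w v := by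
        rw [Finset.sum_eq_single_of_mem v (mem_univ v) (fun e' _ hne => by simp [hne])]
        simp
      rw [h2] at h1
      rw [← h1, ← Finset.sum_sub_distrib]
      refine Finset.sum_congr rfl fun e _ => ?_
      ring
    simp only [Pi.zero_apply, Finset.sum_const_zero, mul_zero, sub_zero, add_zero] at k1
    rw [e1, e2, e3, e4] at k1
    have := hμ (Sum.inr (Sum.inr v))
    have h5 : z v = μ (Sum.inr (Sum.inr v)) := rfl
    linarith
  refine ⟨fun e => if Γ.positive e = true then w e else 0, t, ?_, ?_, fun v => hμ _, ?_, ?_⟩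
  · intro e
    show 0 ≤ (if Γ.positive e = true then w e else 0)
    split_ifs
    · exact hμ _
    · exact le_refl _
  · intro e
    show (if Γ.positive e = true then w e else 0) ≤ N
    split_ifs with h
    · exact hwN e (Finset.mem_filter.mpr ⟨mem_univ _, h⟩)
    · exact hN
  · intro v
    refine (hcov v).trans (le_of_eq ?_)
    congr 1
    unfold load
    congr 1
    · refine Finset.sum_congr rfl fun e he => ?_
      have h1 := (Finset.mem_filter.mp (Finset.mem_filter.mp he).1).2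
      show w e = (if Γ.positive e = true then w e else 0)
      rw [if_pos h1]
    · refine Finset.sum_congr rfl fun e he => ?_
      have h1 := (Finset.mem_filter.mp (Finset.mem_filter.mp he).1).2
      show w e = (if Γ.positive e = true then w e else 0)
      rw [if_pos h1]
  · have h1 : ∑ e ∈ PG.pos Γ, (if Γ.positive e = true then w e else 0) = ∑ e ∈ PG.pos Γ, w e := by
      refine Finset.sum_congr rfl fun e he => ?_
      rw [if_pos (Finset.mem_filter.mp he).2]
    rw [h1]
    linarith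

/-- If all genera are at least 1, a maximum packing of the vertices of genus 1 is optimal for every
SU(N). -/
theorem optimal_of_max N (hN' : 2 ≤ N) (Γ : PlumbingGraph n m) (hg : ∀ v, 1 ≤ Γ.genus v)
    (hd : Doubled Γ) (α : Fin n → ℝ) (hα : IsMaxPacking Γ α) :
    IsOptimal N Γ α ∧ weight N Γ α = ∑ v, α v := by
  classical
  obtain ⟨hp, hz, hmax⟩ := hα
  have hw : weight N Γ α = ∑ v, α v := by
    unfold weight
    refine Finset.sum_congr rfl fun v _ => ?_
    by_cases h : Γ.genus v = 1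
    · rw [h]; simp
    · rw [hz v h]; simp
  refine ⟨⟨hp, fun β hβ => ?_⟩, hw⟩
  set ξ : Fin m → ℝ := fun e => max 0 (β (Γ.src e) + β (Γ.tgt e) - 1) with hξ
  have hξ0 : ∀ e, 0 ≤ ξ e := fun e => le_max_left _ _
  set S : Fin n → ℝ := fun v => ∑ e ∈ (PG.pos Γ).filter (fun e => Γ.src e = v), ξ e with hS
  have hS0 : ∀ v, 0 ≤ S v := fun v => Finset.sum_nonneg fun e _ => hξ0 e
  set γ : Fin n → ℝ := fun v => if Γ.genus v = 1 then max 0 (β v - S v) else 0 with hγ
  have hγ0 : ∀ v, 0 ≤ γ v := by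
    intro v
    simp only [hγ]
    split_ifs
    · exact le_max_left _ _
    · exact le_refl _
  have hγβ : ∀ v, γ v ≤ β v := by
    intro v
    simp only [hγ]
    split_ifs
    · exact max_le (hβ v).1 (by linarith [hS0 v])
    · exact (hβ v).1
  have hpk : ∀ e ∈ PG.pos Γ, γ (Γ.src e) + γ (Γ.tgt e) ≤ 1 := by
    intro e he
    have h1 : ξ e ≤ S (Γ.src e) := by
      refine Finset.single_le_sum (f := ξ) (fun e _ => hξ0 e) ?_
      exact Finset.mem_filter.mpr ⟨he, rfl⟩
    have h2 : γ (Γ.src e) ≤ max 0 (β (Γ.src e) - ξ e) := by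
      simp only [hγ]
      split_ifs
      · exact max_le_max le_rfl (by linarith)
      · exact le_max_left _ _
    have h3 := hγβ (Γ.tgt e)
    have h4 := (hβ (Γ.tgt e)).2
    rcases le_total (β (Γ.src e) - ξ e) 0 with h | h
    · rw [max_eq_left h] at h2
      linarith
    · rw [max_eq_right h] at h2
      have h5 : β (Γ.src e) + β (Γ.tgt e) - 1 ≤ ξ e := le_max_right _ _
      linarith
  have hγp : IsPacking Γ γ := by
    refine ⟨fun v => ⟨hγ0 v, (hγβ v).trans (hβ v).2⟩, fun e => ?_⟩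
    by_cases he : Γ.positive e = true
    · exact hpk e (Finset.mem_filter.mpr ⟨mem_univ _, he⟩)
    · obtain ⟨σ, hσ⟩ := hd
      have h1 := hpk (σ e) (Finset.mem_filter.mpr ⟨mem_univ _, by
        rw [(hσ e).2.2]; simpa using he⟩)
      rwa [(hσ e).1, (hσ e).2.1] at h1
  have h1 := hmax γ hγp (fun v hv => by simp only [hγ, if_neg hv])
  -- compare
  have h2 : weight N Γ β ≤ ∑ v, (if Γ.genus v = 1 then β v else 0) := by
    unfold weight
    refine Finset.sum_le_sum fun v _ => ?_
    split_ifs with h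
    · rw [h]; simp
    · have h3 : 2 ≤ Γ.genus v := by have := hg v; omega
      have h4 : (2 : ℝ) ≤ Γ.genus v := by exact_mod_cast h3
      have h5 : 1 - N * ((Γ.genus v : ℝ) - 1) ≤ 0 := by nlinarith
      exact mul_nonpos_of_nonpos_of_nonneg h5 (hβ v).1
  have h3 : ∑ v, (if Γ.genus v = 1 then β v else 0) - ∑ v, S v ≤ ∑ v, γ v := by
    rw [← Finset.sum_sub_distrib]
    refine Finset.sum_le_sum fun v _ => ?_
    simp only [hγ]
    split_ifs
    · exact le_max_right _ _
    · linarith [hS0 v]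
  have h4 : ∑ v, S v = excess Γ β := by
    simp only [hS]
    rw [Finset.sum_fiberwise]
    rfl
  have h5 : 0 ≤ excess Γ β := Finset.sum_nonneg fun e _ => hξ0 e
  rw [hw]
  nlinarith

end Pool.Agent.Helper83.AllG
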