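import Mathlib
import Pool.Graph.R_seed8.Y397.PG.Up
import Pool.Agent.Helper83.AllG.AbsLP

/-!
# The upper bound, for abstract data
-/

set_option autoImplicit false

open Finset

namespace Pool.Agent.Helper83.AllG

open W719AEC Pool.Agent.Y397
open Pool.Agent.Y397.PG (IsPacking Doubled excess load sum_ends sq_le_exp exp_aux)

variable {n m : ℕ}

/-- The analytic data of a theory. -/
structure Dat (ι : Type*) [DecidableEq ι] where
  D : ℕ
  ℓ : ℕ
  L : ℕ → Finset ι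
  V : ℕ → ι → ℝ
  F : ℕ → ι → ι → ℝ
  kap : ℕ → ℝ
  blk : ℕ → Finset ι
  k₀ : ℝ
  C : ℝ
  c : ℝ
  κ : ℕ
  a : ℕ
  hD : 0 < D
  hℓ : 0 < ℓ
  hC : 1 ≤ C
  hc : 0 < c
  hc1 : c ≤ 1
  hκ : 2 ≤ κ
  ha : 1 ≤ a
  kap_pos : ∀ r, 1 ≤ r → 0 < kap r
  log_kap : ∀ r, 1 ≤ r → -(2 * Real.log (kap r)) = k₀ + ℓ * Real.log r
  V_pos : ∀ r, 1 ≤ r → ∀ x ∈ L r, 0 < V r x
  V_le : ∀ r, 1 ≤ r → ∀ x ∈ L r, V r x ≤ C
  V_ge : ∀ r, 1 ≤ r → ∀ x ∈ L r, c * (1 / (r : ℝ)) ^ D ≤ V r x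
  F_nonneg : ∀ r x y, 0 ≤ F r x y
  F_le : ∀ r, 1 ≤ r → ∀ x ∈ L r, ∀ y ∈ L r, F r x y ≤ C * (r : ℝ) ^ D
  F_le' : ∀ r, 1 ≤ r → ∀ x ∈ L r, ∀ y ∈ L r, F r x y ≤ C / (V r x * V r y)
  sum_V : ∀ r, 1 ≤ r → ∑ x ∈ L r, (V r x) ^ (-((ℓ : ℝ) / D)) ≤ C * ((r : ℝ) * (1 + Real.log r)) ^ ℓ
  blk_sub : ∀ q r, 1 ≤ q → a * q ≤ r → blk q ⊆ L r
  blk_card : ∀ q, 1 ≤ q → (blk q).card = q ^ ℓ
  V_blk_le : ∀ q r, 1 ≤ q → a * q ≤ r → ∀ x ∈ blk q, V r x ≤ C * ((q : ℝ) / r) ^ D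
  V_blk_ge : ∀ q r, 1 ≤ q → a * q ≤ r → ∀ x ∈ blk q, c * ((q : ℝ) / r) ^ D ≤ V r x
  F_ge : ∀ q q' r, 1 ≤ q → 1 ≤ q' → a * (q * q') ≤ r → ∀ x ∈ blk q, ∀ y ∈ blk q', c * (r : ℝ) ^ D ≤ F r x y
  blk_disj : ∀ q q', 1 ≤ q → κ * q ≤ q' → Disjoint (blk q) (blk q')

namespace Dat

variable {ι : Type*} [DecidableEq ι] (T : Dat ι)

/-- The Coxeter number. -/
noncomputable def h : ℝ := 2 * T.D / T.ℓ

theorem h_pos : 0 < T.h := by
  have h1 : (0 : ℝ) < T.D := by exact_mod_cast T.hD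
  have h2 : (0 : ℝ) < T.ℓ := by exact_mod_cast T.hℓ
  unfold h
  positivity

theorem two_D : 2 * (T.D : ℝ) = T.h * T.ℓ := by
  have h2 : (0 : ℝ) < T.ℓ := by exact_mod_cast T.hℓ
  unfold h
  field_simp

/-- The term of a colouring. -/
noncomputable def term (r : ℕ) (Γ : PlumbingGraph n m) (x : Fin n → ι) : ℝ :=
  Real.exp (∑ v, (2 - 2 * (Γ.genus v : ℝ)) * (Real.log (T.kap r) + Real.log (T.V r (x v)))) *
    ∏ e ∈ PG.pos Γ, (Real.exp (-(2 * Real.log (T.kap r))) * T.F r (x (Γ.src e)) (x (Γ.tgt e)) ^ 2)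

theorem term_nonneg (r : ℕ) (Γ : PlumbingGraph n m) (x : Fin n → ι) : 0 ≤ T.term r Γ x := by
  unfold term
  refine mul_nonneg (Real.exp_pos _).le (Finset.prod_nonneg fun e _ => ?_)
  exact mul_nonneg (Real.exp_pos _).le (sq_nonneg _)

/-- The sum over one vertex. -/
theorem vsum_le (s : ℝ) : ∃ C : ℝ, 0 < C ∧ ∀ r : ℕ, 1 ≤ r →
    ∑ a ∈ T.L r, Real.exp (-(s * Real.log (T.V r a))) ≤
      C * (Real.exp (Real.log r * ((T.ℓ : ℝ) * max (s * T.h / 2) 1)) * (1 + Real.log r) ^ T.ℓ) := by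
  have hD0 : (0 : ℝ) < T.D := by exact_mod_cast T.hD
  have hℓ0 : (0 : ℝ) < T.ℓ := by exact_mod_cast T.hℓ
  have hh := T.h_pos
  have hDh := T.two_D
  set p : ℝ := (T.ℓ : ℝ) / T.D with hp
  have hpD : p * T.D = T.ℓ := by rw [hp]; field_simp
  have hph : p * T.h = 2 := by
    have : p * T.h * T.ℓ = 2 * T.ℓ := by
      calc p * T.h * T.ℓ = p * (T.h * T.ℓ) := by ring
        _ = p * (2 * T.D) := by rw [hDh]
        _ = 2 * (p * T.D) := by ring
        _ = 2 * T.ℓ := by rw [hpD]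
    exact mul_right_cancel₀ hℓ0.ne' this
  set lC := Real.log T.C with hlC
  have hlC0 : 0 ≤ lC := Real.log_nonneg T.hC
  set lc := Real.log T.c with hlc
  have hlc0 : lc ≤ 0 := Real.log_nonpos T.hc.le T.hc1
  refine ⟨Real.exp (|p - s| * (lC - lc)) * T.C, mul_pos (Real.exp_pos _) (by linarith [T.hC]),
    fun r hr => ?_⟩
  have hr' : (1 : ℝ) ≤ r := by exact_mod_cast hr
  have hr0 : (0 : ℝ) < r := by linarith
  have hL : 0 ≤ Real.log r := Real.log_nonneg hr'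
  set L := Real.log r with hLdef
  have hterm : ∀ a ∈ T.L r, Real.exp (-(s * Real.log (T.V r a))) ≤
      Real.exp (|p - s| * (lC - lc) + max (s - p) 0 * (T.D * L)) * (T.V r a) ^ (-p) := by
    intro a ha
    have hV := T.V_pos r hr a ha
    have h1 : Real.log (T.V r a) ≤ lC := Real.log_le_log hV (T.V_le r hr a ha)
    have h2 : lc - T.D * L ≤ Real.log (T.V r a) := by
      have h3 := Real.log_le_log (mul_pos T.hc (by positivity)) (T.V_ge r hr a ha)
      rw [Real.log_mul T.hc.ne' (by positivity), Real.log_pow, one_div, Real.log_inv] at h3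
      linarith
    rw [Real.rpow_def_of_pos hV, ← Real.exp_add]
    apply Real.exp_le_exp.mpr
    set ℓ := Real.log (T.V r a) with hℓ
    have hDL : 0 ≤ T.D * L := by positivity
    rcases le_total s p with h | h
    · rw [abs_of_nonneg (by linarith), max_eq_right (by linarith)]
      have e1 := mul_le_mul_of_nonneg_left h1 (by linarith : (0 : ℝ) ≤ p - s)
      have e2 := mul_nonneg (by linarith : (0 : ℝ) ≤ p - s) (by linarith : (0 : ℝ) ≤ -lc)
      nlinarith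
    · rw [abs_of_nonpos (by linarith), max_eq_left (by linarith)]
      have e1 := mul_le_mul_of_nonneg_left h2 (by linarith : (0 : ℝ) ≤ s - p)
      have e2 := mul_nonneg (by linarith : (0 : ℝ) ≤ s - p) hlC0
      nlinarith
  have hsum := T.sum_V r hr
  have h1 : ((r : ℝ) * (1 + L)) ^ T.ℓ = Real.exp (L * (T.ℓ : ℝ)) * (1 + L) ^ T.ℓ := by
    rw [mul_pow]
    congr 1
    rw [Real.exp_mul, hLdef, Real.exp_log hr0, Real.rpow_natCast]
  have h3 : max (s - p) 0 * (T.D * L) + L * (T.ℓ : ℝ) = L * ((T.ℓ : ℝ) * max (s * T.h / 2) 1) := by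
    rcases le_total s p with h | h
    · rw [max_eq_right (by linarith), max_eq_right (by
        have : s * T.h ≤ p * T.h := mul_le_mul_of_nonneg_right h hh.le
        linarith)]
      ring
    · rw [max_eq_left (by linarith), max_eq_left (by
        have : p * T.h ≤ s * T.h := mul_le_mul_of_nonneg_right h hh.le
        linarith)]
      have e1 : (T.ℓ : ℝ) * (s * T.h / 2) = s * T.D := by
        have : T.ℓ * (s * T.h) = s * (T.h * T.ℓ) := by ring
        rw [mul_div_assoc', this, ← hDh]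
        ring
      rw [e1, ← hpD]
      ring
  calc ∑ a ∈ T.L r, Real.exp (-(s * Real.log (T.V r a)))
      ≤ ∑ a ∈ T.L r, Real.exp (|p - s| * (lC - lc) + max (s - p) 0 * (T.D * L)) * (T.V r a) ^ (-p) :=
        Finset.sum_le_sum hterm
    _ = Real.exp (|p - s| * (lC - lc) + max (s - p) 0 * (T.D * L)) * ∑ a ∈ T.L r, (T.V r a) ^ (-p) := by
        rw [Finset.mul_sum]
    _ ≤ Real.exp (|p - s| * (lC - lc) + max (s - p) 0 * (T.D * L)) *
          (T.C * (Real.exp (L * (T.ℓ : ℝ)) * (1 + L) ^ T.ℓ)) := by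
        apply mul_le_mul_of_nonneg_left _ (Real.exp_pos _).le
        rw [← h1]
        exact hsum
    _ = _ := by
        rw [← h3, Real.exp_add, Real.exp_add]
        ring

theorem sum_term_le (Γ : PlumbingGraph n m) (ω : Fin m → ℝ) (t : Fin n → ℝ)
    (hw0 : ∀ e, 0 ≤ ω e) (hwN : ∀ e, ω e ≤ T.h) (ht : ∀ v, 0 ≤ t v)
    (hcov : ∀ v, 1 - T.h * ((Γ.genus v : ℝ) - 1) ≤ load Γ ω v + t v) :
    ∃ C : ℝ, 0 < C ∧ ∀ r : ℕ, 1 ≤ r →
      ∑ x ∈ Fintype.piFinset (fun _ : Fin n => T.L r), T.term r Γ x ≤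
        C * (Real.exp (Real.log r * growth (T.ℓ * (T.h + 1)) T.ℓ Γ (∑ e ∈ PG.pos Γ, ω e + ∑ v, t v)) *
          (1 + Real.log r) ^ (n * T.ℓ)) := by
  classical
  have hNp := T.h_pos
  have hℓ0 : (0 : ℝ) < T.ℓ := by exact_mod_cast T.hℓ
  have hD2 := T.two_D
  set θ : Fin m → ℝ := fun e => ω e / T.h with hθ
  have hθ0 : ∀ e, 0 ≤ θ e := fun e => div_nonneg (hw0 e) hNp.le
  have hθ1 : ∀ e, θ e ≤ 1 := fun e => (div_le_one hNp).mpr (hwN e)
  have hloadθ : ∀ v, load Γ θ v = load Γ ω v / T.h := by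
    intro v
    simp only [load, hθ, add_div, Finset.sum_div]
  set s : Fin n → ℝ := fun v => (2 * (Γ.genus v : ℝ) - 2) + 2 * load Γ θ v with hs
  choose Cv hCv0 hCv using fun v => T.vsum_le (s v)
  set P : ℝ := ((PG.pos Γ).card : ℝ) with hP
  set G : ℝ := ∑ v, ((Γ.genus v : ℝ) - 1) with hG
  set Θ : ℝ := ∑ e ∈ PG.pos Γ, θ e with hΘ
  set lf : ℝ := Real.log T.C with hlf
  set K1 : ℝ := T.k₀ * (P + G) + 2 * lf * P with hK1
  refine ⟨Real.exp K1 * ∏ v, Cv v, mul_pos (Real.exp_pos _) (Finset.prod_pos fun v _ => hCv0 v),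
    fun r hr => ?_⟩
  have hr' : (1 : ℝ) ≤ r := by exact_mod_cast hr
  have hr0 : (0 : ℝ) < r := by linarith
  have hL : 0 ≤ Real.log r := Real.log_nonneg hr'
  set L := Real.log r with hLdef
  set lk := Real.log (T.kap r) with hlk
  have hlk2 : -(2 * lk) = T.k₀ + (T.ℓ : ℝ) * L := T.log_kap r hr
  set A : ℝ := lf + T.D * L with hA
  have hCp : (0 : ℝ) < T.C := by linarith [T.hC]
  have hM : T.C * (r : ℝ) ^ T.D = Real.exp A := by
    rw [hA, Real.exp_add, hlf, Real.exp_log hCp, hLdef, ← Real.log_pow, Real.exp_log (by positivity)]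
  -- the term
  have hterm : ∀ x ∈ Fintype.piFinset (fun _ : Fin n => T.L r), T.term r Γ x ≤
      Real.exp (K1 + L * (T.ℓ * (P + G) + T.h * T.ℓ * P - T.h * T.ℓ * Θ)) *
        ∏ v, Real.exp (-(s v * Real.log (T.V r (x v)))) := by
    intro x hx
    rw [Fintype.mem_piFinset] at hx
    set ℓ : Fin n → ℝ := fun v => Real.log (T.V r (x v)) with hℓ
    have hedge : ∀ e ∈ PG.pos Γ, Real.exp (-(2 * lk)) * T.F r (x (Γ.src e)) (x (Γ.tgt e)) ^ 2 ≤
        Real.exp (-(2 * lk) + 2 * ((1 - θ e) * A + θ e * (lf - (ℓ (Γ.src e) + ℓ (Γ.tgt e))))) := by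
      intro e _
      rw [Real.exp_add]
      apply mul_le_mul_of_nonneg_left _ (Real.exp_pos _).le
      refine sq_le_exp (T.F_nonneg _ _ _) ?_ ?_ (hθ0 e) (hθ1 e)
      · rw [← hM]
        exact T.F_le r hr _ (hx _) _ (hx _)
      · refine (T.F_le' r hr _ (hx _) _ (hx _)).trans (le_of_eq ?_)
        have h1 := T.V_pos r hr _ (hx (Γ.src e))
        have h2 := T.V_pos r hr _ (hx (Γ.tgt e))
        simp only [hlf, hℓ]
        rw [← Real.log_mul h1.ne' h2.ne', ← Real.log_div hCp.ne' (by positivity), Real.exp_log (by positivity)]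
    unfold term
    calc Real.exp (∑ v, (2 - 2 * (Γ.genus v : ℝ)) * (lk + ℓ v)) *
          ∏ e ∈ PG.pos Γ, (Real.exp (-(2 * lk)) * T.F r (x (Γ.src e)) (x (Γ.tgt e)) ^ 2)
        ≤ Real.exp (∑ v, (2 - 2 * (Γ.genus v : ℝ)) * (lk + ℓ v)) *
          ∏ e ∈ PG.pos Γ, Real.exp (-(2 * lk) + 2 * ((1 - θ e) * A + θ e * (lf - (ℓ (Γ.src e) + ℓ (Γ.tgt e))))) := by
          apply mul_le_mul_of_nonneg_left _ (Real.exp_pos _).le
          exact Finset.prod_le_prod (fun e _ => mul_nonneg (Real.exp_pos _).le (sq_nonneg _)) hedge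
      _ = _ := by
          rw [← Real.exp_sum, ← Real.exp_sum, ← Real.exp_add, ← Real.exp_add]
          congr 1
          have e1 : ∑ v, (2 - 2 * (Γ.genus v : ℝ)) * (lk + ℓ v) =
              -(2 * lk) * G - ∑ v, (2 * (Γ.genus v : ℝ) - 2) * ℓ v := by
            rw [hG, Finset.mul_sum, ← Finset.sum_sub_distrib]
            refine Finset.sum_congr rfl fun v _ => ?_
            ring
          have e2 : ∑ e ∈ PG.pos Γ, (-(2 * lk) + 2 * ((1 - θ e) * A + θ e * (lf - (ℓ (Γ.src e) + ℓ (Γ.tgt e))))) =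
              (-(2 * lk) + 2 * A) * P + (2 * lf - 2 * A) * Θ - 2 * ∑ v, load Γ θ v * ℓ v := by
            have e4 : (-(2 * lk) + 2 * A) * P = ∑ _e ∈ PG.pos Γ, (-(2 * lk) + 2 * A) := by
              rw [Finset.sum_const, nsmul_eq_mul, mul_comm]
            rw [e4, ← sum_ends, hΘ, Finset.mul_sum, Finset.mul_sum, ← Finset.sum_add_distrib,
              ← Finset.sum_sub_distrib]
            refine Finset.sum_congr rfl fun e _ => ?_
            ring
          have e3 : ∑ v, -(s v * Real.log (T.V r (x v))) =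
              - ∑ v, (2 * (Γ.genus v : ℝ) - 2) * ℓ v - 2 * ∑ v, load Γ θ v * ℓ v := by
            rw [Finset.mul_sum, ← Finset.sum_neg_distrib, ← Finset.sum_sub_distrib]
            refine Finset.sum_congr rfl fun v _ => ?_
            simp only [hs, hℓ]
            ring
          rw [e1, e2, e3, hlk2, hA, hK1]
          linear_combination (L * P - L * Θ) * hD2
  -- the sum
  have hsumprod : ∑ x ∈ Fintype.piFinset (fun _ : Fin n => T.L r),
      ∏ v, Real.exp (-(s v * Real.log (T.V r (x v)))) =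
      ∏ v, ∑ a ∈ T.L r, Real.exp (-(s v * Real.log (T.V r a))) :=
    (Finset.prod_univ_sum (fun _ : Fin n => T.L r)
      (fun v a => Real.exp (-(s v * Real.log (T.V r a))))).symm
  have hprod : ∏ v, ∑ a ∈ T.L r, Real.exp (-(s v * Real.log (T.V r a))) ≤
      (∏ v, Cv v) * (Real.exp (L * ((T.ℓ : ℝ) * ∑ v, (T.h * ((Γ.genus v : ℝ) - 1) + load Γ ω v + t v))) *
        (1 + L) ^ (n * T.ℓ)) := by
    have h1 : ∀ v, ∑ a ∈ T.L r, Real.exp (-(s v * Real.log (T.V r a))) ≤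
        Cv v * (Real.exp (L * ((T.ℓ : ℝ) * (T.h * ((Γ.genus v : ℝ) - 1) + load Γ ω v + t v))) *
          (1 + L) ^ T.ℓ) := by
      intro v
      refine (hCv v r hr).trans ?_
      apply mul_le_mul_of_nonneg_left _ (hCv0 v).le
      apply mul_le_mul_of_nonneg_right _ (by positivity)
      apply Real.exp_le_exp.mpr
      apply mul_le_mul_of_nonneg_left _ hL
      apply mul_le_mul_of_nonneg_left _ (by linarith)
      have h2 : s v * T.h / 2 = T.h * ((Γ.genus v : ℝ) - 1) + load Γ ω v := by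
        simp only [hs]
        rw [hloadθ]
        field_simp
      rw [h2]
      apply max_le
      · linarith [ht v]
      · linarith [hcov v]
    refine (Finset.prod_le_prod (fun v _ => Finset.sum_nonneg fun a _ => (Real.exp_pos _).le)
      (fun v _ => h1 v)).trans (le_of_eq ?_)
    rw [Finset.prod_mul_distrib, Finset.prod_mul_distrib, ← Real.exp_sum, Finset.mul_sum, Finset.mul_sum,
      Finset.prod_const, Finset.card_univ, Fintype.card_fin, ← pow_mul, mul_comm n T.ℓ]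
  have hload2 : ∑ v, load Γ ω v = 2 * ∑ e ∈ PG.pos Γ, ω e := by
    have h1 := sum_ends Γ ω (fun _ => 1)
    simp only [mul_one] at h1
    rw [← h1, Finset.mul_sum]
    refine Finset.sum_congr rfl fun e _ => ?_
    ring
  have hΘω : T.h * Θ = ∑ e ∈ PG.pos Γ, ω e := by
    rw [hΘ, Finset.mul_sum]
    refine Finset.sum_congr rfl fun e _ => ?_
    simp only [hθ]
    field_simp
  calc ∑ x ∈ Fintype.piFinset (fun _ : Fin n => T.L r), T.term r Γ x
      ≤ ∑ x ∈ Fintype.piFinset (fun _ : Fin n => T.L r),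
        Real.exp (K1 + L * (T.ℓ * (P + G) + T.h * T.ℓ * P - T.h * T.ℓ * Θ)) *
        ∏ v, Real.exp (-(s v * Real.log (T.V r (x v)))) := Finset.sum_le_sum hterm
    _ = Real.exp (K1 + L * (T.ℓ * (P + G) + T.h * T.ℓ * P - T.h * T.ℓ * Θ)) *
        ∏ v, ∑ a ∈ T.L r, Real.exp (-(s v * Real.log (T.V r a))) := by
        rw [← Finset.mul_sum, hsumprod]
    _ ≤ Real.exp (K1 + L * (T.ℓ * (P + G) + T.h * T.ℓ * P - T.h * T.ℓ * Θ)) *
        ((∏ v, Cv v) * (Real.exp (L * ((T.ℓ : ℝ) * ∑ v, (T.h * ((Γ.genus v : ℝ) - 1) + load Γ ω v + t v))) *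
        (1 + L) ^ (n * T.ℓ))) := mul_le_mul_of_nonneg_left hprod (Real.exp_pos _).le
    _ = Real.exp K1 * (∏ v, Cv v) * (Real.exp (L * (T.ℓ * (P + G) + T.h * T.ℓ * P - T.h * T.ℓ * Θ) +
          L * ((T.ℓ : ℝ) * ∑ v, (T.h * ((Γ.genus v : ℝ) - 1) + load Γ ω v + t v))) *
        (1 + L) ^ (n * T.ℓ)) := by
        exact exp_aux _ _ _ _ _
    _ = _ := by
        congr 3
        have e1 : ∑ v, (T.h * ((Γ.genus v : ℝ) - 1) + load Γ ω v + t v) =
            T.h * G + 2 * ∑ e ∈ PG.pos Γ, ω e + ∑ v, t v := by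
          rw [Finset.sum_add_distrib, Finset.sum_add_distrib, ← Finset.mul_sum, hload2]
        rw [e1]
        unfold growth
        rw [← hP, ← hG, ← hΘω]
        ring

end Dat

end Pool.Agent.Helper83.AllG
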