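import Mathlib
import Pool.Graph.R_seed8.Y397.PG.Low
import Pool.Agent.Helper83.AllG.AbsUp

/-!
# The lower bound, for abstract data
-/

set_option autoImplicit false

open Finset

namespace Pool.Agent.Helper83.AllG

open W719AEC Pool.Agent.Y397
open Pool.Agent.Y397.PG (IsPacking packing_mix)

variable {n m : ℕ}

theorem weight_mix (h : ℝ) (Γ : PlumbingGraph n m) (α α' : Fin n → ℝ)
    (hw : weight h Γ α' = weight h Γ α) (t : ℝ) :
    weight h Γ (fun v => (1 - t) * α v + t * α' v) = weight h Γ α := by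
  have h1 : weight h Γ (fun v => (1 - t) * α v + t * α' v) =
      (1 - t) * weight h Γ α + t * weight h Γ α' := by
    unfold weight
    rw [Finset.mul_sum, Finset.mul_sum, ← Finset.sum_add_distrib]
    refine Finset.sum_congr rfl fun v _ => ?_
    ring
  rw [h1, hw]
  ring

namespace Dat

variable {ι : Type*} [DecidableEq ι] (T : Dat ι)

/-- the small constant -/
noncomputable def cc : ℝ := 1 / T.a

theorem cc_pos : 0 < T.cc := by
  have : (0 : ℝ) < T.a := by exact_mod_cast T.ha
  unfold cc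
  positivity

theorem cc_le_one : T.cc ≤ 1 := by
  have h0 : (1 : ℝ) ≤ T.a := by exact_mod_cast T.ha
  unfold cc
  rw [div_le_one (by linarith)]
  exact h0

/-- the size of the block at a vertex with scale b -/
noncomputable def qq (L b : ℝ) : ℕ := max 1 ⌊T.cc * Real.exp (b * L)⌋₊

theorem qq_one (L b : ℝ) : 1 ≤ T.qq L b := le_max_left _ _

theorem qq_le_max (L b : ℝ) : (T.qq L b : ℝ) ≤ max 1 (T.cc * Real.exp (b * L)) := by
  unfold qq
  rw [Nat.cast_max, Nat.cast_one]
  exact max_le_max le_rfl (Nat.floor_le (mul_pos T.cc_pos (Real.exp_pos _)).le)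

theorem qq_le_exp (L b : ℝ) (hL : 0 ≤ L) (hb : 0 ≤ b) : (T.qq L b : ℝ) ≤ Real.exp (b * L) := by
  refine (T.qq_le_max L b).trans (max_le ?_ ?_)
  · exact Real.one_le_exp (mul_nonneg hb hL)
  · have := mul_le_mul_of_nonneg_right T.cc_le_one (Real.exp_pos (b * L)).le
    linarith

theorem qq_ge (L b : ℝ) : T.cc / 2 * Real.exp (b * L) ≤ T.qq L b := by
  set x := T.cc * Real.exp (b * L) with hx
  have h1 : T.cc / 2 * Real.exp (b * L) = x / 2 := by rw [hx]; ring
  rw [h1]
  by_cases h : x < 1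
  · have h2 : (1 : ℝ) ≤ T.qq L b := by exact_mod_cast T.qq_one L b
    linarith
  · push Not at h
    have h2 : ⌊x⌋₊ ≤ T.qq L b := le_max_right _ _
    have h3 : ((⌊x⌋₊ : ℕ) : ℝ) ≤ T.qq L b := by exact_mod_cast h2
    have h4 : (1 : ℕ) ≤ ⌊x⌋₊ := Nat.le_floor (by simpa using h)
    have h5 : (1 : ℝ) ≤ ((⌊x⌋₊ : ℕ) : ℝ) := by exact_mod_cast h4
    have h6 := Nat.lt_floor_add_one x
    linarith

theorem qq_mul_le (r : ℕ) (b b' : ℝ) (hb : 0 ≤ b) (hb' : 0 ≤ b') (hbb : b + b' ≤ 1)
    (hr : 1 ≤ T.cc * r) :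
    T.a * (T.qq (Real.log r) b * T.qq (Real.log r) b') ≤ r := by
  have hc := T.cc_pos
  have hc1 := T.cc_le_one
  have hr1 : (1 : ℝ) ≤ r := by
    by_contra hcon
    push Not at hcon
    have h0 : (0 : ℝ) ≤ r := Nat.cast_nonneg r
    have := mul_le_mul_of_nonneg_right hc1 h0
    linarith
  have hr0 : (0 : ℝ) < r := by linarith
  have hL : 0 ≤ Real.log r := Real.log_nonneg hr1
  set L := Real.log r with hLdef
  have hexpL : Real.exp L = r := Real.exp_log hr0
  have h1 := T.qq_le_max L b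
  have h2 := T.qq_le_max L b'
  have h3 : (T.qq L b : ℝ) * T.qq L b' ≤ T.cc * r := by
    refine (mul_le_mul h1 h2 (Nat.cast_nonneg _) (le_max_of_le_left zero_le_one)).trans ?_
    have e1 : Real.exp (b * L) ≤ r := by
      rw [← hexpL]; apply Real.exp_le_exp.mpr; nlinarith
    have e2 : Real.exp (b' * L) ≤ r := by
      rw [← hexpL]; apply Real.exp_le_exp.mpr; nlinarith
    have e3 : Real.exp (b * L) * Real.exp (b' * L) ≤ r := by
      rw [← Real.exp_add, ← hexpL]; apply Real.exp_le_exp.mpr; nlinarith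
    have p1 := Real.exp_pos (b * L)
    have p2 := Real.exp_pos (b' * L)
    rcases le_total 1 (T.cc * Real.exp (b * L)) with h | h <;>
      rcases le_total 1 (T.cc * Real.exp (b' * L)) with h' | h'
    · rw [max_eq_right h, max_eq_right h']
      calc T.cc * Real.exp (b * L) * (T.cc * Real.exp (b' * L))
          = T.cc * (T.cc * (Real.exp (b * L) * Real.exp (b' * L))) := by ring
        _ ≤ T.cc * (1 * r) := by
          apply mul_le_mul_of_nonneg_left _ hc.le
          exact mul_le_mul hc1 e3 (by positivity) zero_le_one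
        _ = T.cc * r := by ring
    · rw [max_eq_right h, max_eq_left h', mul_one]
      exact mul_le_mul_of_nonneg_left e1 hc.le
    · rw [max_eq_left h, max_eq_right h', one_mul]
      exact mul_le_mul_of_nonneg_left e2 hc.le
    · rw [max_eq_left h, max_eq_left h']
      linarith
  have hN' : (0 : ℝ) < T.a := by exact_mod_cast T.ha
  have h4 : (T.a : ℝ) * ((T.qq L b : ℝ) * T.qq L b') ≤ r := by
    have h5 := mul_le_mul_of_nonneg_left h3 hN'.le
    refine h5.trans (le_of_eq ?_)
    unfold cc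
    field_simp
  exact_mod_cast h4

/-- one scale -/
theorem scale_bound (Γ : PlumbingGraph n m) : ∃ K : ℝ, ∀ (β : Fin n → ℝ),
    IsPacking Γ β → ∀ r : ℕ, 1 ≤ T.cc * r →
      Fintype.piFinset (fun v => T.blk (T.qq (Real.log r) (β v))) ⊆
        Fintype.piFinset (fun _ : Fin n => T.L r) ∧
      Real.exp (K + Real.log r * growth (T.ℓ * (T.h + 1)) T.ℓ Γ (weight T.h Γ β)) ≤
        ∑ x ∈ Fintype.piFinset (fun v => T.blk (T.qq (Real.log r) (β v))), T.term r Γ x := by
  classical
  have hNp := T.h_pos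
  have hℓ0 : (0 : ℝ) < T.ℓ := by exact_mod_cast T.hℓ
  have hD2 := T.two_D
  have hc := T.cc_pos
  have hc1 := T.cc_le_one
  have hCp : (0 : ℝ) < T.C := by linarith [T.hC]
  have hcp := T.hc
  set P : ℝ := ((PG.pos Γ).card : ℝ) with hP
  set G : ℝ := ∑ v, ((Γ.genus v : ℝ) - 1) with hG
  set k1 : ℝ := |Real.log T.C| + |Real.log T.c| + T.D * |Real.log (T.cc / 2)| with hk1
  set K2 : ℝ := T.k₀ * (P + G) + P * (2 * Real.log T.c) +
    n * (T.ℓ * Real.log (T.cc / 2)) - ∑ v, |2 - 2 * (Γ.genus v : ℝ)| * k1 with hK2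
  refine ⟨K2, fun β hβ r hr => ?_⟩
  have hr1 : (1 : ℝ) ≤ r := by
    by_contra hcon
    push Not at hcon
    have h0 : (0 : ℝ) ≤ r := Nat.cast_nonneg r
    have := mul_le_mul_of_nonneg_right hc1 h0
    linarith
  have hr0 : (0 : ℝ) < r := by linarith
  have hrn : 1 ≤ r := by exact_mod_cast hr1
  have hL : 0 ≤ Real.log r := Real.log_nonneg hr1
  set L := Real.log r with hLdef
  set lk := Real.log (T.kap r) with hlk
  have hlk2 : -(2 * lk) = T.k₀ + T.ℓ * L := T.log_kap r hrn
  set q : Fin n → ℕ := fun v => T.qq L (β v) with hq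
  have hq1 : ∀ v, 1 ≤ q v := fun v => T.qq_one _ _
  have hqr : ∀ v, T.a * q v ≤ r := by
    intro v
    have h1 := T.qq_mul_le r (β v) 0 (hβ.1 v).1 le_rfl (by linarith [(hβ.1 v).2]) hr
    have h2 : 1 ≤ T.qq (Real.log r) 0 := T.qq_one _ _
    refine le_trans ?_ h1
    apply Nat.mul_le_mul_left
    calc q v = q v * 1 := (mul_one _).symm
      _ ≤ _ := Nat.mul_le_mul_left _ h2
  have hsub : Fintype.piFinset (fun v => T.blk (q v)) ⊆ Fintype.piFinset (fun _ : Fin n => T.L r) := by
    intro x hx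
    rw [Fintype.mem_piFinset] at hx ⊢
    exact fun v => T.blk_sub (q v) r (hq1 v) (hqr v) (hx v)
  refine ⟨hsub, ?_⟩
  -- the value of log q
  have hqlog : ∀ v, β v * L + Real.log (T.cc / 2) ≤ Real.log (q v) ∧ Real.log (q v) ≤ β v * L := by
    intro v
    have hqp : (0 : ℝ) < q v := by exact_mod_cast hq1 v
    constructor
    · have h1 := Real.log_le_log (by positivity) (T.qq_ge L (β v))
      rw [Real.log_mul (by positivity) (Real.exp_pos _).ne', Real.log_exp] at h1
      linarith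
    · have h1 := Real.log_le_log hqp (T.qq_le_exp L (β v) hL (hβ.1 v).1)
      rwa [Real.log_exp] at h1
  have hterm : ∀ x ∈ Fintype.piFinset (fun v => T.blk (q v)),
      Real.exp (∑ v, ((2 - 2 * (Γ.genus v : ℝ)) * (lk + T.D * (β v - 1) * L) - |2 - 2 * (Γ.genus v : ℝ)| * k1)
        + P * (-(2 * lk) + 2 * (Real.log T.c + T.D * L))) ≤
      T.term r Γ x := by
    intro x hx
    have hxl := Fintype.mem_piFinset.mp (hsub hx)
    rw [Fintype.mem_piFinset] at hx
    unfold term
    rw [Real.exp_add]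
    apply mul_le_mul _ _ (Real.exp_pos _).le (Real.exp_pos _).le
    · apply Real.exp_le_exp.mpr
      refine Finset.sum_le_sum fun v _ => ?_
      have hVp := T.V_pos r hrn _ (hxl v)
      have hqp : (0 : ℝ) < q v := by exact_mod_cast hq1 v
      have h1 := Real.log_le_log hVp (T.V_blk_le (q v) r (hq1 v) (hqr v) _ (hx v))
      have h2 := Real.log_le_log (by positivity) (T.V_blk_ge (q v) r (hq1 v) (hqr v) _ (hx v))
      rw [Real.log_mul hCp.ne' (by positivity), Real.log_pow, Real.log_div hqp.ne' hr0.ne'] at h1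
      rw [Real.log_mul hcp.ne' (by positivity), Real.log_pow, Real.log_div hqp.ne' hr0.ne'] at h2
      rw [← hLdef] at h1 h2
      have hD0 : (0 : ℝ) ≤ T.D := Nat.cast_nonneg _
      have h3 : |Real.log (T.V r (x v)) - T.D * (β v - 1) * L| ≤ k1 := by
        rw [abs_le]
        have a1 := neg_abs_le (Real.log T.c)
        have a2 := le_abs_self (Real.log T.C)
        have a3 := abs_nonneg (Real.log T.C)
        have a4 := abs_nonneg (Real.log T.c)
        have a5 := neg_abs_le (Real.log (T.cc / 2))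
        have a6 := abs_nonneg (Real.log (T.cc / 2))
        obtain ⟨b1, b2⟩ := hqlog v
        have a7 := mul_le_mul_of_nonneg_left a5 hD0
        have a8 := mul_nonneg hD0 a6
        constructor
        · have h5 : T.D * (Real.log (T.cc / 2) + (β v - 1) * L) ≤ T.D * (Real.log (q v) - L) := by
            apply mul_le_mul_of_nonneg_left _ hD0
            linarith
          rw [hk1]
          linarith
        · have h5 : T.D * (Real.log (q v) - L) ≤ T.D * ((β v - 1) * L) := by
            apply mul_le_mul_of_nonneg_left _ hD0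
            linarith
          rw [hk1]
          linarith
      have h4 : -(|2 - 2 * (Γ.genus v : ℝ)| * k1) ≤
          (2 - 2 * (Γ.genus v : ℝ)) * (Real.log (T.V r (x v)) - T.D * (β v - 1) * L) := by
        have h5 := neg_abs_le ((2 - 2 * (Γ.genus v : ℝ)) * (Real.log (T.V r (x v)) - T.D * (β v - 1) * L))
        rw [abs_mul] at h5
        have h6 := mul_le_mul_of_nonneg_left h3 (abs_nonneg (2 - 2 * (Γ.genus v : ℝ)))
        linarith
      linarith
    · have h1 : ∀ e ∈ PG.pos Γ, Real.exp (-(2 * lk) + 2 * (Real.log T.c + T.D * L)) ≤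
          Real.exp (-(2 * lk)) * T.F r (x (Γ.src e)) (x (Γ.tgt e)) ^ 2 := by
        intro e _
        rw [Real.exp_add]
        apply mul_le_mul_of_nonneg_left _ (Real.exp_pos _).le
        have h2 := T.F_ge (q (Γ.src e)) (q (Γ.tgt e)) r (hq1 _) (hq1 _)
          (T.qq_mul_le r (β (Γ.src e)) (β (Γ.tgt e)) (hβ.1 _).1 (hβ.1 _).1 (hβ.2 e) hr)
          _ (hx (Γ.src e)) _ (hx (Γ.tgt e))
        have h4 : Real.exp (Real.log T.c + T.D * L) = T.c * (r : ℝ) ^ T.D := by
          rw [Real.exp_add, Real.exp_log hcp, hLdef, ← Real.log_pow, Real.exp_log (by positivity)]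
        rw [mul_comm (2 : ℝ), Real.exp_mul, Real.rpow_two, h4]
        exact pow_le_pow_left₀ (by positivity) h2 2
      have h2 := Finset.prod_le_prod (s := PG.pos Γ) (fun e _ => (Real.exp_pos _).le) h1
      rw [Finset.prod_const, ← Real.exp_nat_mul] at h2
      exact h2
  -- the number of the terms
  have hcard : Real.exp ((T.ℓ : ℝ) * ∑ v, (β v * L + Real.log (T.cc / 2))) ≤
      ((Fintype.piFinset (fun v => T.blk (q v))).card : ℝ) := by
    rw [Fintype.card_piFinset, Nat.cast_prod, Finset.mul_sum, Real.exp_sum]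
    refine Finset.prod_le_prod (fun v _ => (Real.exp_pos _).le) fun v _ => ?_
    have hqp : (0 : ℝ) < q v := by exact_mod_cast hq1 v
    rw [T.blk_card _ (hq1 v), Nat.cast_pow]
    have h1 : ((q v : ℝ)) ^ T.ℓ = Real.exp ((T.ℓ : ℝ) * Real.log (q v)) := by
      rw [← Real.exp_log (pow_pos hqp T.ℓ), Real.log_pow]
    rw [h1]
    apply Real.exp_le_exp.mpr
    exact mul_le_mul_of_nonneg_left (hqlog v).1 hℓ0.le
  calc Real.exp (K2 + L * growth (T.ℓ * (T.h + 1)) T.ℓ Γ (weight T.h Γ β))
      = Real.exp ((T.ℓ : ℝ) * ∑ v, (β v * L + Real.log (T.cc / 2))) *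
        Real.exp (∑ v, ((2 - 2 * (Γ.genus v : ℝ)) * (lk + T.D * (β v - 1) * L) - |2 - 2 * (Γ.genus v : ℝ)| * k1)
        + P * (-(2 * lk) + 2 * (Real.log T.c + T.D * L))) := by
        rw [← Real.exp_add]
        congr 1
        have e1 : ∑ v, (β v * L + Real.log (T.cc / 2)) = L * ∑ v, β v + n * Real.log (T.cc / 2) := by
          rw [Finset.sum_add_distrib, Finset.sum_const, Finset.card_univ, Fintype.card_fin, nsmul_eq_mul,
            Finset.mul_sum]
          congr 1
          exact Finset.sum_congr rfl fun v _ => mul_comm _ _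
        have e2 : ∑ v, ((2 - 2 * (Γ.genus v : ℝ)) * (lk + T.D * (β v - 1) * L) - |2 - 2 * (Γ.genus v : ℝ)| * k1) =
            -(2 * lk) * G + 2 * T.D * L * G - 2 * T.D * L * ∑ v, ((Γ.genus v : ℝ) - 1) * β v -
              ∑ v, |2 - 2 * (Γ.genus v : ℝ)| * k1 := by
          rw [hG, Finset.mul_sum, Finset.mul_sum, Finset.mul_sum, ← Finset.sum_add_distrib,
            ← Finset.sum_sub_distrib, ← Finset.sum_sub_distrib]
          refine Finset.sum_congr rfl fun v _ => ?_
          ring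
        have e3 : weight T.h Γ β = ∑ v, β v - T.h * ∑ v, ((Γ.genus v : ℝ) - 1) * β v := by
          unfold weight
          rw [Finset.mul_sum, ← Finset.sum_sub_distrib]
          refine Finset.sum_congr rfl fun v _ => ?_
          ring
        rw [e1, e2, hlk2]
        unfold growth
        rw [← hP, ← hG, e3, hK2]
        linear_combination (-(L * G) - L * P + L * ∑ v, ((Γ.genus v : ℝ) - 1) * β v) * hD2
    _ ≤ ((Fintype.piFinset (fun v => T.blk (q v))).card : ℝ) *
        Real.exp (∑ v, ((2 - 2 * (Γ.genus v : ℝ)) * (lk + T.D * (β v - 1) * L) - |2 - 2 * (Γ.genus v : ℝ)| * k1)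
        + P * (-(2 * lk) + 2 * (Real.log T.c + T.D * L))) :=
        mul_le_mul_of_nonneg_right hcard (Real.exp_pos _).le
    _ ≤ _ := by
        rw [← nsmul_eq_mul]
        exact Finset.card_nsmul_le_sum _ _ _ hterm

theorem sum_term_ge (Γ : PlumbingGraph n m) (α α' : Fin n → ℝ)
    (hα : IsPacking Γ α) (hα' : IsPacking Γ α') (hw : weight T.h Γ α' = weight T.h Γ α) (v0 : Fin n)
    (hlt : α v0 < α' v0) : ∃ (c : ℝ) (r0 : ℕ), 0 < c ∧ ∀ r : ℕ, r0 ≤ r →
      c * (Real.exp (Real.log r * growth (T.ℓ * (T.h + 1)) T.ℓ Γ (weight T.h Γ α)) * Real.log r) ≤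
        ∑ x ∈ Fintype.piFinset (fun _ : Fin n => T.L r), T.term r Γ x := by
  classical
  obtain ⟨K, hK⟩ := T.scale_bound Γ
  have hc := T.cc_pos
  have hc1 := T.cc_le_one
  set δ : ℝ := α' v0 - α v0 with hδ
  have hδ0 : 0 < δ := by linarith
  have hκ1 : (1 : ℝ) < T.κ := by
    have : 1 < T.κ := T.hκ
    exact_mod_cast this
  have hκ0 : (0 : ℝ) < T.κ := by linarith
  have hl4 : 0 < Real.log T.κ := Real.log_pos hκ1
  set E : ℝ := growth (T.ℓ * (T.h + 1)) T.ℓ Γ (weight T.h Γ α) with hE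
  -- r0
  obtain ⟨ra, hra⟩ := exists_nat_ge (1 / T.cc)
  obtain ⟨rb, hrb⟩ := exists_nat_ge (Real.exp (4 * Real.log T.κ / δ))
  obtain ⟨rc, hrc⟩ := exists_nat_ge (Real.exp (2 * Real.log (1 / T.cc) / δ))
  refine ⟨Real.exp K * (δ / (4 * Real.log T.κ)), ra + rb + rc + 1, by positivity, fun r hr => ?_⟩
  have hr1 : (1 : ℝ) ≤ r := by
    have : 1 ≤ r := by omega
    exact_mod_cast this
  have hr0 : (0 : ℝ) < r := by linarith
  have hL : 0 ≤ Real.log r := Real.log_nonneg hr1
  have hcr : 1 ≤ T.cc * r := by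
    have h1 : (ra : ℝ) ≤ r := by
      have : ra ≤ r := by omega
      exact_mod_cast this
    have h2 : 1 / T.cc ≤ r := hra.trans h1
    rw [div_le_iff₀ hc] at h2
    linarith
  set L := Real.log r with hLdef
  have hLb : 4 * Real.log T.κ / δ ≤ L := by
    have h1 : (rb : ℝ) ≤ r := by
      have : rb ≤ r := by omega
      exact_mod_cast this
    rw [hLdef, Real.le_log_iff_exp_le hr0]
    exact hrb.trans h1
  have hLc : 2 * Real.log (1 / T.cc) / δ ≤ L := by
    have h1 : (rc : ℝ) ≤ r := by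
      have : rc ≤ r := by omega
      exact_mod_cast this
    rw [hLdef, Real.le_log_iff_exp_le hr0]
    exact hrc.trans h1
  have hL0 : 0 < L := lt_of_lt_of_le (by positivity) hLb
  -- the scales
  set S : ℕ := ⌊δ * L / (2 * Real.log T.κ)⌋₊ with hS
  have hSge : δ / (4 * Real.log T.κ) * L ≤ S := by
    have h1 := Nat.lt_floor_add_one (δ * L / (2 * Real.log T.κ))
    rw [← hS] at h1
    have h2 : 1 ≤ δ * L / (4 * Real.log T.κ) := by
      rw [le_div_iff₀ (by positivity)]
      rw [div_le_iff₀ hδ0] at hLb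
      linarith
    have h3 : δ * L / (2 * Real.log T.κ) = δ * L / (4 * Real.log T.κ) + δ * L / (4 * Real.log T.κ) := by
      field_simp
      norm_num
    have h4 : δ / (4 * Real.log T.κ) * L = δ * L / (4 * Real.log T.κ) := by ring
    rw [h4]
    linarith
  let t : ℕ → ℝ := fun s => 1 / 2 + s * Real.log T.κ / (δ * L)
  have ht : ∀ s ∈ range S, 0 ≤ t s ∧ t s ≤ 1 := by
    intro s hs
    rw [mem_range] at hs
    refine ⟨by positivity, ?_⟩
    have h1 : ((s : ℝ)) ≤ S := by exact_mod_cast hs.le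
    have h2 : (S : ℝ) ≤ δ * L / (2 * Real.log T.κ) := Nat.floor_le (by positivity)
    have h3 : (s : ℝ) * Real.log T.κ / (δ * L) ≤ 1 / 2 := by
      rw [div_le_iff₀ (by positivity)]
      have h4 : (s : ℝ) ≤ δ * L / (2 * Real.log T.κ) := h1.trans h2
      rw [le_div_iff₀ (by positivity)] at h4
      linarith
    show 1 / 2 + (s : ℝ) * Real.log T.κ / (δ * L) ≤ 1
    linarith
  let β : ℕ → Fin n → ℝ := fun s v => (1 - t s) * α v + t s * α' v
  have hβ : ∀ s ∈ range S, IsPacking Γ (β s) := fun s hs =>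
    packing_mix Γ α α' hα hα' (t s) (ht s hs).1 (ht s hs).2
  have hβw : ∀ s, weight T.h Γ (β s) = weight T.h Γ α := fun s => weight_mix T.h Γ α α' hw (t s)
  let B : ℕ → Finset (Fin n → ι) := fun s =>
    Fintype.piFinset (fun v => T.blk (T.qq L (β s v)))
  have hx : ∀ s, T.cc * Real.exp (β s v0 * L) = T.cc * Real.exp ((α v0 + δ / 2) * L) * (T.κ : ℝ) ^ s := by
    intro s
    rw [mul_assoc]
    congr 1
    have h1 : (T.κ : ℝ) ^ s = Real.exp (s * Real.log T.κ) := by
      rw [Real.exp_nat_mul, Real.exp_log hκ0]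
    rw [h1, ← Real.exp_add]
    congr 1
    show ((1 - (1 / 2 + (s : ℝ) * Real.log T.κ / (δ * L))) * α v0 + (1 / 2 + (s : ℝ) * Real.log T.κ / (δ * L)) * α' v0) * L = _
    have h2 : α' v0 = α v0 + δ := by rw [hδ]; ring
    rw [h2]
    field_simp
    ring
  have hx1 : ∀ s, 1 ≤ T.cc * Real.exp (β s v0 * L) := by
    intro s
    rw [hx]
    have h1 : 1 ≤ T.cc * Real.exp ((α v0 + δ / 2) * L) := by
      have h2 : Real.log (1 / T.cc) ≤ (α v0 + δ / 2) * L := by
        rw [div_le_iff₀ hδ0] at hLc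
        have h3 : 0 ≤ α v0 * L := mul_nonneg (hα.1 v0).1 hL
        nlinarith
      have h3 := Real.exp_le_exp.mpr h2
      rw [Real.exp_log (by positivity), div_le_iff₀ hc] at h3
      linarith
    have h2 : (1 : ℝ) ≤ (T.κ : ℝ) ^ s := one_le_pow₀ hκ1.le
    nlinarith
  have hq2 : ∀ s s' : ℕ, s < s' → T.κ * T.qq L (β s v0) ≤ T.qq L (β s' v0) := by
    intro s s' hss
    have h1 : ∀ s, T.qq L (β s v0) = ⌊T.cc * Real.exp (β s v0 * L)⌋₊ := by
      intro s
      unfold qq
      apply max_eq_right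
      apply Nat.le_floor
      simpa using hx1 s
    rw [h1, h1]
    apply Nat.le_floor
    rw [Nat.cast_mul]
    have h2 : ((⌊T.cc * Real.exp (β s v0 * L)⌋₊ : ℕ) : ℝ) ≤ T.cc * Real.exp (β s v0 * L) :=
      Nat.floor_le (by positivity)
    have h3 : T.κ * (T.cc * Real.exp (β s v0 * L)) ≤ T.cc * Real.exp (β s' v0 * L) := by
      rw [hx, hx]
      have h4 : (T.κ : ℝ) * (T.κ : ℝ) ^ s ≤ (T.κ : ℝ) ^ s' := by
        have h5 : (T.κ : ℝ) ^ (s + 1) ≤ (T.κ : ℝ) ^ s' := pow_le_pow_right₀ hκ1.le hss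
        rw [pow_succ] at h5
        linarith
      have h5 : 0 < T.cc * Real.exp ((α v0 + δ / 2) * L) := by positivity
      calc T.κ * (T.cc * Real.exp ((α v0 + δ / 2) * L) * (T.κ : ℝ) ^ s) =
            T.cc * Real.exp ((α v0 + δ / 2) * L) * ((T.κ : ℝ) * (T.κ : ℝ) ^ s) := by ring
        _ ≤ _ := mul_le_mul_of_nonneg_left h4 h5.le
    exact (mul_le_mul_of_nonneg_left h2 hκ0.le).trans h3
  have hdisj : ∀ s ∈ range S, ∀ s' ∈ range S, s ≠ s' → Disjoint (B s) (B s') := by
    have key : ∀ s s' : ℕ, s < s' → Disjoint (B s) (B s') := by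
      intro s s' hss
      rw [Finset.disjoint_left]
      intro x hx hx'
      simp only [B, Fintype.mem_piFinset] at hx hx'
      exact (Finset.disjoint_left.mp (T.blk_disj _ _ (T.qq_one _ _) (hq2 s s' hss))) (hx v0) (hx' v0)
    intro s _ s' _ hne
    rcases lt_or_gt_of_ne hne with h | h
    · exact key s s' h
    · exact (key s' s h).symm
  calc Real.exp K * (δ / (4 * Real.log T.κ)) * (Real.exp (L * E) * L)
      = (δ / (4 * Real.log T.κ) * L) * (Real.exp K * Real.exp (L * E)) := by ring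
    _ ≤ S * (Real.exp K * Real.exp (L * E)) :=
        mul_le_mul_of_nonneg_right hSge (by positivity)
    _ = ∑ _s ∈ range S, Real.exp (K + L * E) := by
        rw [Finset.sum_const, card_range, nsmul_eq_mul, Real.exp_add]
    _ ≤ ∑ s ∈ range S, ∑ x ∈ B s, T.term r Γ x := by
        refine Finset.sum_le_sum fun s hs => ?_
        have h1 := (hK (β s) (hβ s hs) r hcr).2
        rw [hβw s] at h1
        exact h1
    _ = ∑ x ∈ (range S).biUnion B, T.term r Γ x := by
        rw [Finset.sum_biUnion]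
        intro s hs s' hs' hne
        exact hdisj s hs s' hs' hne
    _ ≤ ∑ x ∈ Fintype.piFinset (fun _ : Fin n => T.L r), T.term r Γ x := by
        refine Finset.sum_le_sum_of_subset_of_nonneg ?_ fun x _ _ => T.term_nonneg r Γ x
        intro x hx
        obtain ⟨s, hs, hx⟩ := mem_biUnion.mp hx
        exact (hK (β s) (hβ s hs) r hcr).1 hx

end Dat

end Pool.Agent.Helper83.AllG
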