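import Mathlib
import Pool.Graph.R_seed8.Y397.PG.Main
import Pool.Graph.R_seed8.Y397.PG.Theta
import Pool.Agent.Helper83.AllG.AbsLow

/-!
# Two-sided bounds for the sum of the terms, for abstract data
-/

set_option autoImplicit false

open Finset Filter Topology

namespace Pool.Agent.Helper83.AllG

open W719AEC Pool.Agent.Y397
open Pool.Agent.Y397.PG (IsPacking Doubled excess load sum_ends IsMaxPacking ind bip_packing
  sum_eq_of_load ind_ne theta theta_doubled theta_card)

variable {n m : ℕ}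

theorem Dat.bounds {ι : Type*} [DecidableEq ι] (T : Dat ι) (Γ : PlumbingGraph n m)
    (α α' : Fin n → ℝ) (hα : IsOptimal T.h Γ α) (hα' : IsOptimal T.h Γ α') (hne : α ≠ α') :
    ∃ (c C : ℝ) (B : ℕ), 0 < c ∧ ∀ᶠ r : ℕ in atTop,
      c * ((r : ℝ) ^ growth (T.ℓ * (T.h + 1)) T.ℓ Γ (weight T.h Γ α) * Real.log r) ≤
        ∑ x ∈ Fintype.piFinset (fun _ : Fin n => T.L r), T.term r Γ x ∧
      ∑ x ∈ Fintype.piFinset (fun _ : Fin n => T.L r), T.term r Γ x ≤
        C * ((r : ℝ) ^ growth (T.ℓ * (T.h + 1)) T.ℓ Γ (weight T.h Γ α) * (1 + Real.log r) ^ B) := by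
  have hh := T.h_pos
  have hℓ0 : (0 : ℝ) < T.ℓ := by exact_mod_cast T.hℓ
  have hexc : ∀ β : Fin n → ℝ, IsPacking Γ β → excess Γ β = 0 := by
    intro β hβ
    unfold excess
    refine Finset.sum_eq_zero fun e _ => ?_
    exact max_eq_left (by linarith [hβ.2 e])
  have hw : weight T.h Γ α' = weight T.h Γ α := by
    apply le_antisymm
    · have := hα.2 α' hα'.1.1
      rw [hexc α' hα'.1] at this
      linarith
    · have := hα'.2 α hα.1.1
      rw [hexc α hα.1] at this
      linarith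
  set E := growth (T.ℓ * (T.h + 1)) T.ℓ Γ (weight T.h Γ α) with hE
  have hlow : ∃ (c : ℝ) (r0 : ℕ), 0 < c ∧ ∀ r : ℕ, r0 ≤ r →
      c * (Real.exp (Real.log r * E) * Real.log r) ≤
        ∑ x ∈ Fintype.piFinset (fun _ : Fin n => T.L r), T.term r Γ x := by
    obtain ⟨v0, hv0⟩ : ∃ v0, α v0 ≠ α' v0 := by
      by_contra hcon
      push Not at hcon
      exact hne (funext hcon)
    rcases lt_or_gt_of_ne hv0 with h | h
    · exact T.sum_term_ge Γ α α' hα.1 hα'.1 hw v0 h
    · have := T.sum_term_ge Γ α' α hα'.1 hα.1 hw.symm v0 h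
      rwa [hw] at this
  obtain ⟨c, r0, hc, hlow⟩ := hlow
  obtain ⟨ω, t, hw0, hwN, ht, hcov, hval⟩ := exists_dual T.h hh.le Γ α hα
  obtain ⟨C, hC, hup⟩ := T.sum_term_le Γ ω t hw0 hwN ht hcov
  refine ⟨c, C, n * T.ℓ, hc, ?_⟩
  filter_upwards [eventually_ge_atTop r0, eventually_ge_atTop 1] with r hr hr1
  have hr1' : (1 : ℝ) ≤ r := by exact_mod_cast hr1
  have hr' : (0 : ℝ) < r := by linarith
  have hL : 0 ≤ Real.log r := Real.log_nonneg hr1'
  rw [Real.rpow_def_of_pos hr']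
  refine ⟨hlow r hr, (hup r hr1).trans ?_⟩
  apply mul_le_mul_of_nonneg_left _ hC.le
  apply mul_le_mul_of_nonneg_right _ (by positivity)
  apply Real.exp_le_exp.mpr
  apply mul_le_mul_of_nonneg_left _ hL
  rw [hE]
  unfold growth
  have : (T.ℓ : ℝ) * (∑ e ∈ PG.pos Γ, ω e + ∑ v, t v) ≤ T.ℓ * weight T.h Γ α :=
    mul_le_mul_of_nonneg_left hval hℓ0.le
  linarith

/-- Bipartite graphs with pieces of genus 1. -/
theorem optimal_bip_one (hn : 0 < n) (Γ : PlumbingGraph n m)
    (hd : Doubled Γ) (hg : ∀ v, Γ.genus v = 1) (J : Finset (Fin n))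
    (hJ : ∀ e, Γ.src e ∈ J ↔ Γ.tgt e ∉ J) (w : Fin m → ℝ) (hw0 : ∀ e, 0 ≤ w e)
    (hw1 : ∀ v, load Γ w v = 1) (h : ℝ) (hh : 2 ≤ h) :
    ∃ α α' : Fin n → ℝ, α ≠ α' ∧ IsOptimal h Γ α ∧ IsOptimal h Γ α' ∧ weight h Γ α = n / 2 := by
  obtain ⟨hp1, hp2, hsum⟩ := bip_packing Γ J hJ
  set W := ∑ e ∈ PG.pos Γ, w e with hW
  have hval1 : ∑ v, ind J v = W := by
    rw [sum_eq_of_load Γ w hw1]
    refine Finset.sum_congr rfl fun e _ => ?_
    rw [hsum, mul_one]
  have hn2 : (n : ℝ) = 2 * W := by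
    have h1 := sum_eq_of_load Γ w hw1 (fun _ => 1)
    rw [Finset.sum_const, Finset.card_univ, Fintype.card_fin, nsmul_eq_mul, mul_one] at h1
    rw [h1, hW, Finset.mul_sum]
    refine Finset.sum_congr rfl fun e _ => ?_
    ring
  have hval2 : ∑ v, (1 - ind J v) = W := by
    rw [Finset.sum_sub_distrib, hval1, Finset.sum_const, Finset.card_univ, Fintype.card_fin,
      nsmul_eq_mul, mul_one, hn2]
    ring
  have hmax : ∀ β : Fin n → ℝ, IsPacking Γ β → ∑ v, β v ≤ W := by
    intro β hβ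
    rw [sum_eq_of_load Γ w hw1]
    refine Finset.sum_le_sum fun e _ => ?_
    have := mul_le_mul_of_nonneg_left (hβ.2 e) (hw0 e)
    linarith
  obtain ⟨a1, a2⟩ := optimal_of_max h hh Γ (fun v => (hg v).ge) hd (ind J)
    ⟨hp1, fun v hv => absurd (hg v) hv, fun β hβ _ => by rw [hval1]; exact hmax β hβ⟩
  obtain ⟨b1, b2⟩ := optimal_of_max h hh Γ (fun v => (hg v).ge) hd (fun v => 1 - ind J v)
    ⟨hp2, fun v hv => absurd (hg v) hv, fun β hβ _ => by rw [hval2]; exact hmax β hβ⟩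
  refine ⟨ind J, fun v => 1 - ind J v, ind_ne hn J, a1, b1, ?_⟩
  rw [a2, hval1, hn2]
  ring

theorem theta_optimal (k : ℕ) (hk : 1 ≤ k) (h : ℝ) (hh : 2 ≤ h) :
    ∃ α α' : Fin 2 → ℝ, α ≠ α' ∧ IsOptimal h (theta k) α ∧ IsOptimal h (theta k) α' ∧
      weight h (theta k) α = 1 := by
  have hk' : (0 : ℝ) < k := by exact_mod_cast hk
  obtain ⟨α, α', h1, h2, h3, h4⟩ := optimal_bip_one (by norm_num) (theta k) (theta_doubled k)
    (fun _ => rfl) {0}
    (by
      intro e
      show (0 : Fin 2) ∈ ({0} : Finset (Fin 2)) ↔ (1 : Fin 2) ∉ ({0} : Finset (Fin 2))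
      simp) (fun _ => 1 / (k : ℝ)) (fun _ => by positivity) (by
      intro v
      unfold load
      rw [Finset.sum_const, Finset.sum_const, nsmul_eq_mul, nsmul_eq_mul]
      have hv : v = 0 ∨ v = 1 := by
        fin_cases v
        · left; rfl
        · right; rfl
      rcases hv with rfl | rfl
      · have e1 : (PG.pos (theta k)).filter (fun e => (theta k).src e = 0) = PG.pos (theta k) :=
          Finset.filter_true_of_mem (fun _ _ => rfl)
        have e2 : (PG.pos (theta k)).filter (fun e => (theta k).tgt e = 0) = ∅ :=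
          Finset.filter_false_of_mem (fun _ _ => by
            show ¬ ((1 : Fin 2) = 0)
            decide)
        rw [e1, e2, theta_card]
        simp
        field_simp
      · have e1 : (PG.pos (theta k)).filter (fun e => (theta k).src e = 1) = ∅ :=
          Finset.filter_false_of_mem (fun _ _ => by
            show ¬ ((0 : Fin 2) = 1)
            decide)
        have e2 : (PG.pos (theta k)).filter (fun e => (theta k).tgt e = 1) = PG.pos (theta k) :=
          Finset.filter_true_of_mem (fun _ _ => rfl)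
        rw [e1, e2, theta_card]
        simp
        field_simp) h hh
  refine ⟨α, α', h1, h2, h3, ?_⟩
  rw [h4]
  norm_num

end Pool.Agent.Helper83.AllG
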