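import Mathlib

/-!
# Exponential polynomials on a Euclidean space: the group algebra of V over the reals
-/

set_option autoImplicit false

open Finset
open scoped RealInnerProductSpace

namespace Pool.Agent.Helper83.AllG

open AddMonoidAlgebra (single)

variable {V : Type*} [NormedAddCommGroup V] [InnerProductSpace ℝ V]

/-- The character x ↦ exp (2 π i ⟨β, x⟩), as a function of β. -/
noncomputable def chr (x : V) : Multiplicative V →* ℂ where
  toFun β := Complex.exp (2 * Real.pi * Complex.I * ((⟪β.toAdd, x⟫ : ℝ) : ℂ))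
  map_one' := by simp
  map_mul' a b := by
    rw [← Complex.exp_add, toAdd_mul, inner_add_left]
    congr 1
    push_cast
    ring

/-- Evaluation of an exponential polynomial at x. -/
noncomputable def ev (x : V) : AddMonoidAlgebra ℝ V →ₐ[ℝ] ℂ := AddMonoidAlgebra.lift ℝ ℂ V (chr x)

theorem ev_single (x β : V) (c : ℝ) :
    ev x (single β c) = (c : ℂ) * Complex.exp (2 * Real.pi * Complex.I * ((⟪β, x⟫ : ℝ) : ℂ)) := by
  unfold ev
  rw [AddMonoidAlgebra.lift_single]
  rw [Complex.real_smul]
  rfl

theorem ev_apply (x : V) (f : AddMonoidAlgebra ℝ V) :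
    ev x f = ∑ β ∈ f.coeff.support,
      (f.coeff β : ℂ) * Complex.exp (2 * Real.pi * Complex.I * ((⟪β, x⟫ : ℝ) : ℂ)) := by
  unfold ev
  rw [AddMonoidAlgebra.lift_apply]
  unfold Finsupp.sum
  refine Finset.sum_congr rfl fun β _ => ?_
  show (f.coeff β) • (chr x (Multiplicative.ofAdd β)) = _
  rw [Complex.real_smul]
  rfl

theorem ev_apply_of_subset (x : V) (f : AddMonoidAlgebra ℝ V) (S : Finset V)
    (hS : f.coeff.support ⊆ S) :
    ev x f = ∑ β ∈ S,
      (f.coeff β : ℂ) * Complex.exp (2 * Real.pi * Complex.I * ((⟪β, x⟫ : ℝ) : ℂ)) := by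
  rw [ev_apply]
  refine Finset.sum_subset hS fun β _ hβ => ?_
  rw [Finsupp.notMem_support_iff] at hβ
  rw [hβ]
  simp

theorem ev_continuous (f : AddMonoidAlgebra ℝ V) : Continuous fun x : V => ev x f := by
  simp_rw [ev_apply]
  fun_prop

/-- The derivation e(β) ↦ ⟨v, β⟩ e(β). -/
noncomputable def dv (v : V) : AddMonoidAlgebra ℝ V →ₗ[ℝ] AddMonoidAlgebra ℝ V where
  toFun f := AddMonoidAlgebra.ofCoeff
    (Finsupp.onFinset f.coeff.support (fun β => ⟪v, β⟫ * f.coeff β) (by
      intro β hβ
      rw [Finsupp.mem_support_iff]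
      exact right_ne_zero_of_mul hβ))
  map_add' f g := by
    ext β
    simp [mul_add]
  map_smul' c f := by
    ext β
    simp
    ring

@[simp] theorem dv_coeff (v : V) (f : AddMonoidAlgebra ℝ V) (β : V) :
    (dv v f).coeff β = ⟪v, β⟫ * f.coeff β := by
  simp [dv]

theorem dv_single (v β : V) (c : ℝ) : dv v (single β c) = single β (⟪v, β⟫ * c) := by
  classical
  ext γ
  rw [dv_coeff, AddMonoidAlgebra.coeff_single, AddMonoidAlgebra.coeff_single, Finsupp.single_apply,
    Finsupp.single_apply]
  split_ifs with h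
  · rw [h]
  · simp

theorem dv_mul (v : V) (f g : AddMonoidAlgebra ℝ V) : dv v (f * g) = dv v f * g + f * dv v g := by
  induction f using AddMonoidAlgebra.induction_linear with
  | zero => simp
  | add f₁ f₂ h₁ h₂ => rw [add_mul, map_add, h₁, h₂, map_add]; ring
  | single β c =>
    induction g using AddMonoidAlgebra.induction_linear with
    | zero => simp
    | add g₁ g₂ h₁ h₂ => rw [mul_add, map_add, h₁, h₂, map_add]; ring
    | single γ d =>
      rw [AddMonoidAlgebra.single_mul_single, dv_single, dv_single, dv_single,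
        AddMonoidAlgebra.single_mul_single, AddMonoidAlgebra.single_mul_single,
        ← AddMonoidAlgebra.single_add, inner_add_right]
      congr 1
      ring

/-- The element 1 - e(-α). -/
noncomputable def aa (α : V) : AddMonoidAlgebra ℝ V := single 0 1 - single (-α) 1

theorem aa_mul_coeff (α : V) (g : AddMonoidAlgebra ℝ V) (β : V) :
    (aa α * g).coeff β = g.coeff β - g.coeff (β + α) := by
  unfold aa
  rw [sub_mul, AddMonoidAlgebra.coeff_sub, Finsupp.sub_apply, AddMonoidAlgebra.coeff_single_mul_apply,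
    AddMonoidAlgebra.coeff_single_mul_apply]
  simp [add_comm]

theorem dv_aa (v α : V) : dv v (aa α) = ⟪v, α⟫ • single (-α) 1 := by
  unfold aa
  rw [map_sub, dv_single, dv_single]
  ext β
  simp

/-- A nonzero α and a g with finite support: g vanishes at β + n α for large n. -/
theorem exists_coeff_eq_zero (g : AddMonoidAlgebra ℝ V) (α β : V) (hα : α ≠ 0) :
    ∃ n : ℕ, ∀ m : ℕ, n ≤ m → g.coeff (β + (m : ℝ) • α) = 0 := by
  have hinj : Function.Injective (fun m : ℕ => β + (m : ℝ) • α) := by
    intro m n h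
    simp only at h
    have h2 := add_left_cancel h
    have h3 := smul_left_injective ℝ hα h2
    exact_mod_cast h3
  have hfin : {m : ℕ | g.coeff (β + (m : ℝ) • α) ≠ 0}.Finite := by
    refine Set.Finite.subset (g.coeff.support.finite_toSet.preimage (hinj.injOn)) ?_
    intro m hm
    simpa using hm
  obtain ⟨n, hn⟩ := hfin.bddAbove
  refine ⟨n + 1, fun m hm => ?_⟩
  by_contra hcon
  have := hn hcon
  omega

theorem aa_mul_cancel (α : V) (hα : α ≠ 0) (g : AddMonoidAlgebra ℝ V) (h : aa α * g = 0) : g = 0 := by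
  ext β
  have hstep : ∀ γ : V, g.coeff γ = g.coeff (γ + α) := by
    intro γ
    have := aa_mul_coeff α g γ
    rw [h] at this
    simp at this
    linarith
  have hn : ∀ n : ℕ, g.coeff β = g.coeff (β + (n : ℝ) • α) := by
    intro n
    induction n with
    | zero => simp
    | succ n ih =>
      rw [ih, hstep]
      congr 1
      push_cast
      rw [add_smul, one_smul]
      abel
  obtain ⟨n, hn'⟩ := exists_coeff_eq_zero g α β hα
  rw [hn n, hn' n le_rfl]
  simp

theorem aa_mul_left_cancel (α : V) (hα : α ≠ 0) (f g : AddMonoidAlgebra ℝ V)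
    (h : aa α * f = aa α * g) : f = g := by
  have := aa_mul_cancel α hα (f - g) (by rw [mul_sub, h, sub_self])
  exact sub_eq_zero.mp this

theorem prod_aa_mul_left_cancel (S : Finset V) (hS : ∀ α ∈ S, α ≠ 0) (f g : AddMonoidAlgebra ℝ V)
    (h : (∏ α ∈ S, aa α) * f = (∏ α ∈ S, aa α) * g) : f = g := by
  classical
  induction S using Finset.induction_on generalizing f g with
  | empty => simpa using h
  | insert α S hα ih =>
    rw [Finset.prod_insert hα, mul_assoc, mul_assoc] at h
    exact ih (fun β hβ => hS β (Finset.mem_insert_of_mem hβ)) _ _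
      (aa_mul_left_cancel α (hS α (Finset.mem_insert_self _ _)) _ _ h)

/-- All exponents of f lie in the half space ⟨·, v⟩ ≤ c. -/
def Lev (v : V) (c : ℝ) (f : AddMonoidAlgebra ℝ V) : Prop :=
  ∀ β : V, f.coeff β ≠ 0 → ⟪β, v⟫ ≤ c

theorem Lev.zero_of_lt {v : V} {c : ℝ} {f : AddMonoidAlgebra ℝ V} (h : Lev v c f) {β : V}
    (hβ : c < ⟪β, v⟫) : f.coeff β = 0 := by
  by_contra hcon
  exact absurd (h β hcon) (not_le.mpr hβ)

theorem Lev.aa_mul {v : V} {c : ℝ} {g : AddMonoidAlgebra ℝ V} (h : Lev v c g) {α : V}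
    (hα : 0 ≤ ⟪α, v⟫) : Lev v c (aa α * g) := by
  intro β hβ
  by_contra hcon
  push Not at hcon
  apply hβ
  rw [aa_mul_coeff, h.zero_of_lt hcon, h.zero_of_lt (β := β + α) (by rw [inner_add_left]; linarith)]
  ring

theorem Lev.top {v : V} {c : ℝ} {g : AddMonoidAlgebra ℝ V} (h : Lev v c g) {α β : V}
    (hα : 0 < ⟪α, v⟫) (hβ : ⟪β, v⟫ = c) : (aa α * g).coeff β = g.coeff β := by
  rw [aa_mul_coeff, h.zero_of_lt (β := β + α) (by rw [inner_add_left]; linarith)]
  ring

theorem Lev.of_aa_mul {v : V} {c : ℝ} {g : AddMonoidAlgebra ℝ V} {α : V} (hα : α ≠ 0)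
    (h : Lev v c (aa α * g)) : Lev v (c + min 0 ⟪α, v⟫) g := by
  intro β hβ
  by_contra hcon
  push Not at hcon
  rcases le_total 0 ⟪α, v⟫ with h0 | h0
  · rw [min_eq_left h0, add_zero] at hcon
    have hn : ∀ n : ℕ, g.coeff β = g.coeff (β + (n : ℝ) • α) := by
      intro n
      induction n with
      | zero => simp
      | succ n ih =>
        have h1 := h.zero_of_lt (β := β + (n : ℝ) • α) (by
          rw [inner_add_left, inner_smul_left]
          have : 0 ≤ (n : ℝ) * ⟪α, v⟫ := by positivity
          simpa using by linarith)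
        rw [aa_mul_coeff] at h1
        have h2 : β + ((n + 1 : ℕ) : ℝ) • α = β + (n : ℝ) • α + α := by
          push_cast
          rw [add_smul, one_smul]
          abel
        rw [h2, ih]
        linarith
    obtain ⟨n, hn'⟩ := exists_coeff_eq_zero g α β hα
    exact hβ (by rw [hn n, hn' n le_rfl])
  · rw [min_eq_right h0] at hcon
    have hn : ∀ n : ℕ, g.coeff β = g.coeff (β + (n : ℝ) • (-α)) := by
      intro n
      induction n with
      | zero => simp
      | succ n ih =>
        have h2 : β + ((n + 1 : ℕ) : ℝ) • (-α) = β + (n : ℝ) • (-α) - α := by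
          push_cast
          rw [add_smul, one_smul]
          abel
        have h1 := h.zero_of_lt (β := β + ((n + 1 : ℕ) : ℝ) • (-α)) (by
          rw [inner_add_left, inner_smul_left, inner_neg_left]
          have : 0 ≤ (n : ℝ) * (-⟪α, v⟫) := mul_nonneg (by positivity) (by linarith)
          push_cast
          simp
          linarith)
        rw [aa_mul_coeff] at h1
        rw [ih]
        rw [h2] at h1 ⊢
        rw [sub_add_cancel] at h1
        linarith
    obtain ⟨n, hn'⟩ := exists_coeff_eq_zero g (-α) β (neg_ne_zero.mpr hα)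
    exact hβ (by rw [hn n, hn' n le_rfl])

end Pool.Agent.Helper83.AllG
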