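import Mathlib
import Pool.Graph.R_seed8.W719.AEC.Defs

/-!
# Quantum invariants of graph manifolds for all simply connected compact simple Lie groups
-/

set_option autoImplicit false

open Finset
open scoped RealInnerProductSpace

namespace Pool.Agent.Helper83.AllG

variable {V : Type*} [NormedAddCommGroup V] [InnerProductSpace ℝ V] [FiniteDimensional ℝ V]

/-- The reflection in the hyperplane orthogonal to α. -/
noncomputable def sr (α : V) : V ≃ₗᵢ[ℝ] V := (Submodule.span ℝ {α})ᗮ.reflection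

/-- The determinant of an isometry. -/
noncomputable def sgn : (V ≃ₗᵢ[ℝ] V) →* ℝ where
  toFun w := LinearMap.det (w.toLinearEquiv : V →ₗ[ℝ] V)
  map_one' := by
    have : (((1 : V ≃ₗᵢ[ℝ] V).toLinearEquiv : V ≃ₗ[ℝ] V) : V →ₗ[ℝ] V) = LinearMap.id := by
      ext x; rfl
    rw [this, LinearMap.det_id]
  map_mul' a b := by
    have : (((a * b : V ≃ₗᵢ[ℝ] V).toLinearEquiv : V ≃ₗ[ℝ] V) : V →ₗ[ℝ] V) =
        (a.toLinearEquiv : V →ₗ[ℝ] V) ∘ₗ (b.toLinearEquiv : V →ₗ[ℝ] V) := by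
      ext x; rfl
    rw [this, LinearMap.det_comp]

/-- A reduced crystallographic root system, which does not have to span the space. -/
structure RS (Ψ : Finset V) : Prop where
  zero : (0 : V) ∉ Ψ
  refl : ∀ α ∈ Ψ, ∀ β ∈ Ψ, sr α β ∈ Ψ
  int : ∀ α ∈ Ψ, ∀ β ∈ Ψ, ∃ n : ℤ, 2 * ⟪β, α⟫ = n * ⟪α, α⟫
  red : ∀ α ∈ Ψ, ∀ c : ℝ, c • α ∈ Ψ → c = 1 ∨ c = -1

/-- Φ is an irreducible reduced crystallographic root system of the Euclidean space V, and the long roots
have the square length 2. These are the root systems of the simply connected compact simple Lie groups G,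
where V is the dual of the Lie algebra of a maximal torus with the basic inner product; the rank of G is
the dimension of V, and the dimension of G is the number of the roots plus the rank. -/
structure IsSimple (Φ : Finset V) : Prop extends RS Φ where
  nonempty : Φ.Nonempty
  span : Submodule.span ℝ (Φ : Set V) = ⊤
  irred : ∀ A ⊆ Φ, A.Nonempty → (∀ α ∈ A, ∀ β ∈ Φ, β ∉ A → ⟪α, β⟫ = 0) → A = Φ
  le_two : ∀ α ∈ Φ, ⟪α, α⟫ ≤ 2
  exists_two : ∃ α ∈ Φ, ⟪α, α⟫ = 2

/-- The Weyl group, the group generated by the reflections in the roots. -/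
def weyl (Ψ : Finset V) : Subgroup (V ≃ₗᵢ[ℝ] V) := Subgroup.closure (sr '' (Ψ : Set V))

/-- The weight lattice P, the x with 2 ⟨x, α⟩ / ⟨α, α⟩ in ℤ for all roots α. -/
def Wt (Ψ : Finset V) : AddSubgroup V where
  carrier := {x | ∀ α ∈ Ψ, ∃ n : ℤ, 2 * ⟪x, α⟫ = n * ⟪α, α⟫}
  zero_mem' := fun α _ => ⟨0, by simp⟩
  add_mem' := by
    intro x y hx hy α hα
    obtain ⟨m, hm⟩ := hx α hα
    obtain ⟨n, hn⟩ := hy α hα
    exact ⟨m + n, by rw [inner_add_left, mul_add, hm, hn]; push_cast; ring⟩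
  neg_mem' := by
    intro x hx α hα
    obtain ⟨m, hm⟩ := hx α hα
    exact ⟨-m, by rw [inner_neg_left, mul_neg, hm]; push_cast; ring⟩

/-- The coroot lattice Q^∨, generated by the 2 α / ⟨α, α⟩, α a root. -/
noncomputable def Qv (Ψ : Finset V) : AddSubgroup V :=
  AddSubgroup.closure {x | ∃ α ∈ Ψ, x = (2 / ⟪α, α⟫) • α}

/-- The positive roots α, i.e. those with ⟨α, v⟩ > 0, where v is a vector with ⟨α, v⟩ ≠ 0 for all
roots α. -/
noncomputable def pos (Ψ : Finset V) (v : V) : Finset V := by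
  classical
  exact Ψ.filter fun α => 0 < ⟪α, v⟫

/-- ρ, half the sum of the positive roots. -/
noncomputable def rho (Ψ : Finset V) (v : V) : V := (1 / 2 : ℝ) • ∑ α ∈ pos Ψ v, α

/-- The vectors λ + ρ for the labels λ of the level r - h^∨ theory, i.e. the weights x with
0 < ⟨x, α⟩ < r for all positive roots α. -/
def labels (Φ : Finset V) (v : V) (r : ℕ) : Set V :=
  {x | x ∈ Wt Φ ∧ ∀ α ∈ pos Φ v, 0 < ⟪x, α⟫ ∧ ⟪x, α⟫ < r}

/-- The S-matrix (Kac-Peterson formula) at level r - h^∨,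
i^(number of positive roots) |P / Q^∨|^(-1/2) r^(-rank/2) ∑_{w ∈ W} det(w) exp (-2 π i ⟨w x, y⟩ / r)
for the labels λ, μ with x = λ + ρ, y = μ + ρ. -/
noncomputable def Smat (Φ : Finset V) (v : V) (r : ℕ) (x y : V) : ℂ :=
  Complex.I ^ (pos Φ v).card /
      ((Real.sqrt ((Qv Φ).relIndex (Wt Φ)) * Real.sqrt r ^ (Module.finrank ℝ V) : ℝ) : ℂ) *
    ∑ᶠ w : weyl Φ, (sgn (w : V ≃ₗᵢ[ℝ] V) : ℂ) *
      Complex.exp (-(2 * Real.pi * Complex.I * ((⟪(w : V ≃ₗᵢ[ℝ] V) x, y⟫ / r : ℝ) : ℂ)))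

/-- The twist exp (π i (|x|^2 - |ρ|^2) / r) of the label λ with x = λ + ρ. -/
noncomputable def twist (Φ : Finset V) (v : V) (r : ℕ) (x : V) : ℂ :=
  Complex.exp (Real.pi * Complex.I * (((⟪x, x⟫ - ⟪rho Φ v, rho Φ v⟫) / r : ℝ) : ℂ))

/-- The level r - h^∨ quantum invariant (Witten's normalisation: 1 on S^1 x S^2 and S_{00} on S^3), for the
group G of the root system Φ, of the closed oriented graph manifold of the plumbing graph Γ (see
`W719AEC.PlumbingGraph`), up to a factor of absolute value 1 that depends on the 2-framing: the state sum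
over all colourings x of the vertices by labels of
∏_v θ_(x v)^(euler v) S_{0,x v}^(2 - 2 genus v - degree v) times ∏_e S_{x (src e), x (tgt e)}, where for a
negative edge the entry S_{λμ} is replaced by its complex conjugate S_{λμ*}. (The label 0 is ρ in the
shifted notation.) -/
noncomputable def ZG (Φ : Finset V) (v : V) {n m : ℕ} (Γ : W719AEC.PlumbingGraph n m) (r : ℕ) : ℂ :=
  ∑ᶠ x : Fin n → labels Φ v r,
    (∏ i, twist Φ v r (x i) ^ Γ.euler i *
      Smat Φ v r (rho Φ v) (x i) ^ (2 - 2 * (Γ.genus i : ℤ) - (Γ.degree i : ℤ))) *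
    ∏ e, (if Γ.positive e then Smat Φ v r (x (Γ.src e)) (x (Γ.tgt e))
      else (starRingEnd ℂ) (Smat Φ v r (x (Γ.src e)) (x (Γ.tgt e))))

end Pool.Agent.Helper83.AllG
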