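import Mathlib
import Pool.Agent.Helper83.AllG.Alg

/-!
# Divisibility by 1 - e(-α)
-/

set_option autoImplicit false

open Finset
open scoped RealInnerProductSpace

namespace Pool.Agent.Helper83.AllG

open AddMonoidAlgebra (single)

variable {V : Type*} [NormedAddCommGroup V] [InnerProductSpace ℝ V]

/-- The subgroup of all x with ⟨α, x⟩ an integer. -/
def HH (α : V) : AddSubgroup V where
  carrier := {x | ∃ n : ℤ, ⟪α, x⟫ = n}
  zero_mem' := ⟨0, by simp⟩
  add_mem' := by
    rintro x y ⟨m, hm⟩ ⟨n, hn⟩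
    exact ⟨m + n, by rw [inner_add_right, hm, hn]; push_cast; ring⟩
  neg_mem' := by
    rintro x ⟨m, hm⟩
    exact ⟨-m, by rw [inner_neg_right, hm]; push_cast; ring⟩

/-- f vanishes at all points x with ⟨α, x⟩ an integer. -/
def Van (α : V) (f : AddMonoidAlgebra ℝ V) : Prop :=
  ∀ x : V, (∃ n : ℤ, ⟪α, x⟫ = n) → ev x f = 0

/-- The character of HH α given by β. -/
noncomputable def chH (α β : V) : Multiplicative (HH α) →* ℂ where
  toFun x := Complex.exp (2 * Real.pi * Complex.I * ((⟪β, (x.toAdd : V)⟫ : ℝ) : ℂ))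
  map_one' := by simp
  map_mul' a b := by
    rw [← Complex.exp_add, toAdd_mul, AddSubgroup.coe_add, inner_add_right]
    congr 1
    push_cast
    ring

theorem exp_eq_iff (s t : ℝ) : Complex.exp (2 * Real.pi * Complex.I * (s : ℂ)) =
    Complex.exp (2 * Real.pi * Complex.I * (t : ℂ)) ↔ ∃ n : ℤ, s - t = n := by
  rw [Complex.exp_eq_exp_iff_exists_int]
  have hpi : (2 * Real.pi * Complex.I : ℂ) ≠ 0 := Complex.two_pi_I_ne_zero
  constructor
  · rintro ⟨n, hn⟩
    refine ⟨n, ?_⟩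
    have h1 : (2 * Real.pi * Complex.I : ℂ) * (s : ℂ) = (2 * Real.pi * Complex.I) * ((t : ℂ) + n) := by
      rw [hn]; ring
    have h2 := mul_left_cancel₀ hpi h1
    have h3 : s = t + n := by exact_mod_cast h2
    rw [h3]; ring
  · rintro ⟨n, hn⟩
    refine ⟨n, ?_⟩
    have h3 : s = t + n := by linarith
    rw [h3]
    push_cast
    ring

theorem chH_eq {α β γ : V} (hα : α ≠ 0) (h : chH α γ = chH α β) : ∃ k : ℤ, γ = β + (k : ℝ) • α := by
  have hint : ∀ x : V, (∃ n : ℤ, ⟪α, x⟫ = n) → ∃ n : ℤ, ⟪γ - β, x⟫ = n := by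
    intro x hx
    have h1 := DFunLike.congr_fun h (Multiplicative.ofAdd (⟨x, hx⟩ : HH α))
    have h2 : Complex.exp (2 * Real.pi * Complex.I * ((⟪γ, x⟫ : ℝ) : ℂ)) =
        Complex.exp (2 * Real.pi * Complex.I * ((⟪β, x⟫ : ℝ) : ℂ)) := h1
    rw [exp_eq_iff] at h2
    obtain ⟨n, hn⟩ := h2
    exact ⟨n, by rw [inner_sub_left, hn]⟩
  set δ := γ - β with hδ
  have hαα : ⟪α, α⟫ ≠ 0 := inner_self_ne_zero.mpr hα
  set c : ℝ := ⟪δ, α⟫ / ⟪α, α⟫ with hc
  set y := δ - c • α with hy
  have hyα : ⟪α, y⟫ = 0 := by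
    rw [hy, inner_sub_right, inner_smul_right, hc, real_inner_comm]
    field_simp
    ring
  have hyy : ⟪δ, y⟫ = ⟪y, y⟫ := by
    have : δ = y + c • α := by rw [hy]; abel
    conv_lhs => rw [this]
    rw [inner_add_left, inner_smul_left, hyα]
    simp
  have hy0 : y = 0 := by
    by_contra hne
    have hpos : 0 < ⟪y, y⟫ := real_inner_self_pos.mpr hne
    obtain ⟨n, hn⟩ := hint ((1 / (2 * ⟪y, y⟫)) • y) ⟨0, by rw [inner_smul_right, hyα]; simp⟩
    rw [inner_smul_right, hyy] at hn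
    have h2 : (1 : ℝ) / 2 = n := by
      rw [← hn]; field_simp
    have h3 : (1 : ℝ) = ((2 * n : ℤ) : ℝ) := by push_cast; linarith
    have h4 : (1 : ℤ) = 2 * n := by exact_mod_cast h3
    omega
  obtain ⟨k, hk⟩ := hint ((1 / ⟪α, α⟫) • α) ⟨1, by rw [inner_smul_right]; field_simp; norm_num⟩
  have hk2 : c = k := by
    rw [← hk, inner_smul_right, hc]
    ring
  refine ⟨k, ?_⟩
  have : δ = c • α := by
    have h1 : δ - c • α = 0 := hy0
    exact sub_eq_zero.mp h1
  rw [← hk2, ← this, hδ]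
  abel

theorem exists_other {α : V} (hα : α ≠ 0) {f : AddMonoidAlgebra ℝ V} (hf : Van α f) {β : V}
    (hβ : f.coeff β ≠ 0) : ∃ γ, f.coeff γ ≠ 0 ∧ γ ≠ β ∧ ∃ k : ℤ, γ = β + (k : ℝ) • α := by
  classical
  set S := f.coeff.support with hS
  have hβS : β ∈ S := by rw [hS, Finsupp.mem_support_iff]; exact hβ
  have hsum : ∑ ψ ∈ S.image (chH α), (∑ γ ∈ S.filter (fun γ => chH α γ = ψ), (f.coeff γ : ℂ)) •
      (ψ : Multiplicative (HH α) → ℂ) = 0 := by
    have h1 : ∀ ψ ∈ S.image (chH α), (∑ γ ∈ S.filter (fun γ => chH α γ = ψ), (f.coeff γ : ℂ)) •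
        (ψ : Multiplicative (HH α) → ℂ) =
        ∑ γ ∈ S.filter (fun γ => chH α γ = ψ),
          (f.coeff γ : ℂ) • (chH α γ : Multiplicative (HH α) → ℂ) := by
      intro ψ _
      rw [Finset.sum_smul]
      refine Finset.sum_congr rfl fun γ hγ => ?_
      rw [(Finset.mem_filter.mp hγ).2]
    have h3 := Finset.sum_fiberwise_of_maps_to (s := S) (t := S.image (chH α)) (g := chH α)
      (fun γ hγ => Finset.mem_image_of_mem _ hγ)
      (fun γ => (f.coeff γ : ℂ) • (chH α γ : Multiplicative (HH α) → ℂ))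
    rw [Finset.sum_congr rfl h1]
    refine h3.trans ?_
    ext x
    obtain ⟨y, hy⟩ := x.toAdd
    have h2 := hf x.toAdd.1 x.toAdd.2
    rw [ev_apply] at h2
    rw [Finset.sum_apply]
    exact h2
  have hli := linearIndependent_iff'.mp (linearIndependent_monoidHom (Multiplicative (HH α)) ℂ)
    (S.image (chH α)) (fun ψ => ∑ γ ∈ S.filter (fun γ => chH α γ = ψ), (f.coeff γ : ℂ)) hsum
    (chH α β) (Finset.mem_image_of_mem _ hβS)
  by_contra hcon
  push Not at hcon
  have hfilter : S.filter (fun γ => chH α γ = chH α β) = {β} := by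
    ext γ
    rw [Finset.mem_filter, Finset.mem_singleton]
    constructor
    · rintro ⟨h1, h2⟩
      by_contra hne
      obtain ⟨k, hk⟩ := chH_eq hα h2
      exact hcon γ (Finsupp.mem_support_iff.mp h1) hne k hk
    · rintro rfl
      exact ⟨hβS, rfl⟩
  rw [hfilter, Finset.sum_singleton] at hli
  exact hβ (by exact_mod_cast hli)

theorem geom_dvd (α γ : V) (n : ℕ) :
    ∃ g : AddMonoidAlgebra ℝ V, single (γ + (n : ℝ) • α) (1 : ℝ) - single γ 1 = aa α * g := by
  induction n with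
  | zero => exact ⟨0, by simp⟩
  | succ n ih =>
    obtain ⟨g, hg⟩ := ih
    refine ⟨g + single (γ + ((n + 1 : ℕ) : ℝ) • α) 1, ?_⟩
    rw [mul_add, ← hg]
    unfold aa
    rw [sub_mul, AddMonoidAlgebra.single_mul_single, AddMonoidAlgebra.single_mul_single, zero_add,
      one_mul]
    have : -α + (γ + ((n + 1 : ℕ) : ℝ) • α) = γ + (n : ℝ) • α := by
      push_cast
      rw [add_smul, one_smul]
      abel
    rw [this]
    abel

theorem geom_dvd_int (α γ : V) (k : ℤ) :
    ∃ g : AddMonoidAlgebra ℝ V, single γ (1 : ℝ) - single (γ + (k : ℝ) • α) 1 = aa α * g := by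
  rcases Int.eq_nat_or_neg k with ⟨n, rfl | rfl⟩
  · obtain ⟨g, hg⟩ := geom_dvd α γ n
    refine ⟨-g, ?_⟩
    rw [mul_neg, ← hg]
    push_cast
    abel
  · obtain ⟨g, hg⟩ := geom_dvd α (γ + ((-(n : ℤ) : ℤ) : ℝ) • α) n
    refine ⟨g, ?_⟩
    rw [← hg]
    congr 2
    push_cast
    rw [neg_smul]
    abel

theorem ev_aa (x α : V) : ev x (aa α) = 1 - Complex.exp (2 * Real.pi * Complex.I * ((⟪-α, x⟫ : ℝ) : ℂ)) := by
  unfold aa
  rw [map_sub, ev_single, ev_single]
  simp

theorem ev_aa_eq_zero (x α : V) : ev x (aa α) = 0 ↔ ∃ n : ℤ, ⟪α, x⟫ = n := by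
  rw [ev_aa, sub_eq_zero]
  have h1 : (1 : ℂ) = Complex.exp (2 * Real.pi * Complex.I * ((0 : ℝ) : ℂ)) := by simp
  rw [h1, exp_eq_iff]
  constructor
  · rintro ⟨n, hn⟩
    exact ⟨n, by rw [inner_neg_left] at hn; linarith⟩
  · rintro ⟨n, hn⟩
    exact ⟨n, by rw [inner_neg_left]; linarith⟩

theorem Van.aa_mul (α : V) (g : AddMonoidAlgebra ℝ V) : Van α (aa α * g) := by
  intro x hx
  rw [map_mul, (ev_aa_eq_zero x α).mpr hx, zero_mul]

theorem Van.sub {α : V} {f g : AddMonoidAlgebra ℝ V} (hf : Van α f) (hg : Van α g) : Van α (f - g) := by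
  intro x hx
  rw [map_sub, hf x hx, hg x hx, sub_zero]

/-- Lemma D. -/
theorem exists_div {α : V} (hα : α ≠ 0) {f : AddMonoidAlgebra ℝ V} (hf : Van α f) :
    ∃ g, f = aa α * g := by
  classical
  obtain ⟨n, hn⟩ : ∃ n : ℕ, f.coeff.support.card ≤ n := ⟨_, le_rfl⟩
  induction n generalizing f with
  | zero =>
    have h0 : f.coeff.support = ∅ := Finset.card_eq_zero.mp (Nat.le_zero.mp hn)
    rw [Finsupp.support_eq_empty, AddMonoidAlgebra.coeff_eq_zero] at h0
    exact ⟨0, by rw [h0, mul_zero]⟩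
  | succ n ih =>
    by_cases h0 : f = 0
    · exact ⟨0, by rw [h0, mul_zero]⟩
    · have h1 : f.coeff.support.Nonempty := by
        rw [Finset.nonempty_iff_ne_empty, Ne, Finsupp.support_eq_empty, AddMonoidAlgebra.coeff_eq_zero]
        exact h0
      obtain ⟨β, hβ⟩ := h1
      have hβ' := Finsupp.mem_support_iff.mp hβ
      obtain ⟨γ, hγ, hne, k, hk⟩ := exists_other hα hf hβ'
      obtain ⟨g₁, hg₁⟩ := geom_dvd_int α β k
      set f' := f - (f.coeff β) • (aa α * g₁) with hf'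
      have hcoef : ∀ δ, f'.coeff δ = f.coeff δ - f.coeff β *
          ((if β = δ then 1 else 0) - (if γ = δ then 1 else 0)) := by
        intro δ
        rw [hf', ← hg₁, ← hk, AddMonoidAlgebra.coeff_sub, Finsupp.sub_apply,
          AddMonoidAlgebra.coeff_smul_apply, AddMonoidAlgebra.coeff_sub, Finsupp.sub_apply,
          AddMonoidAlgebra.coeff_single, AddMonoidAlgebra.coeff_single, Finsupp.single_apply,
          Finsupp.single_apply, smul_eq_mul]
      have hsub : f'.coeff.support ⊆ f.coeff.support.erase β := by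
        intro δ hδ
        rw [Finsupp.mem_support_iff, hcoef] at hδ
        rw [Finset.mem_erase, Finsupp.mem_support_iff]
        constructor
        · rintro rfl
          rw [if_pos rfl, if_neg hne] at hδ
          apply hδ
          ring
        · intro h0
          by_cases h2 : γ = δ
          · rw [← h2] at h0; exact hγ h0
          · by_cases h3 : β = δ
            · rw [← h3] at h0; exact hβ' h0
            · rw [h0, if_neg h2, if_neg h3] at hδ
              apply hδ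
              ring
      have hcard : f'.coeff.support.card ≤ n := by
        have h2 := Finset.card_le_card hsub
        rw [Finset.card_erase_of_mem hβ] at h2
        omega
      have hvan : Van α f' := by
        refine hf.sub ?_
        intro x hx
        rw [map_smul, Van.aa_mul α g₁ x hx, smul_zero]
      obtain ⟨g₂, hg₂⟩ := ih hvan hcard
      refine ⟨g₂ + (f.coeff β) • g₁, ?_⟩
      rw [mul_add, ← hg₂, mul_smul_comm, hf']
      abel

/-- g (β) = ∑_{j < n} f (β + j α) + g (β + n α) if f = (1 - e(-α)) g. -/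
theorem coeff_div (α : V) (g : AddMonoidAlgebra ℝ V) (β : V) (n : ℕ) :
    g.coeff β = ∑ j ∈ range n, (aa α * g).coeff (β + (j : ℝ) • α) + g.coeff (β + (n : ℝ) • α) := by
  induction n with
  | zero => simp
  | succ n ih =>
    rw [Finset.sum_range_succ, aa_mul_coeff]
    have : β + ((n + 1 : ℕ) : ℝ) • α = β + (n : ℝ) • α + α := by
      push_cast
      rw [add_smul, one_smul]
      abel
    rw [this]
    linarith

theorem exists_coeff_div {α : V} (hα : α ≠ 0) (g : AddMonoidAlgebra ℝ V) (β : V) :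
    ∃ n : ℕ, g.coeff β = ∑ j ∈ range n, (aa α * g).coeff (β + (j : ℝ) • α) := by
  obtain ⟨n, hn⟩ := exists_coeff_eq_zero g α β hα
  refine ⟨n, ?_⟩
  rw [coeff_div α g β n, hn n le_rfl, add_zero]

theorem coeff_div_ne_zero {α : V} (hα : α ≠ 0) {g : AddMonoidAlgebra ℝ V} {β : V}
    (h : g.coeff β ≠ 0) : ∃ j : ℕ, (aa α * g).coeff (β + (j : ℝ) • α) ≠ 0 := by
  by_contra hcon
  push Not at hcon
  obtain ⟨n, hn⟩ := exists_coeff_div hα g β
  apply h
  rw [hn]
  exact Finset.sum_eq_zero fun j _ => hcon j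

/-- If (1 - e(-α)) g vanishes on the hyperplanes of β and α is not proportional to β, then so does g. -/
theorem Van.of_aa_mul {α β : V} (hβ : β ≠ 0) (hαβ : ∀ c : ℝ, α ≠ c • β) {g : AddMonoidAlgebra ℝ V}
    (h : Van β (aa α * g)) : Van β g := by
  intro x hx
  by_contra hne
  have hββ : ⟪β, β⟫ ≠ 0 := inner_self_ne_zero.mpr hβ
  set c : ℝ := ⟪α, β⟫ / ⟪β, β⟫ with hc
  set η := α - c • β with hη
  have hβη : ⟪β, η⟫ = 0 := by
    rw [hη, inner_sub_right, inner_smul_right, hc, real_inner_comm]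
    field_simp
    ring
  have hη0 : η ≠ 0 := by
    intro h0
    exact hαβ c (sub_eq_zero.mp h0)
  have hαη : ⟪α, η⟫ = ⟪η, η⟫ := by
    have : α = η + c • β := by rw [hη]; abel
    conv_lhs => rw [this]
    rw [inner_add_left, inner_smul_left, hβη]
    simp
  have hpos : 0 < ⟪η, η⟫ := real_inner_self_pos.mpr hη0
  have hcont : Continuous fun t : ℝ => ev (x + t • η) g := by
    exact (ev_continuous g).comp (by fun_prop)
  have hev : ∀ᶠ t in nhds (0 : ℝ), ev (x + t • η) g ≠ 0 := by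
    apply hcont.continuousAt.eventually_ne
    simpa using hne
  rw [Metric.eventually_nhds_iff] at hev
  obtain ⟨δ, hδ, hev⟩ := hev
  have hall : ∀ t : ℝ, |t| < δ → ∃ n : ℤ, ⟪α, x⟫ + t * ⟪η, η⟫ = n := by
    intro t ht
    have h1 := h (x + t • η) (by
      obtain ⟨n, hn⟩ := hx
      exact ⟨n, by rw [inner_add_right, inner_smul_right, hβη, hn]; ring⟩)
    rw [map_mul] at h1
    have h2 := hev (y := t) (by simpa [Real.dist_eq] using ht)
    have h3 := (mul_eq_zero.mp h1).resolve_right h2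
    rw [ev_aa_eq_zero] at h3
    obtain ⟨n, hn⟩ := h3
    exact ⟨n, by rw [← hn, inner_add_right, inner_smul_right, hαη]⟩
  obtain ⟨m, hm⟩ := hall 0 (by simpa using hδ)
  set t := min (δ / 2) (1 / (2 * ⟪η, η⟫)) with ht
  have ht0 : 0 < t := lt_min (by linarith) (by positivity)
  obtain ⟨n, hn⟩ := hall t (by
    rw [abs_of_pos ht0]
    exact lt_of_le_of_lt (min_le_left _ _) (by linarith))
  have h1 : t * ⟪η, η⟫ = ((n - m : ℤ) : ℝ) := by
    push_cast
    linarith
  have h2 : 0 < t * ⟪η, η⟫ := by positivity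
  have h3 : t * ⟪η, η⟫ ≤ 1 / 2 := by
    calc t * ⟪η, η⟫ ≤ 1 / (2 * ⟪η, η⟫) * ⟪η, η⟫ :=
          mul_le_mul_of_nonneg_right (min_le_right _ _) hpos.le
      _ = 1 / 2 := by field_simp
  rw [h1] at h2 h3
  have h4 : (0 : ℤ) < n - m := by exact_mod_cast h2
  have h5 : (1 : ℝ) ≤ ((n - m : ℤ) : ℝ) := by exact_mod_cast h4
  linarith

end Pool.Agent.Helper83.AllG
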