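import Mathlib
import Pool.Agent.Helper83.AllG.Div
import Pool.Agent.Helper83.AllG.Defs

/-!
# Root systems in a Euclidean space, their reflection groups and positive systems
-/

set_option autoImplicit false

open Finset
open scoped RealInnerProductSpace

namespace Pool.Agent.Helper83.AllG

open AddMonoidAlgebra (single)

variable {V : Type*} [NormedAddCommGroup V] [InnerProductSpace ℝ V] [FiniteDimensional ℝ V]

theorem sr_apply (α x : V) : sr α x = x - (2 * ⟪x, α⟫ / ⟪α, α⟫) • α := by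
  unfold sr
  rw [Submodule.reflection_orthogonal_apply, Submodule.reflection_singleton_apply]
  rw [real_inner_self_eq_norm_sq, real_inner_comm]
  simp only [RCLike.ofReal_real_eq_id, id_eq]
  rw [two_smul, neg_sub, ← add_smul]
  congr 2
  ring

theorem sr_sr (α x : V) : sr α (sr α x) = x := Submodule.reflection_reflection _ _

theorem sr_self (α : V) (hα : α ≠ 0) : sr α α = -α := by
  rw [sr_apply, mul_div_assoc, div_self (inner_self_ne_zero.mpr hα), mul_one, two_smul]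
  abel

theorem inner_sr (α x y : V) : ⟪sr α x, y⟫ = ⟪x, sr α y⟫ := by
  rw [sr_apply, sr_apply, inner_sub_left, inner_sub_right, inner_smul_left, inner_smul_right]
  simp only [RCLike.conj_to_real]
  rw [real_inner_comm y α]
  ring

theorem inner_sr_self (α x : V) (hα : α ≠ 0) : ⟪sr α x, α⟫ = -⟪x, α⟫ := by
  rw [inner_sr, sr_self α hα, inner_neg_right]

theorem sgn_sr (α : V) (hα : α ≠ 0) : sgn (sr α) = -1 := by
  have h := Submodule.det_reflection (K := (Submodule.span ℝ {α})ᗮ)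
  have h2 : Module.finrank ℝ (Submodule.span ℝ {α})ᗮᗮ = 1 := by
    rw [Submodule.orthogonal_orthogonal]
    exact finrank_span_singleton hα
  rw [h2, pow_one] at h
  exact h

theorem mem_Wt {Ψ : Finset V} {x : V} :
    x ∈ Wt Ψ ↔ ∀ α ∈ Ψ, ∃ n : ℤ, 2 * ⟪x, α⟫ = n * ⟪α, α⟫ := Iff.rfl

section basic

variable {Ψ : Finset V} (h : RS Ψ)

include h

theorem RS.ne_zero {α : V} (hα : α ∈ Ψ) : α ≠ 0 := fun h0 => h.zero (h0 ▸ hα)

theorem RS.neg_mem {α : V} (hα : α ∈ Ψ) : -α ∈ Ψ := by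
  rw [← sr_self α (h.ne_zero hα)]
  exact h.refl α hα α hα

theorem RS.mem_Wt {β : V} (hβ : β ∈ Ψ) : β ∈ Wt Ψ := fun α hα => h.int α hα β hβ

theorem sr_mem_weyl {α : V} (hα : α ∈ Ψ) : sr α ∈ weyl Ψ :=
  Subgroup.subset_closure ⟨α, hα, rfl⟩

theorem RS.weyl_mem {w : V ≃ₗᵢ[ℝ] V} (hw : w ∈ weyl Ψ) : ∀ β ∈ Ψ, w β ∈ Ψ := by
  induction hw using Subgroup.closure_induction with
  | mem x hx =>
    obtain ⟨α, hα, rfl⟩ := hx
    exact h.refl α hα
  | one => intro β hβ; exact hβ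
  | mul x y _ _ hx hy => intro β hβ; exact hx _ (hy _ hβ)
  | inv x _ hx =>
    intro β hβ
    have h1 : Set.MapsTo x (Ψ : Set V) (Ψ : Set V) := hx
    have h2 : Set.SurjOn x (Ψ : Set V) (Ψ : Set V) :=
      Finset.surjOn_of_injOn_of_card_le x hx (x.injective.injOn) le_rfl
    obtain ⟨γ, hγ, hγ2⟩ := h2 hβ
    rw [← hγ2]
    have : x⁻¹ (x γ) = γ := x.symm_apply_apply γ
    rw [this]
    exact hγ

theorem RS.sgn_sq {w : V ≃ₗᵢ[ℝ] V} (hw : w ∈ weyl Ψ) : sgn w = 1 ∨ sgn w = -1 := by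
  induction hw using Subgroup.closure_induction with
  | mem x hx =>
    obtain ⟨α, hα, rfl⟩ := hx
    exact Or.inr (sgn_sr α (h.ne_zero hα))
  | one => left; exact map_one sgn
  | mul x y _ _ hx hy =>
    rw [map_mul]
    rcases hx with hx | hx <;> rcases hy with hy | hy <;> rw [hx, hy] <;> norm_num
  | inv x _ hx =>
    have h1 : sgn x⁻¹ * sgn x = 1 := by rw [← map_mul, inv_mul_cancel, map_one]
    rcases hx with hx | hx <;> rw [hx] at h1
    · left; linarith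
    · right; linarith

theorem RS.sgn_mul_self {w : V ≃ₗᵢ[ℝ] V} (hw : w ∈ weyl Ψ) : sgn w * sgn w = 1 := by
  rcases h.sgn_sq hw with h1 | h1 <;> rw [h1] <;> norm_num

theorem RS.weyl_Wt {w : V ≃ₗᵢ[ℝ] V} (hw : w ∈ weyl Ψ) {μ : V} (hμ : μ ∈ Wt Ψ) : w μ ∈ Wt Ψ := by
  intro α hα
  have h1 : w⁻¹ α ∈ Ψ := h.weyl_mem (Subgroup.inv_mem _ hw) α hα
  obtain ⟨n, hn⟩ := hμ _ h1
  have h2 : w (w⁻¹ α) = α := w.apply_symm_apply α
  have e1 : ⟪w μ, α⟫ = ⟪μ, w⁻¹ α⟫ := by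
    conv_lhs => rw [← h2, w.inner_map_map]
  have e2 : ⟪α, α⟫ = ⟪w⁻¹ α, w⁻¹ α⟫ := by
    conv_lhs => rw [← h2, w.inner_map_map]
  refine ⟨n, ?_⟩
  rw [e1, e2]
  exact hn

end basic

theorem mem_pos {Ψ : Finset V} {v α : V} : α ∈ pos Ψ v ↔ α ∈ Ψ ∧ 0 < ⟪α, v⟫ := by
  unfold pos
  simp

/-- The positive roots which the reflection in α makes negative. -/
noncomputable def inv (Ψ : Finset V) (v α : V) : Finset V := by
  classical
  exact (pos Ψ v).filter fun β => ⟪sr α β, v⟫ < 0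

theorem mem_inv {Ψ : Finset V} {v α β : V} : β ∈ inv Ψ v α ↔ β ∈ pos Ψ v ∧ ⟪sr α β, v⟫ < 0 := by
  unfold inv
  simp

section posit

variable {Ψ : Finset V} (h : RS Ψ) {v : V} (hv : ∀ α ∈ Ψ, ⟪α, v⟫ ≠ 0)

include h

theorem inv_invol {α β : V} (hα : α ∈ Ψ) (hβ : β ∈ inv Ψ v α) : -sr α β ∈ inv Ψ v α := by
  rw [mem_inv, mem_pos] at hβ ⊢
  refine ⟨⟨h.neg_mem (h.refl α hα β hβ.1.1), ?_⟩, ?_⟩
  · rw [inner_neg_left]; linarith [hβ.2]
  · rw [map_neg, sr_sr, inner_neg_left]; linarith [hβ.1.2]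

include hv

theorem not_inv {α β : V} (hα : α ∈ Ψ) (hβ : β ∈ pos Ψ v) (hβ2 : β ∉ inv Ψ v α) :
    sr α β ∈ pos Ψ v ∧ sr α β ∉ inv Ψ v α := by
  classical
  have h1 : sr α β ∈ Ψ := h.refl α hα β (mem_pos.mp hβ).1
  have h2 : ¬ ⟪sr α β, v⟫ < 0 := fun h2 => hβ2 (mem_inv.mpr ⟨hβ, h2⟩)
  have h3 : sr α β ∈ pos Ψ v := mem_pos.mpr ⟨h1, lt_of_le_of_ne (not_lt.mp h2) (hv _ h1).symm⟩
  refine ⟨h3, fun h4 => ?_⟩
  have h5 := (mem_inv.mp h4).2
  rw [sr_sr] at h5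
  linarith [(mem_pos.mp hβ).2]

theorem prod_inv {M : Type*} [CommRing M] (d : V → M) (hd : ∀ β, d (-β) = -d β) {α : V} (hα : α ∈ Ψ) :
    ∏ β ∈ pos Ψ v, d (sr α β) = (-1) ^ (inv Ψ v α).card * ∏ β ∈ pos Ψ v, d β := by
  classical
  have hsplit : ∀ f : V → M, ∏ β ∈ pos Ψ v, f β =
      (∏ β ∈ inv Ψ v α, f β) * ∏ β ∈ pos Ψ v \ inv Ψ v α, f β := by
    intro f
    have hsub : inv Ψ v α ⊆ pos Ψ v := fun β hβ => (mem_inv.mp hβ).1
    rw [mul_comm, Finset.prod_sdiff hsub]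
  rw [hsplit, hsplit]
  have h1 : ∏ β ∈ pos Ψ v \ inv Ψ v α, d (sr α β) = ∏ β ∈ pos Ψ v \ inv Ψ v α, d β := by
    refine Finset.prod_nbij' (fun β => sr α β) (fun β => sr α β) ?_ ?_ ?_ ?_ ?_
    · intro β hβ
      rw [Finset.mem_sdiff] at hβ ⊢
      exact not_inv h hv hα hβ.1 hβ.2
    · intro β hβ
      rw [Finset.mem_sdiff] at hβ ⊢
      exact not_inv h hv hα hβ.1 hβ.2
    · intro β _; exact sr_sr α β
    · intro β _; exact sr_sr α β
    · intro β _; rfl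
  have h2 : ∏ β ∈ inv Ψ v α, d (sr α β) = (-1) ^ (inv Ψ v α).card * ∏ β ∈ inv Ψ v α, d β := by
    have h3 : ∏ β ∈ inv Ψ v α, d (sr α β) = ∏ β ∈ inv Ψ v α, (-1) * d (-sr α β) := by
      refine Finset.prod_congr rfl fun β _ => ?_
      rw [hd]; ring
    rw [h3, Finset.prod_mul_distrib, Finset.prod_const]
    congr 1
    refine Finset.prod_nbij' (fun β => -sr α β) (fun β => -sr α β) ?_ ?_ ?_ ?_ ?_
    · intro β hβ; exact inv_invol h hα hβ
    · intro β hβ; exact inv_invol h hα hβ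
    · intro β _; simp [sr_sr]
    · intro β _; simp [sr_sr]
    · intro β _; rfl
  rw [h1, h2]
  ring

omit hv in
theorem self_mem_inv {α : V} (hα : α ∈ pos Ψ v) : α ∈ inv Ψ v α := by
  rw [mem_inv]
  refine ⟨hα, ?_⟩
  rw [sr_self α (h.ne_zero (mem_pos.mp hα).1), inner_neg_left]
  linarith [(mem_pos.mp hα).2]

omit hv in
theorem inv_fixed {α β : V} (hα : α ∈ pos Ψ v) (hβ : β ∈ inv Ψ v α) (hfix : -sr α β = β) : β = α := by
  have hα' := mem_pos.mp hα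
  have hβ' := mem_inv.mp hβ
  have hβ'' := mem_pos.mp hβ'.1
  rw [sr_apply] at hfix
  have h1 : β = (⟪β, α⟫ / ⟪α, α⟫) • α := by
    have h2 : (2 : ℝ) • β = (2 * ⟪β, α⟫ / ⟪α, α⟫) • α := by
      rw [two_smul]
      nth_rw 1 [← hfix]
      abel
    have h3 : (2 : ℝ) • β = (2 : ℝ) • ((⟪β, α⟫ / ⟪α, α⟫) • α) := by
      rw [h2, smul_smul]
      congr 1
      ring
    exact smul_right_injective V (two_ne_zero' ℝ) h3
  have h5 := h.red α hα'.1 (⟪β, α⟫ / ⟪α, α⟫) (h1 ▸ hβ''.1)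
  rcases h5 with h5 | h5
  · rw [h5, one_smul] at h1; exact h1
  · rw [h5] at h1
    have h6 := hβ''.2
    rw [h1, inner_smul_left] at h6
    simp only [RCLike.conj_to_real] at h6
    linarith [hα'.2]

theorem inv_card_odd {α : V} (hα : α ∈ pos Ψ v) : (-1 : ℤ) ^ (inv Ψ v α).card = -1 := by
  classical
  have hα' := mem_pos.mp hα
  have h1 : ∑ _β ∈ (inv Ψ v α).erase α, (1 : ZMod 2) = 0 := by
    refine Finset.sum_involution (fun β _ => -sr α β) ?_ ?_ ?_ ?_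
    · intro β _; rfl
    · intro β hβ _
      rw [Finset.mem_erase] at hβ
      intro hfix
      exact hβ.1 (inv_fixed h hα hβ.2 hfix)
    · intro β hβ
      rw [Finset.mem_erase] at hβ ⊢
      refine ⟨?_, inv_invol h hα'.1 hβ.2⟩
      intro h2
      apply hβ.1
      have h3 : sr α β = -α := neg_eq_iff_eq_neg.mp h2
      have h4 : β = sr α (-α) := by rw [← h3, sr_sr]
      rw [h4, map_neg, sr_self α (h.ne_zero hα'.1), neg_neg]
    · intro β _; simp [sr_sr]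
  rw [Finset.sum_const, nsmul_eq_mul, mul_one, Finset.card_erase_of_mem (self_mem_inv h hα)] at h1
  rw [ZMod.natCast_eq_zero_iff] at h1
  have h2 : 1 ≤ (inv Ψ v α).card := Finset.card_pos.mpr ⟨α, self_mem_inv h hα⟩
  have h3 : Odd (inv Ψ v α).card := by
    obtain ⟨k, hk⟩ := h1
    exact ⟨k, by omega⟩
  exact h3.neg_one_pow

theorem rho_inner {α : V} (hα : α ∈ Ψ) : 2 * ⟪rho Ψ v, α⟫ = ∑ β ∈ inv Ψ v α, ⟪β, α⟫ := by
  classical
  have hsub : inv Ψ v α ⊆ pos Ψ v := fun β hβ => (mem_inv.mp hβ).1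
  have h0 : ∑ β ∈ pos Ψ v \ inv Ψ v α, ⟪β, α⟫ = 0 := by
    have h1 : ∑ β ∈ pos Ψ v \ inv Ψ v α, ⟪β, α⟫ = ∑ β ∈ pos Ψ v \ inv Ψ v α, -⟪β, α⟫ := by
      refine Finset.sum_nbij' (fun β => sr α β) (fun β => sr α β) ?_ ?_ ?_ ?_ ?_
      · intro β hβ
        rw [Finset.mem_sdiff] at hβ ⊢
        exact not_inv h hv hα hβ.1 hβ.2
      · intro β hβ
        rw [Finset.mem_sdiff] at hβ ⊢
        exact not_inv h hv hα hβ.1 hβ.2
      · intro β _; exact sr_sr α β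
      · intro β _; exact sr_sr α β
      · intro β _
        rw [inner_sr_self α β (h.ne_zero hα), neg_neg]
    rw [Finset.sum_neg_distrib] at h1
    linarith
  unfold rho
  rw [inner_smul_left, sum_inner, ← Finset.sum_sdiff hsub, h0]
  simp

theorem rho_mem_Wt : rho Ψ v ∈ Wt Ψ := by
  classical
  -- first for positive roots
  have hposi : ∀ α ∈ pos Ψ v, ∃ n : ℤ, 2 * ⟪rho Ψ v, α⟫ = n * ⟪α, α⟫ := by
    intro α hα
    have hα' := mem_pos.mp hα
    have hex : ∀ β : V, ∃ n : ℤ, β ∈ Ψ → 2 * ⟪β, α⟫ = n * ⟪α, α⟫ := by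
      intro β
      by_cases hβ : β ∈ Ψ
      · obtain ⟨n, hn⟩ := h.int α hα'.1 β hβ
        exact ⟨n, fun _ => hn⟩
      · exact ⟨0, fun h2 => absurd h2 hβ⟩
    choose n hn using hex
    have hαα : ⟪α, α⟫ ≠ 0 := inner_self_ne_zero.mpr (h.ne_zero hα'.1)
    have hinvΨ : ∀ β ∈ inv Ψ v α, β ∈ Ψ := fun β hβ => (mem_pos.mp (mem_inv.mp hβ).1).1
    have h1 : ∑ β ∈ inv Ψ v α, ((n β : ℤ) : ZMod 2) = 0 := by
      refine Finset.sum_involution (fun β _ => -sr α β) ?_ ?_ ?_ ?_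
      · intro β hβ
        have h2 : n (-sr α β) = n β := by
          have h3 := hn (-sr α β) (hinvΨ _ (inv_invol h hα'.1 hβ))
          have h4 := hn β (hinvΨ _ hβ)
          rw [inner_neg_left, inner_sr_self α β (h.ne_zero hα'.1), neg_neg, h4] at h3
          have h5 := mul_right_cancel₀ hαα h3
          exact_mod_cast h5.symm
        show ((n β : ℤ) : ZMod 2) + ((n (-sr α β) : ℤ) : ZMod 2) = 0
        rw [h2]
        exact CharTwo.add_self_eq_zero _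
      · intro β hβ hne hfix
        have h2 := inv_fixed h hα hβ hfix
        apply hne
        have h4 := hn β (hinvΨ _ hβ)
        rw [h2] at h4
        have h5 := mul_right_cancel₀ hαα h4
        have h6 : n α = 2 := by exact_mod_cast h5.symm
        rw [h2, h6]
        decide
      · intro β hβ
        exact inv_invol h hα'.1 hβ
      · intro β _; simp [sr_sr]
    have h2 : ((∑ β ∈ inv Ψ v α, n β : ℤ) : ZMod 2) = 0 := by
      rw [← h1]; push_cast; rfl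
    rw [ZMod.intCast_zmod_eq_zero_iff_dvd] at h2
    obtain ⟨k, hk⟩ := h2
    refine ⟨k, ?_⟩
    have h3 : 2 * (2 * ⟪rho Ψ v, α⟫) = 2 * (k * ⟪α, α⟫) := by
      rw [rho_inner h hv hα'.1, Finset.mul_sum]
      have h4 : ∑ β ∈ inv Ψ v α, 2 * ⟪β, α⟫ = ∑ β ∈ inv Ψ v α, (n β : ℝ) * ⟪α, α⟫ :=
        Finset.sum_congr rfl fun β hβ => hn β (hinvΨ _ hβ)
      rw [h4, ← Finset.sum_mul]
      have h5 : ∑ β ∈ inv Ψ v α, (n β : ℝ) = ((∑ β ∈ inv Ψ v α, n β : ℤ) : ℝ) := by push_cast; rfl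
      rw [h5, hk]
      push_cast
      ring
    linarith
  intro α hα
  rcases lt_or_gt_of_ne (hv α hα) with h1 | h1
  · obtain ⟨n, hn⟩ := hposi (-α) (mem_pos.mpr ⟨h.neg_mem hα, by rw [inner_neg_left]; linarith⟩)
    refine ⟨-n, ?_⟩
    rw [inner_neg_right, inner_neg_neg] at hn
    push_cast
    linarith
  · exact hposi α (mem_pos.mpr ⟨hα, h1⟩)

theorem rho_pos {α : V} (hα : α ∈ pos Ψ v) : 0 < ⟪rho Ψ v, α⟫ := by
  have hα' := mem_pos.mp hα
  have h1 := rho_inner h hv hα'.1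
  have hαα : 0 < ⟪α, α⟫ := real_inner_self_pos.mpr (h.ne_zero hα'.1)
  have h2 : 0 < ∑ β ∈ inv Ψ v α, ⟪β, α⟫ := by
    refine Finset.sum_pos ?_ ⟨α, self_mem_inv h hα⟩
    intro β hβ
    rw [mem_inv, mem_pos] at hβ
    by_contra hcon
    push Not at hcon
    have h3 := hβ.2
    rw [sr_apply, inner_sub_left, inner_smul_left] at h3
    simp only [RCLike.conj_to_real] at h3
    have h4 : 2 * ⟪β, α⟫ / ⟪α, α⟫ ≤ 0 := by
      apply div_nonpos_of_nonpos_of_nonneg _ hαα.le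
      linarith
    have h5 : 2 * ⟪β, α⟫ / ⟪α, α⟫ * ⟪α, v⟫ ≤ 0 := mul_nonpos_of_nonpos_of_nonneg h4 hα'.2.le
    linarith [hβ.1.2]
  linarith

end posit

end Pool.Agent.Helper83.AllG
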