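import Mathlib
import Pool.Agent.Helper83.AllG.Root

/-!
# Alternating sums and the denominator
-/

set_option autoImplicit false

open Finset
open scoped RealInnerProductSpace

namespace Pool.Agent.Helper83.AllG

open AddMonoidAlgebra (single)

variable {V : Type*} [NormedAddCommGroup V] [InnerProductSpace ℝ V] [FiniteDimensional ℝ V]

/-- The action of an isometry on exponential polynomials. -/
noncomputable def act (w : V ≃ₗᵢ[ℝ] V) : AddMonoidAlgebra ℝ V →ₐ[ℝ] AddMonoidAlgebra ℝ V :=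
  AddMonoidAlgebra.mapDomainAlgHom ℝ ℝ (w.toLinearEquiv.toLinearMap.toAddMonoidHom)

theorem act_single (w : V ≃ₗᵢ[ℝ] V) (β : V) (c : ℝ) : act w (single β c) = single (w β) c := by
  unfold act
  exact AddMonoidAlgebra.mapDomain_single

theorem act_coeff (w : V ≃ₗᵢ[ℝ] V) (f : AddMonoidAlgebra ℝ V) (β : V) :
    (act w f).coeff (w β) = f.coeff β := by
  induction f using AddMonoidAlgebra.induction_linear with
  | zero => simp
  | add f g hf hg =>
    rw [map_add, AddMonoidAlgebra.coeff_add, AddMonoidAlgebra.coeff_add, Finsupp.add_apply,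
      Finsupp.add_apply, hf, hg]
  | single γ c =>
    classical
    rw [act_single, AddMonoidAlgebra.coeff_single, AddMonoidAlgebra.coeff_single, Finsupp.single_apply,
      Finsupp.single_apply]
    simp

theorem act_sr_coeff (α : V) (f : AddMonoidAlgebra ℝ V) (β : V) :
    (act (sr α) f).coeff β = f.coeff (sr α β) := by
  conv_lhs => rw [← sr_sr α β]
  rw [act_coeff]

theorem act_mul (a b : V ≃ₗᵢ[ℝ] V) (f : AddMonoidAlgebra ℝ V) : act (a * b) f = act a (act b f) := by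
  induction f using AddMonoidAlgebra.induction_linear with
  | zero => simp
  | add f g hf hg => rw [map_add, map_add, map_add, hf, hg]
  | single γ c => rw [act_single, act_single, act_single]; rfl

theorem act_one (f : AddMonoidAlgebra ℝ V) : act 1 f = f := by
  induction f using AddMonoidAlgebra.induction_linear with
  | zero => simp
  | add f g hf hg => rw [map_add, hf, hg]
  | single γ c => rw [act_single]; rfl

theorem ev_act_sr (α x : V) (f : AddMonoidAlgebra ℝ V) : ev x (act (sr α) f) = ev (sr α x) f := by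
  induction f using AddMonoidAlgebra.induction_linear with
  | zero => simp
  | add f g hf hg => rw [map_add, map_add, map_add, hf, hg]
  | single γ c => rw [act_single, ev_single, ev_single, inner_sr]

theorem sr_neg (α : V) : sr (-α) = sr α := by
  ext x
  rw [sr_apply, sr_apply, inner_neg_right, inner_neg_neg, smul_neg, ← neg_smul]
  congr 2
  ring

/-- e(β/2) - e(-β/2). -/
noncomputable def dd (β : V) : AddMonoidAlgebra ℝ V :=
  single ((1 / 2 : ℝ) • β) 1 - single ((1 / 2 : ℝ) • (-β)) 1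

theorem dd_neg (β : V) : dd (-β) = -dd β := by
  unfold dd
  rw [neg_neg]
  abel

theorem act_dd (w : V ≃ₗᵢ[ℝ] V) (β : V) : act w (dd β) = dd (w β) := by
  unfold dd
  rw [map_sub, act_single, act_single, map_smul, map_smul, map_neg]

theorem dd_eq (β : V) : dd β = single ((1 / 2 : ℝ) • β) 1 * aa β := by
  unfold dd aa
  rw [mul_sub, AddMonoidAlgebra.single_mul_single, AddMonoidAlgebra.single_mul_single, add_zero,
    one_mul]
  congr 2
  have : (1 / 2 : ℝ) • β + -β = (1 / 2 : ℝ) • β - ((1 / 2 : ℝ) • β + (1 / 2 : ℝ) • β) := by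
    rw [← add_smul]
    norm_num
    abel
  rw [this, smul_neg]
  abel

theorem ev_dd (x β : V) : ev x (dd β) = 2 * Complex.I * Complex.sin (Real.pi * ((⟪β, x⟫ : ℝ) : ℂ)) := by
  unfold dd
  rw [map_sub, ev_single, ev_single, inner_smul_left, inner_smul_left, inner_neg_left]
  simp only [RCLike.conj_to_real]
  rw [Complex.sin]
  have e1 : 2 * (Real.pi : ℂ) * Complex.I * ((1 / 2 * ⟪β, x⟫ : ℝ) : ℂ) =
      Real.pi * ((⟪β, x⟫ : ℝ) : ℂ) * Complex.I := by push_cast; ring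
  have e2 : 2 * (Real.pi : ℂ) * Complex.I * ((1 / 2 * -⟪β, x⟫ : ℝ) : ℂ) =
      -(Real.pi * ((⟪β, x⟫ : ℝ) : ℂ)) * Complex.I := by push_cast; ring
  rw [e1, e2, Complex.ofReal_one]
  have : Complex.I * Complex.I = -1 := Complex.I_mul_I
  linear_combination (Complex.exp (-(Real.pi * ((⟪β, x⟫ : ℝ) : ℂ)) * Complex.I) -
    Complex.exp (Real.pi * ((⟪β, x⟫ : ℝ) : ℂ) * Complex.I)) * this * (-1)

/-- The denominator. -/
noncomputable def Del (Ψ : Finset V) (v : V) : AddMonoidAlgebra ℝ V := ∏ β ∈ pos Ψ v, dd β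

theorem Del_eq (Ψ : Finset V) (v : V) : Del Ψ v = single (rho Ψ v) 1 * ∏ β ∈ pos Ψ v, aa β := by
  unfold Del rho
  rw [Finset.prod_congr rfl fun β _ => dd_eq β, Finset.prod_mul_distrib]
  congr 1
  rw [AddMonoidAlgebra.prod_single, Finset.smul_sum]
  simp

theorem norm_ev_Del (Ψ : Finset V) (v x : V) :
    ‖ev x (Del Ψ v)‖ = ∏ β ∈ pos Ψ v, |2 * Real.sin (Real.pi * ⟪β, x⟫)| := by
  unfold Del
  rw [map_prod, norm_prod]
  refine Finset.prod_congr rfl fun β _ => ?_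
  rw [ev_dd, norm_mul, norm_mul, Complex.norm_I, mul_one]
  rw [← Complex.ofReal_mul, ← Complex.ofReal_sin, Complex.norm_real, abs_mul, Real.norm_eq_abs]
  simp

section delta

variable {Ψ : Finset V} (h : RS Ψ) {v : V} (hv : ∀ α ∈ Ψ, ⟪α, v⟫ ≠ 0)

theorem single_mul_cancel (ρ : V) (f g : AddMonoidAlgebra ℝ V)
    (hfg : single ρ (1 : ℝ) * f = single ρ 1 * g) : f = g := by
  have : ∀ f : AddMonoidAlgebra ℝ V, single (-ρ) (1 : ℝ) * (single ρ 1 * f) = f := by
    intro f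
    rw [← mul_assoc, AddMonoidAlgebra.single_mul_single]
    simp [← AddMonoidAlgebra.one_def]
  rw [← this f, hfg, this]

include h

theorem Del_cancel (f g : AddMonoidAlgebra ℝ V) (hfg : Del Ψ v * f = Del Ψ v * g) : f = g := by
  rw [Del_eq, mul_assoc, mul_assoc] at hfg
  refine prod_aa_mul_left_cancel (pos Ψ v) ?_ _ _ (single_mul_cancel _ _ _ hfg)
  intro α hα
  exact h.ne_zero (mem_pos.mp hα).1

theorem Del_ne_zero : Del Ψ v ≠ 0 := by
  intro h0
  have := Del_cancel h (v := v) (1 : AddMonoidAlgebra ℝ V) 0 (by rw [h0]; simp)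
  exact one_ne_zero this

include hv

theorem act_sr_Del {α : V} (hα : α ∈ Ψ) : act (sr α) (Del Ψ v) = -Del Ψ v := by
  have hposi : ∀ α ∈ pos Ψ v, act (sr α) (Del Ψ v) = -Del Ψ v := by
    intro α hα
    unfold Del
    rw [map_prod, Finset.prod_congr rfl fun β _ => act_dd (sr α) β,
      prod_inv h hv dd dd_neg (mem_pos.mp hα).1]
    have h1 := inv_card_odd h hv hα
    have h2 : (-1 : AddMonoidAlgebra ℝ V) ^ (inv Ψ v α).card = -1 := by
      have := congrArg (fun n : ℤ => (n : AddMonoidAlgebra ℝ V)) h1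
      push_cast at this
      exact this
    rw [h2]
    ring
  rcases lt_or_gt_of_ne (hv α hα) with h1 | h1
  · rw [← sr_neg α]
    exact hposi (-α) (mem_pos.mpr ⟨h.neg_mem hα, by rw [inner_neg_left]; linarith⟩)
  · exact hposi α (mem_pos.mpr ⟨hα, h1⟩)

theorem act_weyl_Del {w : V ≃ₗᵢ[ℝ] V} (hw : w ∈ weyl Ψ) : act w (Del Ψ v) = sgn w • Del Ψ v := by
  induction hw using Subgroup.closure_induction with
  | mem x hx =>
    obtain ⟨α, hα, rfl⟩ := hx
    rw [act_sr_Del h hv hα, sgn_sr α (h.ne_zero hα), neg_one_smul]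
  | one => rw [act_one, map_one, one_smul]
  | mul x y _ _ hx hy =>
    rw [act_mul, hy, map_smul, hx, smul_smul, map_mul, mul_comm]
  | inv x hx0 hx =>
    have h1 : sgn x * sgn x = 1 := h.sgn_mul_self hx0
    have h2 : sgn x⁻¹ * sgn x = 1 := by rw [← map_mul, inv_mul_cancel, map_one]
    have h3 : sgn x⁻¹ = sgn x := by
      have : sgn x ≠ 0 := right_ne_zero_of_mul_eq_one h2
      exact mul_right_cancel₀ this (h2.trans h1.symm)
    have h4 : act x⁻¹ (act x (Del Ψ v)) = Del Ψ v := by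
      rw [← act_mul, inv_mul_cancel, act_one]
    rw [hx, map_smul] at h4
    rw [h3]
    calc act x⁻¹ (Del Ψ v) = (sgn x * sgn x) • act x⁻¹ (Del Ψ v) := by rw [h1, one_smul]
      _ = sgn x • (sgn x • act x⁻¹ (Del Ψ v)) := by rw [smul_smul]
      _ = sgn x • Del Ψ v := by rw [h4]

/-- An element of the group which preserves the positive system has determinant 1. -/
theorem sgn_eq_one {w : V ≃ₗᵢ[ℝ] V} (hw : w ∈ weyl Ψ) (hpos : ∀ α ∈ pos Ψ v, w α ∈ pos Ψ v) :
    sgn w = 1 := by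
  classical
  have h1 := act_weyl_Del h hv hw
  have h2 : act w (Del Ψ v) = Del Ψ v := by
    unfold Del
    rw [map_prod, Finset.prod_congr rfl fun β _ => act_dd w β]
    have himg : (pos Ψ v).image w = pos Ψ v := by
      apply Finset.eq_of_subset_of_card_le
      · intro β hβ
        obtain ⟨γ, hγ, rfl⟩ := Finset.mem_image.mp hβ
        exact hpos γ hγ
      · rw [Finset.card_image_of_injective _ w.injective]
    conv_rhs => rw [← himg]
    rw [Finset.prod_image (fun a _ b _ hab => w.injective hab)]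
  rw [h2] at h1
  have h3 : (sgn w - 1) • Del Ψ v = 0 := by
    rw [sub_smul, one_smul, ← h1, sub_self]
  rcases smul_eq_zero.mp h3 with h4 | h4
  · linarith
  · exact absurd h4 (Del_ne_zero h)

end delta

/-- The alternating sum of μ. -/
noncomputable def alt (Ψ : Finset V) [Fintype (weyl Ψ)] (μ : V) : AddMonoidAlgebra ℝ V :=
  ∑ w : weyl Ψ, single ((w : V ≃ₗᵢ[ℝ] V) μ) (sgn (w : V ≃ₗᵢ[ℝ] V))

section altern

variable {Ψ : Finset V} [Fintype (weyl Ψ)]

theorem alt_coeff [DecidableEq V] (μ β : V) : (alt Ψ μ).coeff β =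
    ∑ w : weyl Ψ, if (w : V ≃ₗᵢ[ℝ] V) μ = β then sgn (w : V ≃ₗᵢ[ℝ] V) else 0 := by
  unfold alt
  rw [AddMonoidAlgebra.coeff_sum, Finsupp.finsetSum_apply]
  refine Finset.sum_congr rfl fun w _ => ?_
  rw [AddMonoidAlgebra.coeff_single, Finsupp.single_apply]

theorem alt_coeff_ne_zero {μ β : V} (hβ : (alt Ψ μ).coeff β ≠ 0) :
    ∃ w ∈ weyl Ψ, w μ = β := by
  classical
  rw [alt_coeff] at hβ
  obtain ⟨w, _, hw⟩ := Finset.exists_ne_zero_of_sum_ne_zero hβ
  refine ⟨w, w.2, ?_⟩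
  by_contra hcon
  rw [if_neg hcon] at hw
  exact hw rfl

theorem ev_alt (x μ : V) : ev x (alt Ψ μ) =
    ∑ w : weyl Ψ, (sgn (w : V ≃ₗᵢ[ℝ] V) : ℂ) *
      Complex.exp (2 * Real.pi * Complex.I * ((⟪(w : V ≃ₗᵢ[ℝ] V) μ, x⟫ : ℝ) : ℂ)) := by
  unfold alt
  rw [map_sum]
  exact Finset.sum_congr rfl fun w _ => ev_single _ _ _

theorem sgn_inv_eq (h : RS Ψ) {w : V ≃ₗᵢ[ℝ] V} (hw : w ∈ weyl Ψ) : sgn w⁻¹ = sgn w := by
  have h1 : sgn w * sgn w = 1 := h.sgn_mul_self hw
  have h2 : sgn w⁻¹ * sgn w = 1 := by rw [← map_mul, inv_mul_cancel, map_one]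
  have : sgn w ≠ 0 := right_ne_zero_of_mul_eq_one h2
  exact mul_right_cancel₀ this (h2.trans h1.symm)

/-- Symmetry of the kernel. -/
theorem ev_alt_symm (h : RS Ψ) (x μ : V) (t : ℝ) : ev (t • x) (alt Ψ μ) = ev (t • μ) (alt Ψ x) := by
  rw [ev_alt, ev_alt]
  refine Fintype.sum_equiv (Equiv.inv (weyl Ψ)) _ _ fun w => ?_
  have h1 : sgn (((Equiv.inv (weyl Ψ)) w : weyl Ψ) : V ≃ₗᵢ[ℝ] V) = sgn (w : V ≃ₗᵢ[ℝ] V) := by
    simp only [Equiv.inv_apply, Subgroup.coe_inv]
    exact sgn_inv_eq h w.2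
  rw [h1]
  congr 4
  simp only [Equiv.inv_apply, Subgroup.coe_inv]
  rw [inner_smul_right, inner_smul_right]
  congr 1
  have h2 : (w : V ≃ₗᵢ[ℝ] V) (((w : V ≃ₗᵢ[ℝ] V)⁻¹) x) = x := (w : V ≃ₗᵢ[ℝ] V).apply_symm_apply x
  conv_lhs => rw [← h2, (w : V ≃ₗᵢ[ℝ] V).inner_map_map]
  exact real_inner_comm _ _

theorem act_sr_alt (h : RS Ψ) {α : V} (hα : α ∈ Ψ) (μ : V) : act (sr α) (alt Ψ μ) = -alt Ψ μ := by
  unfold alt
  rw [map_sum, ← Finset.sum_neg_distrib]
  refine Fintype.sum_equiv (Equiv.mulLeft (⟨sr α, sr_mem_weyl h hα⟩ : weyl Ψ)) _ _ fun w => ?_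
  rw [act_single]
  simp only [Equiv.coe_mulLeft, Subgroup.coe_mul]
  rw [map_mul, sgn_sr α (h.ne_zero hα), ← AddMonoidAlgebra.single_neg]
  simp

theorem alt_sr (h : RS Ψ) {α : V} (hα : α ∈ Ψ) (μ : V) : alt Ψ (sr α μ) = -alt Ψ μ := by
  unfold alt
  rw [← Finset.sum_neg_distrib]
  refine Fintype.sum_equiv (Equiv.mulRight (⟨sr α, sr_mem_weyl h hα⟩ : weyl Ψ)) _ _ fun w => ?_
  simp only [Equiv.coe_mulRight, Subgroup.coe_mul]
  rw [map_mul, sgn_sr α (h.ne_zero hα), ← AddMonoidAlgebra.single_neg]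
  simp

theorem alt_singular (h : RS Ψ) {α : V} (hα : α ∈ Ψ) {μ : V} (hμ : ⟪μ, α⟫ = 0) : alt Ψ μ = 0 := by
  have h1 := alt_sr h hα μ
  have h2 : sr α μ = μ := by rw [sr_apply, hμ]; simp
  rw [h2] at h1
  have h3 : (2 : ℝ) • alt Ψ μ = 0 := by
    rw [two_smul]
    nth_rw 1 [h1]
    abel
  exact (smul_eq_zero.mp h3).resolve_left two_ne_zero

/-- An exponential polynomial with integral exponents which is odd under a reflection vanishes on the
hyperplanes. -/
theorem van_of_odd {α : V} (hα : α ∈ Ψ) (h : RS Ψ) {f : AddMonoidAlgebra ℝ V}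
    (hf : act (sr α) f = -f) (hint : ∀ β, f.coeff β ≠ 0 → β ∈ Wt Ψ) : Van α f := by
  intro x hx
  obtain ⟨n, hn⟩ := hx
  have h1 : ev (sr α x) f = ev x f := by
    rw [ev_apply, ev_apply]
    refine Finset.sum_congr rfl fun β hβ => ?_
    congr 1
    obtain ⟨k, hk⟩ := hint β (Finsupp.mem_support_iff.mp hβ) α hα
    rw [exp_eq_iff]
    refine ⟨-(n * k), ?_⟩
    have hαα : ⟪α, α⟫ ≠ 0 := inner_self_ne_zero.mpr (h.ne_zero hα)
    have hn' : ⟪x, α⟫ = n := by rw [real_inner_comm]; exact hn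
    rw [sr_apply, inner_sub_right, inner_smul_right, hn']
    push_cast
    have : 2 * (n : ℝ) / ⟪α, α⟫ * ⟪β, α⟫ = n * k := by
      rw [show 2 * (n : ℝ) / ⟪α, α⟫ * ⟪β, α⟫ = n * (2 * ⟪β, α⟫) / ⟪α, α⟫ by ring, hk]
      field_simp
    linarith
  have h2 := ev_act_sr α x f
  rw [hf, map_neg, h1] at h2
  have h3 : (2 : ℂ) * ev x f = 0 := by linear_combination -h2
  exact (mul_eq_zero.mp h3).resolve_left two_ne_zero

theorem alt_int (h : RS Ψ) {μ : V} (hμ : μ ∈ Wt Ψ) {β : V} (hβ : (alt Ψ μ).coeff β ≠ 0) :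
    β ∈ Wt Ψ := by
  obtain ⟨w, hw, rfl⟩ := alt_coeff_ne_zero hβ
  exact h.weyl_Wt hw hμ

theorem alt_lev (μ v' : V) : Lev v' (‖μ‖ * ‖v'‖) (alt Ψ μ) := by
  intro β hβ
  obtain ⟨w, hw, rfl⟩ := alt_coeff_ne_zero hβ
  have := real_inner_le_norm (w μ) v'
  rwa [w.norm_map] at this

end altern

end Pool.Agent.Helper83.AllG
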