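import Mathlib
import Pool.Agent.Helper83.AllG.Weyl

/-!
# The quotient of an alternating sum by the denominator
-/

set_option autoImplicit false

open Finset
open scoped RealInnerProductSpace

namespace Pool.Agent.Helper83.AllG

open AddMonoidAlgebra (single)

variable {V : Type*} [NormedAddCommGroup V] [InnerProductSpace ℝ V] [FiniteDimensional ℝ V]

variable {Ψ : Finset V} (h : RS Ψ) {v : V} (hv : ∀ α ∈ Ψ, ⟪α, v⟫ ≠ 0) [Fintype (weyl Ψ)]

include h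

theorem exists_quot {μ : V} (hμ : μ ∈ Wt Ψ) (S : Finset V) (hS : S ⊆ pos Ψ v) :
    ∃ g, alt Ψ μ = (∏ β ∈ S, aa β) * g ∧ (∀ β ∈ pos Ψ v, β ∉ S → Van β g) ∧
      (∀ β, g.coeff β ≠ 0 → β ∈ Wt Ψ) ∧
      (∀ (v' : V) (c : ℝ), Lev v' c (alt Ψ μ) → Lev v' (c + ∑ β ∈ S, min 0 ⟪β, v'⟫) g) := by
  classical
  induction S using Finset.induction_on with
  | empty =>
    refine ⟨alt Ψ μ, by simp, ?_, fun β hβ => alt_int h hμ hβ, by simp⟩
    intro β hβ _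
    exact van_of_odd (mem_pos.mp hβ).1 h (act_sr_alt h (mem_pos.mp hβ).1 μ) fun γ hγ => alt_int h hμ hγ
  | insert α S hα ih =>
    obtain ⟨g, hg1, hg2, hg3, hg4⟩ := ih (fun β hβ => hS (Finset.mem_insert_of_mem hβ))
    have hαp : α ∈ pos Ψ v := hS (Finset.mem_insert_self _ _)
    have hα' := mem_pos.mp hαp
    have hα0 := h.ne_zero hα'.1
    obtain ⟨g', hg'⟩ := exists_div hα0 (hg2 α hαp hα)
    refine ⟨g', ?_, ?_, ?_, ?_⟩
    · rw [Finset.prod_insert hα, hg1, hg']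
      ring
    · intro β hβ hβS
      rw [Finset.mem_insert, not_or] at hβS
      have hβ' := mem_pos.mp hβ
      refine Van.of_aa_mul (α := α) (h.ne_zero hβ'.1) ?_ (by rw [← hg']; exact hg2 β hβ hβS.2)
      intro c hc
      have h1 := h.red β hβ'.1 c (hc ▸ hα'.1)
      rcases h1 with h1 | h1
      · rw [h1, one_smul] at hc; exact hβS.1 hc.symm
      · rw [h1] at hc
        have h2 := hα'.2
        rw [hc, inner_smul_left] at h2
        simp only [RCLike.conj_to_real] at h2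
        linarith [hβ'.2]
    · intro β hβ
      obtain ⟨j, hj⟩ := coeff_div_ne_zero hα0 hβ
      rw [← hg'] at hj
      have h1 := hg3 _ hj
      have h2 : (j : ℝ) • α ∈ Wt Ψ := by
        have h3 := (Wt Ψ).nsmul_mem (h.mem_Wt hα'.1) j
        rwa [← Nat.cast_smul_eq_nsmul ℝ] at h3
      have h3 : β = (β + (j : ℝ) • α) - (j : ℝ) • α := by abel
      rw [h3]
      exact (Wt Ψ).sub_mem h1 h2
    · intro v' c hc
      rw [Finset.sum_insert hα, add_comm (min 0 ⟪α, v'⟫), ← add_assoc]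
      exact Lev.of_aa_mul hα0 (by rw [← hg']; exact hg4 v' c hc)

include hv

theorem exists_chi {μ : V} (hμ : μ ∈ Wt Ψ) :
    ∃ χ, alt Ψ μ = Del Ψ v * χ ∧ (∀ β, χ.coeff β ≠ 0 → β ∈ Wt Ψ) ∧
      (∀ (v' : V) (c : ℝ), Lev v' c (alt Ψ μ) →
        Lev v' (c - 1 / 2 * ∑ β ∈ pos Ψ v, |⟪β, v'⟫|) χ) := by
  obtain ⟨g, hg1, _, hg3, hg4⟩ := exists_quot h hμ (v := v) (pos Ψ v) subset_rfl
  have hcoef : ∀ β, (single (-rho Ψ v) (1 : ℝ) * g).coeff β = g.coeff (rho Ψ v + β) := by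
    intro β
    rw [AddMonoidAlgebra.coeff_single_mul_apply]
    simp
  refine ⟨single (-rho Ψ v) 1 * g, ?_, ?_, ?_⟩
  · rw [Del_eq, hg1]
    have : single (rho Ψ v) (1 : ℝ) * single (-rho Ψ v) 1 = 1 := by
      rw [AddMonoidAlgebra.single_mul_single]
      simp [← AddMonoidAlgebra.one_def]
    calc (∏ β ∈ pos Ψ v, aa β) * g = 1 * ((∏ β ∈ pos Ψ v, aa β) * g) := by rw [one_mul]
      _ = _ := by rw [← this]; ring
  · intro β hβ
    rw [hcoef] at hβ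
    have h1 := hg3 _ hβ
    have h3 : β = (rho Ψ v + β) - rho Ψ v := by abel
    rw [h3]
    exact (Wt Ψ).sub_mem h1 (rho_mem_Wt h hv)
  · intro v' c hc β hβ
    rw [hcoef] at hβ
    have h1 := hg4 v' c hc _ hβ
    rw [inner_add_left] at h1
    have h2 : ⟪rho Ψ v, v'⟫ = 1 / 2 * ∑ β ∈ pos Ψ v, ⟪β, v'⟫ := by
      unfold rho
      rw [inner_smul_left, sum_inner]
      simp
    have h3 : ∑ β ∈ pos Ψ v, min 0 ⟪β, v'⟫ =
        1 / 2 * ∑ β ∈ pos Ψ v, ⟪β, v'⟫ - 1 / 2 * ∑ β ∈ pos Ψ v, |⟪β, v'⟫| := by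
      rw [Finset.mul_sum, Finset.mul_sum, ← Finset.sum_sub_distrib]
      refine Finset.sum_congr rfl fun β _ => ?_
      rcases le_total 0 ⟪β, v'⟫ with h4 | h4
      · rw [min_eq_left h4, abs_of_nonneg h4]; ring
      · rw [min_eq_right h4, abs_of_nonpos h4]; ring
    rw [h2, h3] at h1
    linarith

theorem chi_norm_le {μ : V} {χ : AddMonoidAlgebra ℝ V}
    (hlev : ∀ (v' : V) (c : ℝ), Lev v' c (alt Ψ μ) →
        Lev v' (c - 1 / 2 * ∑ β ∈ pos Ψ v, |⟪β, v'⟫|) χ) {β : V} (hβ : χ.coeff β ≠ 0) :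
    ‖β‖ ≤ ‖μ‖ := by
  have h1 := hlev β _ (alt_lev μ β) β hβ
  rw [real_inner_self_eq_norm_sq] at h1
  have h2 : 0 ≤ ∑ γ ∈ pos Ψ v, |⟪γ, β⟫| := Finset.sum_nonneg fun _ _ => abs_nonneg _
  rcases eq_or_lt_of_le (norm_nonneg β) with h3 | h3
  · rw [← h3]; exact norm_nonneg μ
  · have h4 : ‖β‖ * ‖β‖ ≤ ‖μ‖ * ‖β‖ := by nlinarith
    exact le_of_mul_le_mul_right h4 h3

omit hv in
theorem rho_le (v' : V) : ⟪rho Ψ v, v'⟫ ≤ 1 / 2 * ∑ β ∈ pos Ψ v, |⟪β, v'⟫| := by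
  unfold rho
  rw [inner_smul_left, sum_inner]
  simp only [RCLike.conj_to_real]
  apply mul_le_mul_of_nonneg_left _ (by norm_num)
  exact Finset.sum_le_sum fun β _ => le_abs_self _

theorem chi_norm_rho_le {μ : V} {χ : AddMonoidAlgebra ℝ V}
    (hlev : ∀ (v' : V) (c : ℝ), Lev v' c (alt Ψ μ) →
        Lev v' (c - 1 / 2 * ∑ β ∈ pos Ψ v, |⟪β, v'⟫|) χ) {β : V} (hβ : χ.coeff β ≠ 0) :
    ‖β + rho Ψ v‖ ≤ ‖μ‖ := by
  set v' := β + rho Ψ v with hv'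
  have h1 := hlev v' _ (alt_lev μ v') β hβ
  have h2 := rho_le h (v := v) v'
  have h3 : ⟪v', v'⟫ ≤ ‖μ‖ * ‖v'‖ := by
    have : ⟪v', v'⟫ = ⟪β, v'⟫ + ⟪rho Ψ v, v'⟫ := by
      conv_lhs => rw [hv', inner_add_left]
    linarith
  rw [real_inner_self_eq_norm_sq] at h3
  rcases eq_or_lt_of_le (norm_nonneg v') with h4 | h4
  · rw [← h4]; exact norm_nonneg μ
  · have h5 : ‖v'‖ * ‖v'‖ ≤ ‖μ‖ * ‖v'‖ := by nlinarith
    exact le_of_mul_le_mul_right h5 h4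

theorem act_chi {μ : V} {χ : AddMonoidAlgebra ℝ V} (hχ : alt Ψ μ = Del Ψ v * χ) {α : V} (hα : α ∈ Ψ) :
    act (sr α) χ = χ := by
  have h1 := act_sr_alt h hα μ
  rw [hχ, map_mul, act_sr_Del h hv hα] at h1
  refine Del_cancel h (v := v) _ _ ?_
  calc Del Ψ v * act (sr α) χ = -(-Del Ψ v * act (sr α) χ) := by ring
    _ = -(-(Del Ψ v * χ)) := by rw [h1]
    _ = Del Ψ v * χ := by ring

theorem chi_sr {μ : V} {χ : AddMonoidAlgebra ℝ V} (hχ : alt Ψ μ = Del Ψ v * χ) {α : V} (hα : α ∈ Ψ)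
    (β : V) : χ.coeff (sr α β) = χ.coeff β := by
  rw [← act_sr_coeff, act_chi h hv hχ hα]

/-- The top coefficient: if β + ρ is dominant regular and of norm ‖μ‖, the coefficient of χ at β is the
coefficient of the alternating sum at β + ρ. -/
theorem top_coeff {μ : V} {χ : AddMonoidAlgebra ℝ V} (hχ : alt Ψ μ = Del Ψ v * χ)
    (hlev : ∀ (v' : V) (c : ℝ), Lev v' c (alt Ψ μ) →
        Lev v' (c - 1 / 2 * ∑ β ∈ pos Ψ v, |⟪β, v'⟫|) χ) {β : V}
    (hβ : ∀ α ∈ pos Ψ v, 0 < ⟪α, β + rho Ψ v⟫) (hn : ‖β + rho Ψ v‖ = ‖μ‖) :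
    χ.coeff β = (alt Ψ μ).coeff (β + rho Ψ v) := by
  classical
  set v' := β + rho Ψ v with hv'
  have h1 := hlev v' _ (alt_lev μ v')
  have h2 : ‖μ‖ * ‖v'‖ - 1 / 2 * ∑ β ∈ pos Ψ v, |⟪β, v'⟫| = ⟪β, v'⟫ := by
    have h3 : ∑ β ∈ pos Ψ v, |⟪β, v'⟫| = ∑ β ∈ pos Ψ v, ⟪β, v'⟫ :=
      Finset.sum_congr rfl fun α hα => abs_of_pos (hβ α hα)
    have h4 : ⟪rho Ψ v, v'⟫ = 1 / 2 * ∑ β ∈ pos Ψ v, ⟪β, v'⟫ := by
      unfold rho
      rw [inner_smul_left, sum_inner]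
      simp
    have h5 : ⟪v', v'⟫ = ⟪β, v'⟫ + ⟪rho Ψ v, v'⟫ := by
      conv_lhs => rw [hv', inner_add_left]
    rw [real_inner_self_eq_norm_sq] at h5
    rw [h3, ← h4, ← hn]
    nlinarith
  rw [h2] at h1
  have key : ∀ S ⊆ pos Ψ v, Lev v' ⟪β, v'⟫ ((∏ α ∈ S, aa α) * χ) ∧
      ((∏ α ∈ S, aa α) * χ).coeff β = χ.coeff β := by
    intro S
    induction S using Finset.induction_on with
    | empty => intro _; simp only [Finset.prod_empty, one_mul]; exact ⟨h1, trivial⟩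
    | insert α S hα ih =>
      intro hS
      obtain ⟨ih1, ih2⟩ := ih (fun γ hγ => hS (Finset.mem_insert_of_mem hγ))
      have hα' := hβ α (hS (Finset.mem_insert_self _ _))
      rw [Finset.prod_insert hα, mul_assoc]
      exact ⟨ih1.aa_mul hα'.le, by rw [ih1.top hα' rfl, ih2]⟩
  rw [hχ, Del_eq, mul_assoc, AddMonoidAlgebra.coeff_single_mul_apply, one_mul]
  have h6 : -rho Ψ v + v' = β := by rw [hv']; abel
  rw [h6, (key _ subset_rfl).2]

/-- For μ dominant regular the coefficient of the alternating sum at a dominant regular vector is the number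
of the w with w μ equal to it. -/
theorem alt_coeff_top {μ γ : V} (hμ : ∀ α ∈ pos Ψ v, 0 < ⟪α, μ⟫) (hγ : ∀ α ∈ pos Ψ v, 0 < ⟪α, γ⟫)
    [DecidableEq V] :
    (alt Ψ μ).coeff γ = ((univ.filter fun w : weyl Ψ => (w : V ≃ₗᵢ[ℝ] V) μ = γ).card : ℝ) := by
  rw [alt_coeff, Finset.card_filter]
  push_cast
  refine Finset.sum_congr rfl fun w _ => ?_
  split_ifs with hw
  · apply sgn_eq_one h hv w.2
    intro α hα
    have h1 : (w : V ≃ₗᵢ[ℝ] V) α ∈ Ψ := h.weyl_mem w.2 α (mem_pos.mp hα).1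
    refine mem_pos.mpr ⟨h1, ?_⟩
    have h2 : 0 < ⟪(w : V ≃ₗᵢ[ℝ] V) α, γ⟫ := by
      rw [← hw, (w : V ≃ₗᵢ[ℝ] V).inner_map_map]
      exact hμ α hα
    by_contra hcon
    push Not at hcon
    have h3 : -((w : V ≃ₗᵢ[ℝ] V) α) ∈ pos Ψ v := by
      refine mem_pos.mpr ⟨h.neg_mem h1, ?_⟩
      rw [inner_neg_left]
      have := lt_of_le_of_ne hcon (hv _ h1)
      linarith
    have h4 := hγ _ h3
    rw [inner_neg_left] at h4
    linarith
  · rfl

theorem sum_abs_weyl {w : V ≃ₗᵢ[ℝ] V} (hw : w ∈ weyl Ψ) (v' : V) :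
    ∑ α ∈ pos Ψ v, |⟪w α, v'⟫| = ∑ α ∈ pos Ψ v, |⟪α, v'⟫| := by
  classical
  have hdouble : ∀ f : V → ℝ, (∀ α, f (-α) = f α) → ∑ α ∈ Ψ, f α = 2 * ∑ α ∈ pos Ψ v, f α := by
    intro f hf
    have h1 : ∑ α ∈ Ψ.filter (fun α => ¬ 0 < ⟪α, v⟫), f α = ∑ α ∈ pos Ψ v, f α := by
      refine Finset.sum_nbij' (fun α => -α) (fun α => -α) ?_ ?_ ?_ ?_ ?_
      · intro α hα
        rw [Finset.mem_filter] at hα
        refine mem_pos.mpr ⟨h.neg_mem hα.1, ?_⟩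
        rw [inner_neg_left]
        have := lt_of_le_of_ne (not_lt.mp hα.2) (hv α hα.1)
        linarith
      · intro α hα
        rw [mem_pos] at hα
        rw [Finset.mem_filter]
        refine ⟨h.neg_mem hα.1, ?_⟩
        rw [inner_neg_left]
        linarith [hα.2]
      · intro α _; simp
      · intro α _; simp
      · intro α _; exact (hf α).symm
    have h2 : ∑ α ∈ Ψ.filter (fun α => 0 < ⟪α, v⟫), f α = ∑ α ∈ pos Ψ v, f α := by
      congr 1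
    rw [← Finset.sum_filter_add_sum_filter_not Ψ (fun α => 0 < ⟪α, v⟫) f, h1, h2]
    ring
  have h1 := hdouble (fun α => |⟪w α, v'⟫|) (fun α => by simp)
  have h2 := hdouble (fun α => |⟪α, v'⟫|) (fun α => by simp)
  have h3 : ∑ α ∈ Ψ, |⟪w α, v'⟫| = ∑ α ∈ Ψ, |⟪α, v'⟫| := by
    have himg : Ψ.image w = Ψ := by
      apply Finset.eq_of_subset_of_card_le
      · intro β hβ
        obtain ⟨γ, hγ, rfl⟩ := Finset.mem_image.mp hβ
        exact h.weyl_mem hw γ hγ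
      · rw [Finset.card_image_of_injective _ w.injective]
    conv_rhs => rw [← himg]
    rw [Finset.sum_image (fun a _ b _ hab => w.injective hab)]
  linarith

theorem alt_rho_lev (v' : V) :
    Lev v' (1 / 2 * ∑ β ∈ pos Ψ v, |⟪β, v'⟫|) (alt Ψ (rho Ψ v)) := by
  intro β hβ
  obtain ⟨w, hw, rfl⟩ := alt_coeff_ne_zero hβ
  rw [← sum_abs_weyl h hv hw v']
  unfold rho
  rw [map_smul, map_sum, inner_smul_left, sum_inner]
  simp only [RCLike.conj_to_real]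
  apply mul_le_mul_of_nonneg_left _ (by norm_num)
  exact Finset.sum_le_sum fun β _ => le_abs_self _

theorem alt_rho : ∃ c : ℝ, 1 ≤ c ∧ c ≤ Fintype.card (weyl Ψ) ∧ alt Ψ (rho Ψ v) = c • Del Ψ v := by
  classical
  obtain ⟨χ, hχ, hint, hlev⟩ := exists_chi h hv (rho_mem_Wt h hv)
  have h0 : ∀ β, χ.coeff β ≠ 0 → β = 0 := by
    intro β hβ
    have h1 := hlev β _ (alt_rho_lev h hv β) β hβ
    have h2 : ⟪β, β⟫ ≤ 0 := by linarith
    exact real_inner_self_nonpos.mp h2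
  have h1 : χ = (χ.coeff 0) • (1 : AddMonoidAlgebra ℝ V) := by
    ext β
    rw [AddMonoidAlgebra.coeff_smul_apply, AddMonoidAlgebra.one_def, AddMonoidAlgebra.coeff_single,
      Finsupp.single_apply]
    split_ifs with h2
    · rw [h2]; simp
    · by_contra h3
      have h4 : χ.coeff β ≠ 0 := by simpa using h3
      exact h2 (h0 β h4).symm
  have hρ : ∀ α ∈ pos Ψ v, 0 < ⟪α, rho Ψ v⟫ := fun α hα => by
    rw [real_inner_comm]; exact rho_pos h hv hα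
  have h2 := top_coeff h hv hχ hlev (β := 0) (by simpa using hρ) (by simp)
  rw [zero_add, alt_coeff_top h hv hρ hρ] at h2
  refine ⟨χ.coeff 0, ?_, ?_, ?_⟩
  · rw [h2]
    have : 1 ≤ (univ.filter fun w : weyl Ψ => (w : V ≃ₗᵢ[ℝ] V) (rho Ψ v) = rho Ψ v).card := by
      apply Finset.card_pos.mpr
      exact ⟨1, by simp⟩
    exact_mod_cast this
  · rw [h2]
    have := Finset.card_filter_le (univ : Finset (weyl Ψ))
      (fun w : weyl Ψ => (w : V ≃ₗᵢ[ℝ] V) (rho Ψ v) = rho Ψ v)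
    rw [Finset.card_univ] at this
    exact_mod_cast this
  · rw [hχ]
    conv_lhs => rw [h1]
    rw [mul_smul_comm, mul_one]

end Pool.Agent.Helper83.AllG
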