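import Mathlib
import Pool.Agent.Helper83.AllG.Chi

/-!
# The recursion for the coefficients and their positivity
-/

set_option autoImplicit false

open Finset
open scoped RealInnerProductSpace

namespace Pool.Agent.Helper83.AllG

open AddMonoidAlgebra (single)

variable {V : Type*} [NormedAddCommGroup V] [InnerProductSpace ℝ V] [FiniteDimensional ℝ V]

/-- The Laplacian e(β) ↦ ⟨β, β⟩ e(β). -/
noncomputable def LL (f : AddMonoidAlgebra ℝ V) : AddMonoidAlgebra ℝ V :=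
  ∑ i, dv (stdOrthonormalBasis ℝ V i) (dv (stdOrthonormalBasis ℝ V i) f)

/-- The bilinear form with B(e(β), e(γ)) = ⟨β, γ⟩ e(β + γ). -/
noncomputable def BB (f g : AddMonoidAlgebra ℝ V) : AddMonoidAlgebra ℝ V :=
  ∑ i, dv (stdOrthonormalBasis ℝ V i) f * dv (stdOrthonormalBasis ℝ V i) g

theorem LL_coeff (f : AddMonoidAlgebra ℝ V) (β : V) : (LL f).coeff β = ⟪β, β⟫ * f.coeff β := by
  unfold LL
  rw [AddMonoidAlgebra.coeff_sum, Finsupp.finsetSum_apply]
  simp_rw [dv_coeff]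
  rw [← OrthonormalBasis.sum_inner_mul_inner (stdOrthonormalBasis ℝ V) β β, Finset.sum_mul]
  refine Finset.sum_congr rfl fun i _ => ?_
  rw [real_inner_comm β]
  ring

theorem LL_mul (f g : AddMonoidAlgebra ℝ V) : LL (f * g) = LL f * g + 2 * BB f g + f * LL g := by
  unfold LL BB
  rw [Finset.sum_mul, Finset.mul_sum, Finset.mul_sum, ← Finset.sum_add_distrib,
    ← Finset.sum_add_distrib]
  refine Finset.sum_congr rfl fun i _ => ?_
  rw [dv_mul, map_add, dv_mul, dv_mul]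
  ring

theorem BB_mul (f₁ f₂ g : AddMonoidAlgebra ℝ V) :
    BB (f₁ * f₂) g = f₁ * BB f₂ g + f₂ * BB f₁ g := by
  unfold BB
  rw [Finset.mul_sum, Finset.mul_sum, ← Finset.sum_add_distrib]
  refine Finset.sum_congr rfl fun i _ => ?_
  rw [dv_mul]
  ring

theorem sum_basis_dv (α : V) (g : AddMonoidAlgebra ℝ V) :
    ∑ i, ⟪stdOrthonormalBasis ℝ V i, α⟫ • dv (stdOrthonormalBasis ℝ V i) g = dv α g := by
  ext β
  rw [AddMonoidAlgebra.coeff_sum, Finsupp.finsetSum_apply, dv_coeff,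
    ← OrthonormalBasis.sum_inner_mul_inner (stdOrthonormalBasis ℝ V) α β, Finset.sum_mul]
  refine Finset.sum_congr rfl fun i _ => ?_
  rw [AddMonoidAlgebra.coeff_smul_apply, dv_coeff, smul_eq_mul, real_inner_comm α]
  ring

theorem BB_aa (α : V) (g : AddMonoidAlgebra ℝ V) : BB (aa α) g = single (-α) 1 * dv α g := by
  unfold BB
  rw [← sum_basis_dv α g, Finset.mul_sum]
  refine Finset.sum_congr rfl fun i _ => ?_
  rw [dv_aa, smul_mul_assoc, mul_smul_comm]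

theorem BB_single (ρ : V) (g : AddMonoidAlgebra ℝ V) :
    BB (single ρ 1) g = single ρ 1 * dv ρ g := by
  unfold BB
  rw [← sum_basis_dv ρ g, Finset.mul_sum]
  refine Finset.sum_congr rfl fun i _ => ?_
  rw [dv_single, mul_smul_comm, ← smul_mul_assoc]
  congr 1
  ext β
  simp

theorem BB_prod (S : Finset V) (χ : AddMonoidAlgebra ℝ V) (g : V → AddMonoidAlgebra ℝ V)
    (hg : ∀ α ∈ S, dv α χ = aa α * g α) :
    BB (∏ α ∈ S, aa α) χ = (∏ α ∈ S, aa α) * ∑ α ∈ S, single (-α) 1 * g α := by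
  classical
  induction S using Finset.induction_on with
  | empty =>
    rw [Finset.prod_empty, Finset.sum_empty, mul_zero]
    unfold BB
    refine Finset.sum_eq_zero fun i _ => ?_
    have : dv (stdOrthonormalBasis ℝ V i) (1 : AddMonoidAlgebra ℝ V) = 0 := by
      rw [AddMonoidAlgebra.one_def, dv_single]
      simp
    rw [this, zero_mul]
  | insert α S hα ih =>
    rw [Finset.prod_insert hα, Finset.sum_insert hα, BB_mul, BB_aa,
      ih (fun β hβ => hg β (Finset.mem_insert_of_mem hβ)), hg α (Finset.mem_insert_self _ _)]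
    ring

variable {Ψ : Finset V} (h : RS Ψ) {v : V} (hv : ∀ α ∈ Ψ, ⟪α, v⟫ ≠ 0) [Fintype (weyl Ψ)]

theorem LL_alt (μ : V) : LL (alt Ψ μ) = ⟪μ, μ⟫ • alt Ψ μ := by
  ext β
  rw [LL_coeff, AddMonoidAlgebra.coeff_smul_apply, smul_eq_mul]
  by_cases hβ : (alt Ψ μ).coeff β = 0
  · rw [hβ]; ring
  · obtain ⟨w, hw, rfl⟩ := alt_coeff_ne_zero hβ
    rw [w.inner_map_map]

theorem LL_smul (c : ℝ) (f : AddMonoidAlgebra ℝ V) : LL (c • f) = c • LL f := by
  ext β
  rw [LL_coeff, AddMonoidAlgebra.coeff_smul_apply, AddMonoidAlgebra.coeff_smul_apply, LL_coeff,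
    smul_eq_mul, smul_eq_mul]
  ring

include h hv

theorem LL_Del : LL (Del Ψ v) = ⟪rho Ψ v, rho Ψ v⟫ • Del Ψ v := by
  obtain ⟨c, hc1, _, hc⟩ := alt_rho h hv
  have h1 := LL_alt (Ψ := Ψ) (rho Ψ v)
  rw [hc, LL_smul, smul_comm] at h1
  have hc0 : c ≠ 0 := by linarith
  exact smul_right_injective _ hc0 h1

theorem freudenthal {μ : V} {χ : AddMonoidAlgebra ℝ V} (hχ : alt Ψ μ = Del Ψ v * χ)
    (hint : ∀ β, χ.coeff β ≠ 0 → β ∈ Wt Ψ) :
    ∃ g : V → AddMonoidAlgebra ℝ V, (∀ α ∈ pos Ψ v, dv α χ = aa α * g α) ∧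
      ∀ β, (⟪μ, μ⟫ - ⟪β + rho Ψ v, β + rho Ψ v⟫) * χ.coeff β =
        2 * ∑ α ∈ pos Ψ v, (g α).coeff (α + β) := by
  have hex : ∀ α : V, ∃ gα : AddMonoidAlgebra ℝ V, α ∈ pos Ψ v → dv α χ = aa α * gα := by
    intro α
    by_cases hα : α ∈ pos Ψ v
    · have hα' := mem_pos.mp hα
      have hα0 := h.ne_zero hα'.1
      have hodd : act (sr α) (dv α χ) = -dv α χ := by
        ext β
        rw [act_sr_coeff, dv_coeff, AddMonoidAlgebra.coeff_neg, Finsupp.neg_apply, dv_coeff,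
          chi_sr h hv hχ hα'.1, real_inner_comm, inner_sr_self α β hα0, real_inner_comm]
        ring
      obtain ⟨g, hg⟩ := exists_div hα0 (van_of_odd hα'.1 h hodd (by
        intro β hβ
        rw [dv_coeff] at hβ
        exact hint β (right_ne_zero_of_mul hβ)))
      exact ⟨g, fun _ => hg⟩
    · exact ⟨0, fun h1 => absurd h1 hα⟩
  choose g hg using hex
  refine ⟨g, hg, ?_⟩
  have hB : BB (Del Ψ v) χ = Del Ψ v * (dv (rho Ψ v) χ + ∑ α ∈ pos Ψ v, single (-α) 1 * g α) := by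
    rw [Del_eq, BB_mul, BB_single, BB_prod (pos Ψ v) χ g hg]
    ring
  have h1 := LL_alt (Ψ := Ψ) μ
  rw [hχ, LL_mul, LL_Del h hv, hB] at h1
  have h2 : Del Ψ v * (⟪rho Ψ v, rho Ψ v⟫ • χ +
      2 * (dv (rho Ψ v) χ + ∑ α ∈ pos Ψ v, single (-α) 1 * g α) + LL χ) =
      Del Ψ v * (⟪μ, μ⟫ • χ) := by
    rw [mul_smul_comm, ← h1, smul_mul_assoc, mul_add, mul_add, mul_smul_comm]
    ring
  have h3 := Del_cancel h (v := v) _ _ h2
  intro β
  have h4 := congrArg (fun f : AddMonoidAlgebra ℝ V => f.coeff β) h3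
  have h5 : ∀ f : AddMonoidAlgebra ℝ V, 2 * f = (2 : ℝ) • f := by
    intro f
    rw [two_smul, two_mul]
  rw [AddMonoidAlgebra.coeff_add, Finsupp.add_apply, AddMonoidAlgebra.coeff_add, Finsupp.add_apply,
    h5, AddMonoidAlgebra.coeff_smul_apply, AddMonoidAlgebra.coeff_smul_apply,
    AddMonoidAlgebra.coeff_smul_apply, AddMonoidAlgebra.coeff_add, Finsupp.add_apply, dv_coeff,
    AddMonoidAlgebra.coeff_sum, Finsupp.finsetSum_apply, LL_coeff] at h4
  simp only [smul_eq_mul] at h4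
  have h6 : ∑ α ∈ pos Ψ v, (single (-α) (1 : ℝ) * g α).coeff β = ∑ α ∈ pos Ψ v, (g α).coeff (α + β) := by
    refine Finset.sum_congr rfl fun α _ => ?_
    rw [AddMonoidAlgebra.coeff_single_mul_apply, neg_neg, one_mul]
  rw [h6] at h4
  rw [inner_add_left, inner_add_right, inner_add_right, real_inner_comm (rho Ψ v) β]
  linarith

/-- Positivity of the coefficients. -/
theorem chi_nonneg {μ : V} (hμ : ∀ α ∈ pos Ψ v, 0 < ⟪α, μ⟫) {χ : AddMonoidAlgebra ℝ V}
    (hχ : alt Ψ μ = Del Ψ v * χ) (hint : ∀ β, χ.coeff β ≠ 0 → β ∈ Wt Ψ)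
    (hlev : ∀ (v' : V) (c : ℝ), Lev v' c (alt Ψ μ) →
        Lev v' (c - 1 / 2 * ∑ β ∈ pos Ψ v, |⟪β, v'⟫|) χ) : ∀ β, 0 ≤ χ.coeff β := by
  classical
  by_contra hcon
  push Not at hcon
  obtain ⟨β₀, hβ₀⟩ := hcon
  set S := χ.coeff.support.filter (fun β => χ.coeff β < 0) with hS
  have hmemS : ∀ β, β ∈ S ↔ χ.coeff β < 0 := by
    intro β
    rw [hS, Finset.mem_filter, Finsupp.mem_support_iff]
    exact ⟨fun h1 => h1.2, fun h1 => ⟨h1.ne, h1⟩⟩
  obtain ⟨β, hβS, hβmax⟩ := Finset.exists_max_image S (fun β => ⟪β, v⟫) ⟨β₀, (hmemS β₀).mpr hβ₀⟩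
  have hβ := (hmemS β).mp hβS
  have hhigh : ∀ γ, ⟪β, v⟫ < ⟪γ, v⟫ → 0 ≤ χ.coeff γ := by
    intro γ hγ
    by_contra h1
    push Not at h1
    exact absurd (hβmax γ ((hmemS γ).mpr h1)) (not_le.mpr hγ)
  -- β is dominant
  have hdom : ∀ α ∈ pos Ψ v, 0 ≤ ⟪α, β⟫ := by
    intro α hα
    by_contra h1
    push Not at h1
    have hα' := mem_pos.mp hα
    have hα0 := h.ne_zero hα'.1
    have h2 : χ.coeff (sr α β) < 0 := by rw [chi_sr h hv hχ hα'.1]; exact hβ
    have h3 : ⟪β, v⟫ < ⟪sr α β, v⟫ := by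
      rw [sr_apply, inner_sub_left, inner_smul_left]
      simp only [RCLike.conj_to_real]
      have h4 : 0 < ⟪α, α⟫ := real_inner_self_pos.mpr hα0
      have h5 : 2 * ⟪β, α⟫ / ⟪α, α⟫ < 0 := by
        apply div_neg_of_neg_of_pos _ h4
        rw [real_inner_comm]
        linarith
      have h6 : 2 * ⟪β, α⟫ / ⟪α, α⟫ * ⟪α, v⟫ < 0 := mul_neg_of_neg_of_pos h5 hα'.2
      linarith
    exact absurd h2 (not_lt.mpr (hhigh _ h3))
  obtain ⟨g, hg, hfr⟩ := freudenthal h hv hχ hint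
  have hRHS : 0 ≤ 2 * ∑ α ∈ pos Ψ v, (g α).coeff (α + β) := by
    apply mul_nonneg (by norm_num)
    refine Finset.sum_nonneg fun α hα => ?_
    have hα' := mem_pos.mp hα
    have hα0 := h.ne_zero hα'.1
    obtain ⟨n, hn⟩ := exists_coeff_div hα0 (g α) (α + β)
    rw [hn, ← hg α hα]
    refine Finset.sum_nonneg fun j _ => ?_
    rw [dv_coeff]
    apply mul_nonneg
    · rw [inner_add_right, inner_add_right, inner_smul_right]
      have h4 : 0 < ⟪α, α⟫ := real_inner_self_pos.mpr hα0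
      have h5 := hdom α hα
      positivity
    · apply hhigh
      rw [inner_add_left, inner_add_left, inner_smul_left]
      simp only [RCLike.conj_to_real]
      have h5 : 0 ≤ (j : ℝ) * ⟪α, v⟫ := mul_nonneg (Nat.cast_nonneg _) hα'.2.le
      linarith [hα'.2]
  have hle := chi_norm_rho_le h hv hlev hβ.ne
  rcases eq_or_lt_of_le hle with heq | hlt
  · have hreg : ∀ α ∈ pos Ψ v, 0 < ⟪α, β + rho Ψ v⟫ := by
      intro α hα
      rw [inner_add_right]
      have h1 := hdom α hα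
      have h2 := rho_pos h hv hα
      rw [real_inner_comm] at h2
      linarith
    have h1 := top_coeff h hv hχ hlev hreg heq
    rw [alt_coeff_top h hv hμ hreg] at h1
    have h2 : (0 : ℝ) ≤ χ.coeff β := by rw [h1]; exact Nat.cast_nonneg _
    linarith
  · have h1 := hfr β
    rw [real_inner_self_eq_norm_sq, real_inner_self_eq_norm_sq] at h1
    have h2 : 0 < ‖μ‖ ^ 2 - ‖β + rho Ψ v‖ ^ 2 := by
      have h3 := norm_nonneg (β + rho Ψ v)
      nlinarith
    have h3 : (‖μ‖ ^ 2 - ‖β + rho Ψ v‖ ^ 2) * χ.coeff β < 0 := mul_neg_of_pos_of_neg h2 hβ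
    linarith

end Pool.Agent.Helper83.AllG
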