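import Mathlib
import Pool.Agent.Helper83.AllG.Freud

/-!
# Two-sided bounds for alternating sums
-/

set_option autoImplicit false

open Finset Filter Topology
open scoped RealInnerProductSpace

namespace Pool.Agent.Helper83.AllG

open AddMonoidAlgebra (single)

variable {V : Type*} [NormedAddCommGroup V] [InnerProductSpace ℝ V] [FiniteDimensional ℝ V]

/-- ∏ |2 sin (π ⟨α, x⟩)|. -/
noncomputable def SS (Ψ : Finset V) (x : V) : ℝ := ∏ α ∈ Ψ, |2 * Real.sin (Real.pi * ⟪α, x⟫)|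

/-- ∏ |⟨α, x⟩|. -/
noncomputable def PP (Ψ : Finset V) (x : V) : ℝ := ∏ α ∈ Ψ, |⟪α, x⟫|

theorem SS_nonneg (Ψ : Finset V) (x : V) : 0 ≤ SS Ψ x := Finset.prod_nonneg fun _ _ => abs_nonneg _

theorem PP_nonneg (Ψ : Finset V) (x : V) : 0 ≤ PP Ψ x := Finset.prod_nonneg fun _ _ => abs_nonneg _

theorem prod_even {Ψ : Finset V} (h : RS Ψ) {v : V} (hv : ∀ α ∈ Ψ, ⟪α, v⟫ ≠ 0) (f : V → ℝ)
    (hf : ∀ α, f (-α) = f α) : ∏ α ∈ Ψ, f α = (∏ α ∈ pos Ψ v, f α) ^ 2 := by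
  classical
  have h1 : ∏ α ∈ Ψ.filter (fun α => ¬ 0 < ⟪α, v⟫), f α = ∏ α ∈ pos Ψ v, f α := by
    refine Finset.prod_nbij' (fun α => -α) (fun α => -α) ?_ ?_ ?_ ?_ ?_
    · intro α hα
      rw [Finset.mem_filter] at hα
      refine mem_pos.mpr ⟨h.neg_mem hα.1, ?_⟩
      rw [inner_neg_left]
      have := lt_of_le_of_ne (not_lt.mp hα.2) (hv α hα.1)
      linarith
    · intro α hα
      rw [mem_pos] at hα
      rw [Finset.mem_filter]
      refine ⟨h.neg_mem hα.1, ?_⟩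
      rw [inner_neg_left]
      linarith [hα.2]
    · intro α _; simp
    · intro α _; simp
    · intro α _; exact (hf α).symm
  have h2 : ∏ α ∈ Ψ.filter (fun α => 0 < ⟪α, v⟫), f α = ∏ α ∈ pos Ψ v, f α := by
    congr 1
  rw [← Finset.prod_filter_mul_prod_filter_not Ψ (fun α => 0 < ⟪α, v⟫) f, h1, h2, sq]

theorem abs_two_sin_le {s : ℝ} (hs : 0 ≤ s) : |2 * Real.sin (Real.pi * s)| ≤ 2 * Real.pi * s := by
  rw [abs_mul, abs_two, mul_assoc]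
  apply mul_le_mul_of_nonneg_left _ (by norm_num)
  have h1 : |Real.sin (Real.pi * s)| ≤ |Real.pi * s| := Real.abs_sin_le_abs
  rwa [abs_of_nonneg (mul_nonneg Real.pi_pos.le hs)] at h1

theorem le_abs_two_sin {s : ℝ} (hs : 0 ≤ s) (hs2 : s ≤ 1 / 2) :
    4 * s ≤ |2 * Real.sin (Real.pi * s)| := by
  have h1 := Real.mul_le_sin (x := Real.pi * s) (mul_nonneg Real.pi_pos.le hs) (by
    have := Real.pi_pos
    nlinarith)
  have h2 : 2 / Real.pi * (Real.pi * s) = 2 * s := by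
    have := Real.pi_ne_zero
    field_simp
  rw [h2] at h1
  have h3 := le_abs_self (2 * Real.sin (Real.pi * s))
  linarith

section

variable {Ψ : Finset V} [Fintype (weyl Ψ)]

/-- The sum of the coefficients. -/
noncomputable def KK (χ : AddMonoidAlgebra ℝ V) : ℝ := ∑ β ∈ χ.coeff.support, χ.coeff β

theorem norm_exp_ev (t : ℝ) : ‖Complex.exp (2 * Real.pi * Complex.I * (t : ℂ))‖ = 1 := by
  have : 2 * (Real.pi : ℂ) * Complex.I * (t : ℂ) = ((2 * Real.pi * t : ℝ) : ℂ) * Complex.I := by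
    push_cast; ring
  rw [this]
  exact Complex.norm_exp_ofReal_mul_I _

theorem norm_ev_le {χ : AddMonoidAlgebra ℝ V} (hχ : ∀ β, 0 ≤ χ.coeff β) (x : V) :
    ‖ev x χ‖ ≤ KK χ := by
  rw [ev_apply]
  refine (norm_sum_le _ _).trans (Finset.sum_le_sum fun β _ => ?_)
  rw [norm_mul, norm_exp_ev, mul_one, Complex.norm_real, Real.norm_eq_abs, abs_of_nonneg (hχ β)]

theorem ev_zero (χ : AddMonoidAlgebra ℝ V) : ev 0 χ = (KK χ : ℂ) := by
  rw [ev_apply]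
  unfold KK
  push_cast
  refine Finset.sum_congr rfl fun β _ => ?_
  simp

theorem norm_ev_ge {χ : AddMonoidAlgebra ℝ V} (hχ : ∀ β, 0 ≤ χ.coeff β) {M : ℝ}
    (hM : ∀ β, χ.coeff β ≠ 0 → ‖β‖ ≤ M) {x : V} (hx : M * ‖x‖ ≤ 1 / 6) :
    KK χ / 2 ≤ ‖ev x χ‖ := by
  refine le_trans ?_ (Complex.abs_re_le_norm _)
  refine le_trans ?_ (le_abs_self _)
  rw [ev_apply, Complex.re_sum]
  unfold KK
  rw [Finset.sum_div]
  refine Finset.sum_le_sum fun β hβ => ?_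
  rw [Complex.re_ofReal_mul]
  have h1 : (Complex.exp (2 * Real.pi * Complex.I * ((⟪β, x⟫ : ℝ) : ℂ))).re =
      Real.cos (2 * Real.pi * ⟪β, x⟫) := by
    have : 2 * (Real.pi : ℂ) * Complex.I * ((⟪β, x⟫ : ℝ) : ℂ) =
        ((2 * Real.pi * ⟪β, x⟫ : ℝ) : ℂ) * Complex.I := by push_cast; ring
    rw [this, Complex.exp_ofReal_mul_I_re]
  rw [h1]
  have h2 : |⟪β, x⟫| ≤ 1 / 6 := by
    refine (abs_real_inner_le_norm β x).trans ?_
    exact (mul_le_mul_of_nonneg_right (hM β (Finsupp.mem_support_iff.mp hβ)) (norm_nonneg x)).trans hx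
  have h3 : (1 : ℝ) / 2 ≤ Real.cos (2 * Real.pi * ⟪β, x⟫) := by
    rw [← Real.cos_abs, ← Real.cos_pi_div_three]
    apply Real.cos_le_cos_of_nonneg_of_le_pi (abs_nonneg _) (by linarith [Real.pi_pos])
    rw [abs_mul, abs_of_pos (by positivity : (0 : ℝ) < 2 * Real.pi)]
    have := Real.pi_pos
    nlinarith
  have h4 := hχ β
  nlinarith

variable (h : RS Ψ) {v : V} (hv : ∀ α ∈ Ψ, ⟪α, v⟫ ≠ 0)

include h hv

theorem norm_ev_chi {μ : V} {χ : AddMonoidAlgebra ℝ V} (hχ : alt Ψ μ = Del Ψ v * χ) {c : ℝ}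
    (hc0 : 0 ≤ c) (hc : alt Ψ (rho Ψ v) = c • Del Ψ v) (t : ℝ) :
    (∏ β ∈ pos Ψ v, |2 * Real.sin (Real.pi * (t * ⟪β, rho Ψ v⟫))|) * ‖ev (t • rho Ψ v) χ‖ =
      c * ∏ β ∈ pos Ψ v, |2 * Real.sin (Real.pi * (t * ⟪β, μ⟫))| := by
  have h1 := ev_alt_symm h (rho Ψ v) μ t
  rw [hχ, hc, map_mul, map_smul] at h1
  have h2 := congrArg norm h1
  rw [norm_mul, norm_smul, norm_ev_Del, norm_ev_Del, Real.norm_eq_abs, abs_of_nonneg hc0] at h2
  simp_rw [inner_smul_right] at h2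
  exact h2

theorem KK_bounds {μ : V} (hμ : ∀ α ∈ pos Ψ v, 0 < ⟪α, μ⟫) {χ : AddMonoidAlgebra ℝ V}
    (hχ : alt Ψ μ = Del Ψ v * χ) (hpos : ∀ β, 0 ≤ χ.coeff β) {c : ℝ}
    (hc0 : 0 ≤ c) (hc : alt Ψ (rho Ψ v) = c • Del Ψ v) :
    KK χ ≤ c * ∏ β ∈ pos Ψ v, (Real.pi / 2 * (⟪β, μ⟫ / ⟪β, rho Ψ v⟫)) ∧
      c * ∏ β ∈ pos Ψ v, (2 / Real.pi * (⟪β, μ⟫ / ⟪β, rho Ψ v⟫)) ≤ KK χ := by
  have hpi := Real.pi_pos
  have hρ : ∀ α ∈ pos Ψ v, 0 < ⟪α, rho Ψ v⟫ := fun α hα => by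
    rw [real_inner_comm]; exact rho_pos h hv hα
  set M : ℝ := 1 + ∑ β ∈ pos Ψ v, (⟪β, rho Ψ v⟫ + ⟪β, μ⟫) with hM
  have hterm : ∀ β ∈ pos Ψ v, ⟪β, rho Ψ v⟫ + ⟪β, μ⟫ ≤ M := by
    intro β hβ
    have h1 := Finset.single_le_sum (f := fun β => ⟪β, rho Ψ v⟫ + ⟪β, μ⟫)
      (fun γ hγ => (add_pos (hρ γ hγ) (hμ γ hγ)).le) hβ
    linarith
  have hM0 : 0 < M := by
    have : 0 ≤ ∑ β ∈ pos Ψ v, (⟪β, rho Ψ v⟫ + ⟪β, μ⟫) :=
      Finset.sum_nonneg fun γ hγ => (add_pos (hρ γ hγ) (hμ γ hγ)).le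
    linarith
  have hsmall : ∀ t : ℝ, 0 < t → t ≤ 1 / (2 * M) → ∀ β ∈ pos Ψ v,
      t * ⟪β, rho Ψ v⟫ ≤ 1 / 2 ∧ t * ⟪β, μ⟫ ≤ 1 / 2 := by
    intro t ht0 ht β hβ
    have h1 := hterm β hβ
    have h2 := hρ β hβ
    have h3 := hμ β hβ
    have h4 : t * M ≤ 1 / 2 := by
      calc t * M ≤ 1 / (2 * M) * M := mul_le_mul_of_nonneg_right ht hM0.le
        _ = 1 / 2 := by field_simp
    constructor <;> nlinarith
  constructor
  · have htend : Tendsto (fun t : ℝ => ‖ev (t • rho Ψ v) χ‖) (𝓝[>] 0) (𝓝 (KK χ)) := by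
      have h1 : Continuous fun t : ℝ => ‖ev (t • rho Ψ v) χ‖ :=
        ((ev_continuous χ).comp (by fun_prop)).norm
      have h2 := h1.tendsto 0
      have h3 : ‖ev ((0 : ℝ) • rho Ψ v) χ‖ = KK χ := by
        rw [zero_smul, ev_zero, Complex.norm_real, Real.norm_eq_abs, abs_of_nonneg]
        exact Finset.sum_nonneg fun β _ => hpos β
      rw [h3] at h2
      exact h2.mono_left nhdsWithin_le_nhds
    refine le_of_tendsto htend ?_
    have hev : Set.Ioc (0 : ℝ) (1 / (2 * M)) ∈ 𝓝[>] (0 : ℝ) :=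
      Ioc_mem_nhdsGT (by positivity)
    filter_upwards [hev] with t ht
    have h1 := norm_ev_chi h hv hχ hc0 hc t
    have h2 : ∏ β ∈ pos Ψ v, (4 * (t * ⟪β, rho Ψ v⟫)) ≤
        ∏ β ∈ pos Ψ v, |2 * Real.sin (Real.pi * (t * ⟪β, rho Ψ v⟫))| := by
      refine Finset.prod_le_prod (fun β hβ => ?_) fun β hβ => ?_
      · have := hρ β hβ
        have := ht.1
        positivity
      · exact le_abs_two_sin (mul_nonneg ht.1.le (hρ β hβ).le) (hsmall t ht.1 ht.2 β hβ).1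
    have h3 : ∏ β ∈ pos Ψ v, |2 * Real.sin (Real.pi * (t * ⟪β, μ⟫))| ≤
        ∏ β ∈ pos Ψ v, (2 * Real.pi * (t * ⟪β, μ⟫)) := by
      refine Finset.prod_le_prod (fun β _ => abs_nonneg _) fun β hβ => ?_
      exact abs_two_sin_le (mul_nonneg ht.1.le (hμ β hβ).le)
    have h4 : ∏ β ∈ pos Ψ v, (2 * Real.pi * (t * ⟪β, μ⟫)) =
        (∏ β ∈ pos Ψ v, (4 * (t * ⟪β, rho Ψ v⟫))) *
          ∏ β ∈ pos Ψ v, (Real.pi / 2 * (⟪β, μ⟫ / ⟪β, rho Ψ v⟫)) := by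
      rw [← Finset.prod_mul_distrib]
      refine Finset.prod_congr rfl fun β hβ => ?_
      have h7 := (hρ β hβ).ne'
      have h8 : ⟪β, μ⟫ = ⟪β, rho Ψ v⟫ * (⟪β, μ⟫ / ⟪β, rho Ψ v⟫) := (mul_div_cancel₀ _ h7).symm
      nth_rw 1 [h8]
      ring
    have h5 : 0 < ∏ β ∈ pos Ψ v, (4 * (t * ⟪β, rho Ψ v⟫)) := by
      refine Finset.prod_pos fun β hβ => ?_
      have := hρ β hβ
      have := ht.1
      positivity
    have h6 : (∏ β ∈ pos Ψ v, (4 * (t * ⟪β, rho Ψ v⟫))) * ‖ev (t • rho Ψ v) χ‖ ≤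
        (∏ β ∈ pos Ψ v, (4 * (t * ⟪β, rho Ψ v⟫))) *
          (c * ∏ β ∈ pos Ψ v, (Real.pi / 2 * (⟪β, μ⟫ / ⟪β, rho Ψ v⟫))) := by
      calc _ ≤ (∏ β ∈ pos Ψ v, |2 * Real.sin (Real.pi * (t * ⟪β, rho Ψ v⟫))|) *
            ‖ev (t • rho Ψ v) χ‖ := mul_le_mul_of_nonneg_right h2 (norm_nonneg _)
        _ = c * ∏ β ∈ pos Ψ v, |2 * Real.sin (Real.pi * (t * ⟪β, μ⟫))| := h1
        _ ≤ c * ∏ β ∈ pos Ψ v, (2 * Real.pi * (t * ⟪β, μ⟫)) := mul_le_mul_of_nonneg_left h3 hc0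
        _ = _ := by rw [h4]; ring
    exact le_of_mul_le_mul_left h6 h5
  · set t : ℝ := 1 / (2 * M) with ht
    have ht0 : 0 < t := by positivity
    have h1 := norm_ev_chi h hv hχ hc0 hc t
    refine le_trans ?_ (norm_ev_le hpos (t • rho Ψ v))
    have h2 : ∏ β ∈ pos Ψ v, (4 * (t * ⟪β, μ⟫)) ≤
        ∏ β ∈ pos Ψ v, |2 * Real.sin (Real.pi * (t * ⟪β, μ⟫))| := by
      refine Finset.prod_le_prod (fun β hβ => ?_) fun β hβ => ?_
      · have := hμ β hβ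
        positivity
      · exact le_abs_two_sin (mul_nonneg ht0.le (hμ β hβ).le) (hsmall t ht0 le_rfl β hβ).2
    have h3 : ∏ β ∈ pos Ψ v, |2 * Real.sin (Real.pi * (t * ⟪β, rho Ψ v⟫))| ≤
        ∏ β ∈ pos Ψ v, (2 * Real.pi * (t * ⟪β, rho Ψ v⟫)) := by
      refine Finset.prod_le_prod (fun β _ => abs_nonneg _) fun β hβ => ?_
      exact abs_two_sin_le (mul_nonneg ht0.le (hρ β hβ).le)
    have h4 : ∏ β ∈ pos Ψ v, (4 * (t * ⟪β, μ⟫)) =
        (∏ β ∈ pos Ψ v, (2 * Real.pi * (t * ⟪β, rho Ψ v⟫))) *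
          ∏ β ∈ pos Ψ v, (2 / Real.pi * (⟪β, μ⟫ / ⟪β, rho Ψ v⟫)) := by
      rw [← Finset.prod_mul_distrib]
      refine Finset.prod_congr rfl fun β hβ => ?_
      have h7 := (hρ β hβ).ne'
      have h8 : ⟪β, μ⟫ = ⟪β, rho Ψ v⟫ * (⟪β, μ⟫ / ⟪β, rho Ψ v⟫) := (mul_div_cancel₀ _ h7).symm
      have h9 : Real.pi * (2 / Real.pi) = 2 := mul_div_cancel₀ _ Real.pi_ne_zero
      nth_rw 1 [h8]
      linear_combination (-2 * t * ⟪β, rho Ψ v⟫ * (⟪β, μ⟫ / ⟪β, rho Ψ v⟫)) * h9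
    have h5 : 0 < ∏ β ∈ pos Ψ v, (2 * Real.pi * (t * ⟪β, rho Ψ v⟫)) := by
      refine Finset.prod_pos fun β hβ => ?_
      have := hρ β hβ
      positivity
    have h6 : (∏ β ∈ pos Ψ v, (2 * Real.pi * (t * ⟪β, rho Ψ v⟫))) *
        (c * ∏ β ∈ pos Ψ v, (2 / Real.pi * (⟪β, μ⟫ / ⟪β, rho Ψ v⟫))) ≤
        (∏ β ∈ pos Ψ v, (2 * Real.pi * (t * ⟪β, rho Ψ v⟫))) * ‖ev (t • rho Ψ v) χ‖ := by
      calc _ = c * ∏ β ∈ pos Ψ v, (4 * (t * ⟪β, μ⟫)) := by rw [h4]; ring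
        _ ≤ c * ∏ β ∈ pos Ψ v, |2 * Real.sin (Real.pi * (t * ⟪β, μ⟫))| :=
            mul_le_mul_of_nonneg_left h2 hc0
        _ = (∏ β ∈ pos Ψ v, |2 * Real.sin (Real.pi * (t * ⟪β, rho Ψ v⟫))|) *
            ‖ev (t • rho Ψ v) χ‖ := h1.symm
        _ ≤ _ := mul_le_mul_of_nonneg_right h3 (norm_nonneg _)
    exact le_of_mul_le_mul_left h6 h5

omit hv

/-- The upper bound for the alternating sums. -/
theorem alt_upper : ∃ C : ℝ, 0 < C ∧ ∀ μ ∈ Wt Ψ, ∀ x : V,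
    ‖ev x (alt Ψ μ)‖ ^ 2 ≤ C * PP Ψ μ * SS Ψ x := by
  have hpi := Real.pi_pos
  set W : ℝ := (Fintype.card (weyl Ψ) : ℝ) with hW
  have hW0 : 0 < W := by
    have : 0 < Fintype.card (weyl Ψ) := Fintype.card_pos
    rw [hW]
    exact_mod_cast this
  refine ⟨W ^ 2 * ∏ α ∈ Ψ, (Real.pi / ⟪α, α⟫), ?_, ?_⟩
  · apply mul_pos (by positivity)
    refine Finset.prod_pos fun α hα => ?_
    have : 0 < ⟪α, α⟫ := real_inner_self_pos.mpr (h.ne_zero hα)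
    positivity
  intro μ hμ x
  have hC0 : 0 ≤ ∏ α ∈ Ψ, (Real.pi / ⟪α, α⟫) := Finset.prod_nonneg fun α _ =>
    div_nonneg hpi.le (real_inner_self_nonneg)
  by_cases hsing : ∃ α ∈ Ψ, ⟪α, μ⟫ = 0
  · obtain ⟨α, hα, h0⟩ := hsing
    rw [alt_singular h hα (by rw [real_inner_comm]; exact h0)]
    rw [map_zero, norm_zero, zero_pow two_ne_zero]
    exact mul_nonneg (mul_nonneg (mul_nonneg (sq_nonneg W) hC0) (PP_nonneg Ψ μ)) (SS_nonneg Ψ x)
  · push Not at hsing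
    obtain ⟨χ, hχ, hint, hlev⟩ := exists_chi h hsing hμ
    obtain ⟨c, hc1, hc2, hc⟩ := alt_rho h hsing
    have hμ' : ∀ α ∈ pos Ψ μ, 0 < ⟪α, μ⟫ := fun α hα => (mem_pos.mp hα).2
    have hpos := chi_nonneg h hsing hμ' hχ hint hlev
    have hρ : ∀ α ∈ pos Ψ μ, 0 < ⟪α, rho Ψ μ⟫ := fun α hα => by
      rw [real_inner_comm]; exact rho_pos h hsing hα
    have hK := (KK_bounds h hsing hμ' hχ hpos (by linarith) hc).1
    have h1 : ‖ev x (alt Ψ μ)‖ ≤ (W * ∏ β ∈ pos Ψ μ, (Real.pi / ⟪β, β⟫ * |⟪β, μ⟫|)) *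
        ∏ β ∈ pos Ψ μ, |2 * Real.sin (Real.pi * ⟪β, x⟫)| := by
      rw [hχ, map_mul, norm_mul, norm_ev_Del, mul_comm]
      apply mul_le_mul_of_nonneg_right _ (Finset.prod_nonneg fun _ _ => abs_nonneg _)
      refine (norm_ev_le hpos x).trans (hK.trans ?_)
      apply mul_le_mul (hc2) _ _ hW0.le
      · refine Finset.prod_le_prod (fun β hβ => ?_) fun β hβ => ?_
        · have := hρ β hβ
          have := hμ' β hβ
          positivity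
        · have h2 := hρ β hβ
          have h3 := hμ' β hβ
          have hβ' := mem_pos.mp hβ
          have h4 : 0 < ⟪β, β⟫ := real_inner_self_pos.mpr (h.ne_zero hβ'.1)
          obtain ⟨n, hn⟩ := rho_mem_Wt h hsing β hβ'.1
          rw [real_inner_comm] at hn
          have h5 : 0 < (n : ℝ) := by
            by_contra h6
            push Not at h6
            have : (n : ℝ) * ⟪β, β⟫ ≤ 0 := mul_nonpos_of_nonpos_of_nonneg h6 h4.le
            linarith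
          have h6 : (1 : ℝ) ≤ n := by
            have : 0 < n := by exact_mod_cast h5
            exact_mod_cast this
          have h7 : ⟪β, β⟫ ≤ 2 * ⟪β, rho Ψ μ⟫ := by rw [hn]; nlinarith
          rw [abs_of_pos h3]
          rw [div_mul_div_comm, div_mul_eq_mul_div]
          exact div_le_div_of_nonneg_left (by positivity) h4 h7
      · refine Finset.prod_nonneg fun β hβ => ?_
        have := hρ β hβ
        have := hμ' β hβ
        positivity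
    have h2 : ‖ev x (alt Ψ μ)‖ ^ 2 ≤ ((W * ∏ β ∈ pos Ψ μ, (Real.pi / ⟪β, β⟫ * |⟪β, μ⟫|)) *
        ∏ β ∈ pos Ψ μ, |2 * Real.sin (Real.pi * ⟪β, x⟫)|) ^ 2 :=
      pow_le_pow_left₀ (norm_nonneg _) h1 2
    refine h2.trans (le_of_eq ?_)
    unfold PP SS
    rw [prod_even h hsing (fun α => Real.pi / ⟪α, α⟫) (fun α => by rw [inner_neg_neg]),
      prod_even h hsing (fun α => |⟪α, μ⟫|) (fun α => by rw [inner_neg_left, abs_neg]),
      prod_even h hsing (fun α => |2 * Real.sin (Real.pi * ⟪α, x⟫)|) (fun α => by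
        rw [inner_neg_left, mul_neg, Real.sin_neg, mul_neg, abs_neg]),
      Finset.prod_mul_distrib]
    ring

/-- The lower bound for the alternating sums. -/
theorem alt_lower : ∃ c : ℝ, 0 < c ∧ ∀ μ ∈ Wt Ψ, ∀ x : V, ‖μ‖ * ‖x‖ ≤ 1 / 6 →
    c * PP Ψ μ * SS Ψ x ≤ ‖ev x (alt Ψ μ)‖ ^ 2 := by
  have hpi := Real.pi_pos
  set T : ℝ := 1 + (∑ α ∈ Ψ, ‖α‖) ^ 2 with hT
  have hT0 : 0 < T := by positivity
  refine ⟨1 / 4 * ∏ _α ∈ Ψ, (2 / (Real.pi * T)), ?_, ?_⟩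
  · apply mul_pos (by norm_num)
    exact Finset.prod_pos fun α _ => by positivity
  intro μ hμ x hx
  by_cases hsing : ∃ α ∈ Ψ, ⟪α, μ⟫ = 0
  · obtain ⟨α, hα, h0⟩ := hsing
    have h1 : PP Ψ μ = 0 := by
      unfold PP
      exact Finset.prod_eq_zero hα (by rw [h0, abs_zero])
    rw [h1]
    simp
  · push Not at hsing
    obtain ⟨χ, hχ, hint, hlev⟩ := exists_chi h hsing hμ
    obtain ⟨c, hc1, hc2, hc⟩ := alt_rho h hsing
    have hμ' : ∀ α ∈ pos Ψ μ, 0 < ⟪α, μ⟫ := fun α hα => (mem_pos.mp hα).2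
    have hpos := chi_nonneg h hsing hμ' hχ hint hlev
    have hρ : ∀ α ∈ pos Ψ μ, 0 < ⟪α, rho Ψ μ⟫ := fun α hα => by
      rw [real_inner_comm]; exact rho_pos h hsing hα
    have hK := (KK_bounds h hsing hμ' hχ hpos (by linarith) hc).2
    have hev := norm_ev_ge hpos (fun β hβ => chi_norm_le h hsing hlev hβ) hx
    have h1 : (1 / 2 * ∏ β ∈ pos Ψ μ, (2 / (Real.pi * T) * |⟪β, μ⟫|)) *
        ∏ β ∈ pos Ψ μ, |2 * Real.sin (Real.pi * ⟪β, x⟫)| ≤ ‖ev x (alt Ψ μ)‖ := by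
      rw [hχ, map_mul, norm_mul, norm_ev_Del, mul_comm]
      apply mul_le_mul_of_nonneg_left _ (Finset.prod_nonneg fun _ _ => abs_nonneg _)
      refine le_trans ?_ hev
      have h2 : ∏ β ∈ pos Ψ μ, (2 / (Real.pi * T) * |⟪β, μ⟫|) ≤
          c * ∏ β ∈ pos Ψ μ, (2 / Real.pi * (⟪β, μ⟫ / ⟪β, rho Ψ μ⟫)) := by
        have h3 : ∏ β ∈ pos Ψ μ, (2 / (Real.pi * T) * |⟪β, μ⟫|) ≤
            ∏ β ∈ pos Ψ μ, (2 / Real.pi * (⟪β, μ⟫ / ⟪β, rho Ψ μ⟫)) := by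
          refine Finset.prod_le_prod (fun β hβ => by positivity) fun β hβ => ?_
          have h4 := hρ β hβ
          have h5 := hμ' β hβ
          have hβ' := mem_pos.mp hβ
          have hsum : ∀ γ ∈ Ψ, ‖γ‖ ≤ ∑ α ∈ Ψ, ‖α‖ := fun γ hγ =>
            Finset.single_le_sum (f := fun α : V => ‖α‖) (fun _ _ => norm_nonneg _) hγ
          have h6 : ‖rho Ψ μ‖ ≤ ∑ α ∈ Ψ, ‖α‖ := by
            unfold rho
            rw [norm_smul]
            have h7 : ‖∑ α ∈ pos Ψ μ, α‖ ≤ ∑ α ∈ pos Ψ μ, ‖α‖ := norm_sum_le _ _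
            have h8 : ∑ α ∈ pos Ψ μ, ‖α‖ ≤ ∑ α ∈ Ψ, ‖α‖ :=
              Finset.sum_le_sum_of_subset_of_nonneg (fun γ hγ => (mem_pos.mp hγ).1)
                fun _ _ _ => norm_nonneg _
            have h9 : ‖(1 / 2 : ℝ)‖ = 1 / 2 := by norm_num
            rw [h9]
            have h10 : 0 ≤ ‖∑ α ∈ pos Ψ μ, α‖ := norm_nonneg _
            linarith
          have h7 : ⟪β, rho Ψ μ⟫ ≤ T := by
            have h8 := real_inner_le_norm β (rho Ψ μ)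
            have h9 := hsum β hβ'.1
            have h10 : ‖β‖ * ‖rho Ψ μ‖ ≤ (∑ α ∈ Ψ, ‖α‖) * (∑ α ∈ Ψ, ‖α‖) :=
              mul_le_mul h9 h6 (norm_nonneg _) ((norm_nonneg _).trans h9)
            rw [hT]
            nlinarith
          rw [abs_of_pos h5, div_mul_div_comm, div_mul_eq_mul_div]
          exact div_le_div_of_nonneg_left (by positivity) (by positivity)
            (mul_le_mul_of_nonneg_left h7 hpi.le)
        have h4 : 0 ≤ ∏ β ∈ pos Ψ μ, (2 / Real.pi * (⟪β, μ⟫ / ⟪β, rho Ψ μ⟫)) :=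
          Finset.prod_nonneg fun β hβ => by
            have := hρ β hβ
            have := hμ' β hβ
            positivity
        refine h3.trans ?_
        nlinarith
      linarith
    have h2 : ((1 / 2 * ∏ β ∈ pos Ψ μ, (2 / (Real.pi * T) * |⟪β, μ⟫|)) *
        ∏ β ∈ pos Ψ μ, |2 * Real.sin (Real.pi * ⟪β, x⟫)|) ^ 2 ≤ ‖ev x (alt Ψ μ)‖ ^ 2 := by
      apply pow_le_pow_left₀ _ h1 2
      apply mul_nonneg
      · apply mul_nonneg (by norm_num)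
        exact Finset.prod_nonneg fun β _ => by positivity
      · exact Finset.prod_nonneg fun _ _ => abs_nonneg _
    refine le_trans (le_of_eq ?_) h2
    unfold PP SS
    rw [prod_even h hsing (fun _ => 2 / (Real.pi * T)) (fun α => rfl),
      prod_even h hsing (fun α => |⟪α, μ⟫|) (fun α => by rw [inner_neg_left, abs_neg]),
      prod_even h hsing (fun α => |2 * Real.sin (Real.pi * ⟪α, x⟫)|) (fun α => by
        rw [inner_neg_left, mul_neg, Real.sin_neg, mul_neg, abs_neg]),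
      Finset.prod_mul_distrib]
    ring

end

end Pool.Agent.Helper83.AllG
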