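import Mathlib
import Pool.Agent.Helper83.AllG.Bounds

/-!
# Irreducible normalized root systems
-/

set_option autoImplicit false

open Finset
open scoped RealInnerProductSpace

namespace Pool.Agent.Helper83.AllG

variable {V : Type*} [NormedAddCommGroup V] [InnerProductSpace ℝ V] [FiniteDimensional ℝ V]

variable {Φ : Finset V} (h : IsSimple Φ)

include h

theorem IsSimple.rs : RS Φ := h.toRS

/-- An isometry of the Weyl group is determined by its restriction to the roots. -/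
theorem finite_weyl : Finite (weyl Φ) := by
  let f : weyl Φ → (Φ → Φ) := fun w α => ⟨(w : V ≃ₗᵢ[ℝ] V) α, h.rs.weyl_mem w.2 α α.2⟩
  refine Finite.of_injective f ?_
  intro w₁ w₂ hw
  apply Subtype.ext
  have h1 : ∀ α ∈ Φ, (w₁ : V ≃ₗᵢ[ℝ] V) α = (w₂ : V ≃ₗᵢ[ℝ] V) α := by
    intro α hα
    have := congrArg (fun g : Φ → Φ => ((g ⟨α, hα⟩ : Φ) : V)) hw
    exact this
  have h2 : (((w₁ : V ≃ₗᵢ[ℝ] V).toLinearEquiv : V ≃ₗ[ℝ] V) : V →ₗ[ℝ] V) =
      (((w₂ : V ≃ₗᵢ[ℝ] V).toLinearEquiv : V ≃ₗ[ℝ] V) : V →ₗ[ℝ] V) := by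
    apply LinearMap.ext_on h.span
    intro α hα
    exact h1 α hα
  ext x
  exact LinearMap.congr_fun h2 x

omit h in
theorem finite_weyl_sub {Ψ : Finset V} (hΨ : Ψ ⊆ Φ) [Finite (weyl Φ)] : Finite (weyl Ψ) := by
  have hle : weyl Ψ ≤ weyl Φ := by
    apply Subgroup.closure_mono
    exact Set.image_mono (by exact_mod_cast hΨ)
  exact Finite.of_injective (Subgroup.inclusion hle) (Subgroup.inclusion_injective hle)

/-- Every root has a nonzero inner product with a long root. -/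
theorem exists_long {α : V} (hα : α ∈ Φ) : ∃ γ ∈ Φ, ⟪γ, γ⟫ = 2 ∧ ⟪γ, α⟫ ≠ 0 := by
  classical
  by_contra hcon
  push Not at hcon
  set A := Φ.filter (fun β => ∀ γ ∈ Φ, ⟪γ, γ⟫ = 2 → ⟪γ, β⟫ = 0) with hA
  have hαA : α ∈ A := Finset.mem_filter.mpr ⟨hα, hcon⟩
  have hAΦ : A = Φ := by
    refine h.irred A (Finset.filter_subset _ _) ⟨α, hαA⟩ ?_
    intro β hβ δ hδ hδA
    rw [hA, Finset.mem_filter] at hβ hδA
    push Not at hδA
    obtain ⟨γ, hγ, hγ2, hγδ⟩ := hδA hδ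
    have h1 : ⟪sr δ γ, β⟫ = 0 := by
      apply hβ.2 _ (h.rs.refl δ hδ γ hγ)
      rw [(sr δ).inner_map_map, hγ2]
    rw [sr_apply, inner_sub_left, hβ.2 γ hγ hγ2, inner_smul_left] at h1
    simp only [RCLike.conj_to_real, zero_sub, neg_eq_zero] at h1
    have h2 : ⟪δ, δ⟫ ≠ 0 := inner_self_ne_zero.mpr (h.rs.ne_zero hδ)
    have h3 : 2 * ⟪γ, δ⟫ / ⟪δ, δ⟫ ≠ 0 := div_ne_zero (mul_ne_zero two_ne_zero hγδ) h2
    rw [real_inner_comm]
    exact (mul_eq_zero.mp h1).resolve_left h3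
  obtain ⟨θ, hθ, hθ2⟩ := h.exists_two
  have h1 := (Finset.mem_filter.mp (hAΦ ▸ hθ : θ ∈ A)).2 θ hθ hθ2
  rw [hθ2] at h1
  norm_num at h1

/-- 2 / ⟨α, α⟩ is a positive integer. -/
theorem exists_ratio {α : V} (hα : α ∈ Φ) : ∃ m : ℕ, 0 < m ∧ (m : ℝ) * ⟪α, α⟫ = 2 := by
  obtain ⟨γ, hγ, hγ2, hγα⟩ := exists_long h hα
  obtain ⟨p, hp⟩ := h.rs.int α hα γ hγ
  obtain ⟨q, hq⟩ := h.rs.int γ hγ α hα
  rw [hγ2, real_inner_comm] at hq
  have hαα : 0 < ⟪α, α⟫ := real_inner_self_pos.mpr (h.rs.ne_zero hα)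
  have hle := h.le_two α hα
  -- p * |α|^2 = 2 q, p q ≤ 4
  have hpq : (p : ℝ) * ⟪α, α⟫ = 2 * q := by
    rw [← hp, hq]; ring
  have hq0 : q ≠ 0 := by
    rintro rfl
    apply hγα
    have : 2 * ⟪γ, α⟫ = 0 := by rw [hq]; push_cast; ring
    linarith
  have hcs : (p : ℝ) * q ≤ 4 := by
    have h1 := real_inner_mul_inner_self_le γ α
    rw [hγ2] at h1
    have h2 : ((p : ℝ) * q) * ⟪α, α⟫ ≤ 4 * ⟪α, α⟫ := by
      have h3 : ⟪γ, α⟫ = q := by linarith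
      calc ((p : ℝ) * q) * ⟪α, α⟫ = (p * ⟪α, α⟫) * q := by ring
        _ = (2 * ⟪γ, α⟫) * ⟪γ, α⟫ := by rw [← hp, h3]
        _ ≤ 4 * ⟪α, α⟫ := by linarith
    exact le_of_mul_le_mul_right h2 hαα
  have hcs' : p * q ≤ 4 := by exact_mod_cast hcs
  -- |p| ≥ |q| and the same sign
  have hpos : 0 < p * q := by
    have h1 : (0 : ℝ) < (p * ⟪α, α⟫) * q := by
      rw [hpq]
      have : (0 : ℝ) < (q : ℝ) ^ 2 := by positivity
      nlinarith
    have h2 : (0 : ℝ) < (p * q : ℝ) := by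
      by_contra h3
      push Not at h3
      have : (p * ⟪α, α⟫) * q = (p * q) * ⟪α, α⟫ := by ring
      rw [this] at h1
      have := mul_nonpos_of_nonpos_of_nonneg h3 hαα.le
      linarith
    exact_mod_cast h2
  have habs : |q| ≤ |p| := by
    have h1 : |(p : ℝ)| * ⟪α, α⟫ = 2 * |(q : ℝ)| := by
      have := congrArg abs hpq
      rw [abs_mul, abs_mul, abs_of_pos hαα, abs_two] at this
      exact this
    have h2 : |(q : ℝ)| ≤ |(p : ℝ)| := by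
      have h3 := abs_nonneg (p : ℝ)
      nlinarith
    exact_mod_cast h2
  have hcase : |q| = 1 ∨ |p| = |q| := by
    have h1 : |p| * |q| ≤ 4 := by rw [← abs_mul, abs_of_pos hpos]; exact hcs'
    have h2 : 0 < |q| := abs_pos.mpr hq0
    by_contra h3
    push Not at h3
    have h4 : 2 ≤ |q| := by
      rcases lt_or_eq_of_le (Int.add_one_le_iff.mpr h2) with h5 | h5
      · omega
      · exact absurd h5.symm (by simpa using h3.1)
    have h5 : |q| + 1 ≤ |p| := Int.add_one_le_iff.mpr (lt_of_le_of_ne habs (Ne.symm h3.2))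
    nlinarith
  have h1 : |(p : ℝ)| * ⟪α, α⟫ = 2 * |(q : ℝ)| := by
    have := congrArg abs hpq
    rw [abs_mul, abs_mul, abs_of_pos hαα, abs_two] at this
    exact this
  rcases hcase with h2 | h2
  · refine ⟨p.natAbs, ?_, ?_⟩
    · have : p ≠ 0 := by rintro rfl; simp at hpos
      exact Int.natAbs_pos.mpr this
    · have h3 : ((p.natAbs : ℕ) : ℝ) = |(p : ℝ)| := by
        rw [← Int.cast_natCast, Int.natCast_natAbs]; push_cast; rfl
      have h4 : |(q : ℝ)| = 1 := by exact_mod_cast h2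
      rw [h3, h1, h4, mul_one]
  · refine ⟨1, one_pos, ?_⟩
    have h3 : |(p : ℝ)| = |(q : ℝ)| := by exact_mod_cast h2
    have h4 : 0 < |(q : ℝ)| := abs_pos.mpr (by exact_mod_cast hq0)
    rw [h3] at h1
    push_cast
    nlinarith

/-- A common denominator for the ⟨λ, α⟩. -/
theorem exists_denom : ∃ m : ℕ, 0 < m ∧ ∀ x ∈ Wt Φ, ∀ α ∈ Φ, ∃ n : ℤ, (m : ℝ) * ⟪x, α⟫ = n := by
  classical
  have hex : ∀ α : V, ∃ m : ℕ, 0 < m ∧ (α ∈ Φ → (m : ℝ) * ⟪α, α⟫ = 2) := by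
    intro α
    by_cases hα : α ∈ Φ
    · obtain ⟨m, hm0, hm⟩ := exists_ratio h hα
      exact ⟨m, hm0, fun _ => hm⟩
    · exact ⟨1, one_pos, fun h1 => absurd h1 hα⟩
  choose m hm0 hm using hex
  refine ⟨∏ α ∈ Φ, m α, Finset.prod_pos fun α _ => hm0 α, ?_⟩
  intro x hx α hα
  obtain ⟨n, hn⟩ := hx α hα
  refine ⟨(∏ β ∈ Φ.erase α, m β : ℕ) * n, ?_⟩
  rw [← Finset.mul_prod_erase Φ m hα]
  push_cast
  have h1 := hm α hα
  have h2 : (m α : ℝ) * ⟪x, α⟫ = n := by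
    have : 2 * ((m α : ℝ) * ⟪x, α⟫) = 2 * n := by
      calc 2 * ((m α : ℝ) * ⟪x, α⟫) = m α * (2 * ⟪x, α⟫) := by ring
        _ = n * (m α * ⟪α, α⟫) := by rw [hn]; ring
        _ = 2 * n := by rw [h1]; ring
    linarith
  calc (m α : ℝ) * (∏ β ∈ Φ.erase α, (m β : ℝ)) * ⟪x, α⟫ =
      (∏ β ∈ Φ.erase α, (m β : ℝ)) * (m α * ⟪x, α⟫) := by ring
    _ = _ := by rw [h2]

/-- A multiple r y of a vector y with ⟨α, y⟩ an integer is integral for α. -/
theorem smul_int {α y : V} (hα : α ∈ Φ) {n : ℤ} (hn : ⟪α, y⟫ = n) (r : ℕ) :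
    ∃ k : ℤ, 2 * ⟪(r : ℝ) • y, α⟫ = k * ⟪α, α⟫ := by
  obtain ⟨m, _, hm⟩ := exists_ratio h hα
  refine ⟨r * n * m, ?_⟩
  rw [inner_smul_left, real_inner_comm, hn]
  simp only [RCLike.conj_to_real]
  push_cast
  rw [mul_assoc _ (m : ℝ), hm]
  ring

/-- The orbit of a root spans the space. -/
theorem orbit_span {α : V} (hα : α ∈ Φ) :
    Submodule.span ℝ {x | ∃ w ∈ weyl Φ, x = w α} = ⊤ := by
  classical
  set U := Submodule.span ℝ {x | ∃ w ∈ weyl Φ, x = w α} with hU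
  have hstab : ∀ δ ∈ Φ, ∀ x ∈ U, sr δ x ∈ U := by
    intro δ hδ x hx
    induction hx using Submodule.span_induction with
    | mem x hx =>
      obtain ⟨w, hw, rfl⟩ := hx
      exact Submodule.subset_span ⟨sr δ * w, mul_mem (sr_mem_weyl h.rs hδ) hw, rfl⟩
    | zero => rw [map_zero]; exact U.zero_mem
    | add x y _ _ hx hy => rw [map_add]; exact U.add_mem hx hy
    | smul c x _ hx => rw [map_smul]; exact U.smul_mem c hx
  set A := Φ.filter (fun β => β ∈ U) with hA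
  have hαA : α ∈ A := Finset.mem_filter.mpr ⟨hα, Submodule.subset_span ⟨1, one_mem _, rfl⟩⟩
  have hAΦ : A = Φ := by
    refine h.irred A (Finset.filter_subset _ _) ⟨α, hαA⟩ ?_
    intro β hβ δ hδ hδA
    rw [hA, Finset.mem_filter] at hβ hδA
    have hδU : δ ∉ U := fun h1 => hδA ⟨hδ, h1⟩
    have h1 := hstab δ hδ β hβ.2
    rw [sr_apply] at h1
    have h2 : (2 * ⟪β, δ⟫ / ⟪δ, δ⟫) • δ ∈ U := by
      have h3 := U.sub_mem hβ.2 h1
      rwa [sub_sub_cancel] at h3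
    by_contra h3
    apply hδU
    have h4 : ⟪δ, δ⟫ ≠ 0 := inner_self_ne_zero.mpr (h.rs.ne_zero hδ)
    have h5 : 2 * ⟪β, δ⟫ / ⟪δ, δ⟫ ≠ 0 := div_ne_zero (mul_ne_zero two_ne_zero h3) h4
    exact (U.smul_mem_iff h5).mp h2
  rw [eq_top_iff, ← h.span]
  apply Submodule.span_le.mpr
  intro β hβ
  have h1 : β ∈ A := hAΦ ▸ hβ
  exact (Finset.mem_filter.mp h1).2

omit h in
/-- The roots with an integral value at y. -/
noncomputable def loc (Φ : Finset V) (y : V) : Finset V := by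
  classical
  exact Φ.filter fun α => ∃ n : ℤ, ⟪α, y⟫ = n

omit h in
theorem mem_loc {y α : V} : α ∈ loc Φ y ↔ α ∈ Φ ∧ ∃ n : ℤ, ⟪α, y⟫ = n := by
  unfold loc
  simp

omit h in
theorem loc_sub (y : V) : loc Φ y ⊆ Φ := fun _ hα => (mem_loc.mp hα).1

theorem loc_rs (y : V) : RS (loc Φ y) where
  zero := fun h0 => h.rs.zero (loc_sub y h0)
  refl := by
    intro α hα β hβ
    rw [mem_loc] at hα hβ ⊢
    refine ⟨h.rs.refl α hα.1 β hβ.1, ?_⟩
    obtain ⟨m, hm⟩ := hα.2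
    obtain ⟨n, hn⟩ := hβ.2
    obtain ⟨k, hk⟩ := h.rs.int α hα.1 β hβ.1
    refine ⟨n - k * m, ?_⟩
    have hαα : ⟪α, α⟫ ≠ 0 := inner_self_ne_zero.mpr (h.rs.ne_zero hα.1)
    rw [sr_apply, hk, mul_div_assoc, div_self hαα, mul_one, inner_sub_left, inner_smul_left, hm, hn]
    push_cast
    simp
  int := fun α hα β hβ => h.rs.int α (loc_sub y hα) β (loc_sub y hβ)
  red := fun α hα c hc => h.rs.red α (loc_sub y hα) c (loc_sub y hc)

omit h in
theorem Wt_sub {Ψ : Finset V} (hΨ : Ψ ⊆ Φ) {x : V} (hx : x ∈ Wt Φ) : x ∈ Wt Ψ :=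
  fun α hα => hx α (hΨ hα)

/-- The local Weyl group moves the ⟨λ, y⟩ by integers. -/
theorem loc_shift (y : V) {u : V ≃ₗᵢ[ℝ] V} (hu : u ∈ weyl (loc Φ y)) :
    ∀ x ∈ Wt (loc Φ y), ∃ n : ℤ, ⟪u x, y⟫ - ⟪x, y⟫ = n := by
  have hrs := loc_rs h y
  induction hu using Subgroup.closure_induction with
  | mem w hw =>
    obtain ⟨α, hα, rfl⟩ := hw
    intro x hx
    have hα' := mem_loc.mp hα
    obtain ⟨n, hn⟩ := hx α hα
    obtain ⟨m, hm⟩ := hα'.2
    refine ⟨-(n * m), ?_⟩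
    have hαα : ⟪α, α⟫ ≠ 0 := inner_self_ne_zero.mpr (h.rs.ne_zero hα'.1)
    rw [sr_apply, hn, mul_div_assoc, div_self hαα, mul_one, inner_sub_left, inner_smul_left, hm]
    push_cast
    simp
  | one => intro x _; exact ⟨0, by simp⟩
  | mul a b _ hb0 ha hb =>
    intro x hx
    obtain ⟨n, hn⟩ := hb x hx
    obtain ⟨m, hm⟩ := ha (b x) (hrs.weyl_Wt hb0 hx)
    refine ⟨m + n, ?_⟩
    have : (a * b) x = a (b x) := rfl
    rw [this]
    push_cast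
    linarith
  | inv a ha0 ha =>
    intro x hx
    have hx' : a⁻¹ x ∈ Wt (loc Φ y) := hrs.weyl_Wt (Subgroup.inv_mem _ ha0) hx
    obtain ⟨n, hn⟩ := ha (a⁻¹ x) hx'
    have h1 : a (a⁻¹ x) = x := a.apply_symm_apply x
    rw [h1] at hn
    exact ⟨-n, by push_cast; linarith⟩

end Pool.Agent.Helper83.AllG
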