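import Mathlib
import Pool.Agent.Helper83.AllG.Simple

/-!
# The bound for the entries of the S-matrix by the quantum dimensions
-/

set_option autoImplicit false

open Finset Filter Topology
open scoped RealInnerProductSpace

namespace Pool.Agent.Helper83.AllG

variable {V : Type*} [NormedAddCommGroup V] [InnerProductSpace ℝ V] [FiniteDimensional ℝ V]

variable {Φ : Finset V} (h : IsSimple Φ) [Fintype (weyl Φ)] {v : V} (hv : ∀ α ∈ Φ, ⟪α, v⟫ ≠ 0)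

omit [Fintype (weyl Φ)] in
theorem SS_weyl (h : IsSimple Φ) {w : V ≃ₗᵢ[ℝ] V} (hw : w ∈ weyl Φ) (x : V) : SS Φ (w x) = SS Φ x := by
  classical
  unfold SS
  have himg : Φ.image w = Φ := by
    apply Finset.eq_of_subset_of_card_le
    · intro β hβ
      obtain ⟨γ, hγ, rfl⟩ := Finset.mem_image.mp hβ
      exact h.rs.weyl_mem hw γ hγ
    · rw [Finset.card_image_of_injective _ w.injective]
  conv_lhs => rw [← himg]
  rw [Finset.prod_image (fun a _ b _ hab => w.injective hab)]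
  refine Finset.prod_congr rfl fun α _ => ?_
  rw [w.inner_map_map]

theorem abs_sin_add_int (s t : ℝ) (n : ℤ) (hst : s - t = n) :
    |Real.sin (Real.pi * s)| = |Real.sin (Real.pi * t)| := by
  have h1 : Real.pi * s = Real.pi * t + n * Real.pi := by
    have : s = t + n := by linarith
    rw [this]; ring
  rw [h1, Real.sin_add_int_mul_pi, abs_mul]
  rcases Int.even_or_odd n with hn | hn
  · rw [hn.neg_one_zpow]; simp
  · rw [hn.neg_one_zpow]; simp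

omit [Fintype (weyl Φ)] in
/-- The sine of the label over r is at least c / r. -/
theorem exists_sine_lower (h : IsSimple Φ) (hv : ∀ α ∈ Φ, ⟪α, v⟫ ≠ 0) : ∃ c : ℝ, 0 < c ∧ c ≤ 1 ∧
    ∀ r : ℕ, 1 ≤ r → ∀ x ∈ labels Φ v r, ∀ α ∈ Φ,
    c / r ≤ |2 * Real.sin (Real.pi * ⟪α, (1 / (r : ℝ)) • x⟫)| := by
  obtain ⟨m, hm0, hm⟩ := exists_denom h
  have hm0' : (0 : ℝ) < m := by exact_mod_cast hm0
  have hm1 : (1 : ℝ) ≤ m := by exact_mod_cast hm0
  refine ⟨1 / m, by positivity, by rw [div_le_iff₀ hm0']; linarith, ?_⟩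
  intro r hr x hx α hα
  have hr0 : (0 : ℝ) < r := by exact_mod_cast hr
  -- reduce to positive roots
  have key : ∀ α ∈ pos Φ v, 1 / (m : ℝ) / r ≤ |2 * Real.sin (Real.pi * ⟪α, (1 / (r : ℝ)) • x⟫)| := by
    intro α hα
    obtain ⟨n, hn⟩ := hm x hx.1 α (mem_pos.mp hα).1
    obtain ⟨h1, h2⟩ := hx.2 α hα
    have h3 : 0 < n := by
      have : (0 : ℝ) < n := by rw [← hn]; positivity
      exact_mod_cast this
    have h4 : n < m * r := by
      have : (n : ℝ) < m * r := by rw [← hn]; exact mul_lt_mul_of_pos_left h2 hm0'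
      exact_mod_cast this
    have h3' : (1 : ℝ) ≤ n := by exact_mod_cast h3
    have h4' : (n : ℝ) + 1 ≤ m * r := by exact_mod_cast h4
    have h5 : 1 / (m : ℝ) ≤ ⟪x, α⟫ := by
      rw [div_le_iff₀ hm0']; linarith
    have h6 : 1 / (m : ℝ) ≤ r - ⟪x, α⟫ := by
      rw [div_le_iff₀ hm0']; linarith
    set s : ℝ := ⟪x, α⟫ / r with hs
    have hs' : ⟪α, (1 / (r : ℝ)) • x⟫ = s := by
      rw [inner_smul_right, real_inner_comm, hs]; ring
    rw [hs']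
    have h7 : 1 / (m : ℝ) / r ≤ s := div_le_div_of_nonneg_right h5 hr0.le
    have h8 : 1 / (m : ℝ) / r ≤ 1 - s := by
      have : 1 - s = (r - ⟪x, α⟫) / r := by rw [hs]; field_simp
      rw [this]
      exact div_le_div_of_nonneg_right h6 hr0.le
    have h9 : 0 < 1 / (m : ℝ) / r := by positivity
    rcases le_total s (1 / 2) with h10 | h10
    · have := le_abs_two_sin (by linarith) h10
      linarith
    · have h11 := le_abs_two_sin (s := 1 - s) (by linarith) (by linarith)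
      have h12 : Real.sin (Real.pi * (1 - s)) = Real.sin (Real.pi * s) := by
        rw [mul_sub, mul_one, Real.sin_pi_sub]
      rw [h12] at h11
      linarith
  rcases lt_or_gt_of_ne (hv α hα) with h1 | h1
  · have h2 := key (-α) (mem_pos.mpr ⟨h.rs.neg_mem hα, by rw [inner_neg_left]; linarith⟩)
    rw [inner_neg_left, mul_neg, Real.sin_neg, mul_neg, abs_neg] at h2
    exact h2
  · exact key α (mem_pos.mpr ⟨hα, h1⟩)

/-- Splitting of the alternating sum along the local Weyl group. -/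
theorem alt_split (h : IsSimple Φ) (y₀ z x : V) (hx : x ∈ Wt Φ) (Ψ : Finset V) (hΨ : Ψ = loc Φ y₀)
    [Fintype (weyl Ψ)] :
    ‖ev (y₀ + z) (alt Φ x)‖ ≤
      ∑ g : weyl Φ, ‖ev z (alt Ψ ((g : V ≃ₗᵢ[ℝ] V) x))‖ := by
  classical
  have hΨΦ : Ψ ⊆ Φ := hΨ ▸ loc_sub y₀
  have hle : weyl Ψ ≤ weyl Φ := by
    apply Subgroup.closure_mono
    exact Set.image_mono (by exact_mod_cast hΨΦ)
  have hterm : ∀ u : weyl Ψ, ev (y₀ + z) (alt Φ x) = ∑ g : weyl Φ,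
      ((sgn ((u : V ≃ₗᵢ[ℝ] V) * (g : V ≃ₗᵢ[ℝ] V)) : ℝ) : ℂ) *
        Complex.exp (2 * Real.pi * Complex.I *
          ((⟪(u : V ≃ₗᵢ[ℝ] V) ((g : V ≃ₗᵢ[ℝ] V) x), y₀ + z⟫ : ℝ) : ℂ)) := by
    intro u
    rw [ev_alt]
    refine (Fintype.sum_equiv (Equiv.mulLeft (⟨u, hle u.2⟩ : weyl Φ)) _ _ fun g => ?_).symm
    simp only [Equiv.coe_mulLeft, Subgroup.coe_mul]
    rfl
  have hsum : (Fintype.card (weyl Ψ) : ℂ) * ev (y₀ + z) (alt Φ x) = ∑ g : weyl Φ, ∑ u : weyl Ψ,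
      ((sgn ((u : V ≃ₗᵢ[ℝ] V) * (g : V ≃ₗᵢ[ℝ] V)) : ℝ) : ℂ) *
        Complex.exp (2 * Real.pi * Complex.I *
          ((⟪(u : V ≃ₗᵢ[ℝ] V) ((g : V ≃ₗᵢ[ℝ] V) x), y₀ + z⟫ : ℝ) : ℂ)) := by
    rw [Finset.sum_comm, ← nsmul_eq_mul, ← Finset.card_univ, ← Finset.sum_const]
    exact Finset.sum_congr rfl fun u _ => hterm u
  have hinner : ∀ g : weyl Φ, ∑ u : weyl Ψ,
      ((sgn ((u : V ≃ₗᵢ[ℝ] V) * (g : V ≃ₗᵢ[ℝ] V)) : ℝ) : ℂ) *
        Complex.exp (2 * Real.pi * Complex.I *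
          ((⟪(u : V ≃ₗᵢ[ℝ] V) ((g : V ≃ₗᵢ[ℝ] V) x), y₀ + z⟫ : ℝ) : ℂ)) =
      ((sgn (g : V ≃ₗᵢ[ℝ] V) : ℝ) : ℂ) *
        Complex.exp (2 * Real.pi * Complex.I * ((⟪(g : V ≃ₗᵢ[ℝ] V) x, y₀⟫ : ℝ) : ℂ)) *
        ev z (alt Ψ ((g : V ≃ₗᵢ[ℝ] V) x)) := by
    intro g
    rw [ev_alt, Finset.mul_sum]
    refine Finset.sum_congr rfl fun u _ => ?_
    have hu : (u : V ≃ₗᵢ[ℝ] V) ∈ weyl (loc Φ y₀) := hΨ ▸ u.2
    obtain ⟨n, hn⟩ := loc_shift h y₀ hu ((g : V ≃ₗᵢ[ℝ] V) x)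
      (Wt_sub (loc_sub y₀) (h.rs.weyl_Wt g.2 hx))
    have h1 : Complex.exp (2 * Real.pi * Complex.I *
        ((⟪(u : V ≃ₗᵢ[ℝ] V) ((g : V ≃ₗᵢ[ℝ] V) x), y₀ + z⟫ : ℝ) : ℂ)) =
        Complex.exp (2 * Real.pi * Complex.I * ((⟪(g : V ≃ₗᵢ[ℝ] V) x, y₀⟫ : ℝ) : ℂ)) *
        Complex.exp (2 * Real.pi * Complex.I *
          ((⟪(u : V ≃ₗᵢ[ℝ] V) ((g : V ≃ₗᵢ[ℝ] V) x), z⟫ : ℝ) : ℂ)) := by
      have h2 : Complex.exp (2 * Real.pi * Complex.I * ((⟪(g : V ≃ₗᵢ[ℝ] V) x, y₀⟫ : ℝ) : ℂ)) =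
          Complex.exp (2 * Real.pi * Complex.I *
            ((⟪(u : V ≃ₗᵢ[ℝ] V) ((g : V ≃ₗᵢ[ℝ] V) x), y₀⟫ : ℝ) : ℂ)) := by
        rw [exp_eq_iff]
        exact ⟨-n, by push_cast; linarith⟩
      rw [h2, ← Complex.exp_add, inner_add_right]
      congr 1
      push_cast
      ring
    rw [h1, map_mul]
    push_cast
    ring
  rw [Finset.sum_congr rfl fun g _ => hinner g] at hsum
  have hcard : (1 : ℝ) ≤ Fintype.card (weyl Ψ) := by
    have : 1 ≤ Fintype.card (weyl Ψ) := Fintype.card_pos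
    exact_mod_cast this
  have hnorm : (Fintype.card (weyl Ψ) : ℝ) * ‖ev (y₀ + z) (alt Φ x)‖ ≤
      ∑ g : weyl Φ, ‖ev z (alt Ψ ((g : V ≃ₗᵢ[ℝ] V) x))‖ := by
    have h1 := congrArg norm hsum
    rw [norm_mul, Complex.norm_natCast] at h1
    rw [h1]
    refine (norm_sum_le _ _).trans (Finset.sum_le_sum fun g _ => ?_)
    rw [norm_mul, norm_mul, norm_exp_ev, mul_one, Complex.norm_real, Real.norm_eq_abs]
    have h2 : |sgn (g : V ≃ₗᵢ[ℝ] V)| = 1 := by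
      rcases h.rs.sgn_sq g.2 with h3 | h3 <;> rw [h3] <;> norm_num
    rw [h2, one_mul]
  have h0 := norm_nonneg (ev (y₀ + z) (alt Φ x))
  nlinarith

/-- The bound near y₀. -/
theorem Q_local (h : IsSimple Φ) (hv : ∀ α ∈ Φ, ⟪α, v⟫ ≠ 0) (y₀ : V) :
    ∃ U ∈ 𝓝 y₀, ∃ C : ℝ, 0 < C ∧ ∀ r : ℕ, 1 ≤ r → ∀ x ∈ labels Φ v r, ∀ y ∈ labels Φ v r,
      (1 / (r : ℝ)) • y ∈ U → ‖ev ((1 / (r : ℝ)) • y) (alt Φ x)‖ ^ 2 ≤
        C * (r : ℝ) ^ Φ.card * SS Φ ((1 / (r : ℝ)) • x) * SS Φ ((1 / (r : ℝ)) • y) := by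
  classical
  set Ψ := loc Φ y₀ with hΨ
  have hΨΦ : Ψ ⊆ Φ := loc_sub y₀
  haveI : Finite (weyl Ψ) := finite_weyl_sub hΨΦ
  haveI : Fintype (weyl Ψ) := Fintype.ofFinite _
  have hrs : RS Ψ := loc_rs h y₀
  obtain ⟨C₁, hC₁, hup⟩ := alt_upper hrs
  obtain ⟨c, hc0, hc1, hsin⟩ := exists_sine_lower (v := v) h hv
  -- a positive lower bound for the sines of the other roots at y₀
  obtain ⟨δ, hδ0, hδ⟩ : ∃ δ : ℝ, 0 < δ ∧ ∀ α ∈ Φ \ Ψ, δ < |2 * Real.sin (Real.pi * ⟪α, y₀⟫)| := by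
    have hpos : ∀ α ∈ Φ \ Ψ, 0 < |2 * Real.sin (Real.pi * ⟪α, y₀⟫)| := by
      intro α hα
      rw [Finset.mem_sdiff] at hα
      rw [abs_pos]
      intro h0
      have h1 : Real.sin (Real.pi * ⟪α, y₀⟫) = 0 := by linarith
      rw [Real.sin_eq_zero_iff] at h1
      obtain ⟨n, hn⟩ := h1
      apply hα.2
      rw [hΨ, mem_loc]
      refine ⟨hα.1, n, ?_⟩
      have := Real.pi_ne_zero
      have h2 : Real.pi * ⟪α, y₀⟫ = Real.pi * n := by rw [← hn]; ring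
      exact mul_left_cancel₀ this h2
    rcases (Φ \ Ψ).eq_empty_or_nonempty with h0 | h0
    · exact ⟨1, one_pos, by rw [h0]; simp⟩
    · obtain ⟨α₀, hα₀, hmin⟩ := Finset.exists_min_image (Φ \ Ψ)
        (fun α => |2 * Real.sin (Real.pi * ⟪α, y₀⟫)|) h0
      refine ⟨|2 * Real.sin (Real.pi * ⟪α₀, y₀⟫)| / 2, by have := hpos α₀ hα₀; positivity, ?_⟩
      intro α hα
      have h1 := hmin α hα
      have h2 := hpos α₀ hα₀
      linarith
  have hU : ∀ᶠ y in 𝓝 y₀, (∀ α ∈ Φ \ Ψ, δ < |2 * Real.sin (Real.pi * ⟪α, y⟫)|) ∧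
      (∀ α ∈ Ψ, |⟪α, y - y₀⟫| < 1 / 2) := by
    apply Filter.Eventually.and
    · rw [Filter.eventually_all_finset]
      intro α hα
      have hcont : Continuous fun y : V => |2 * Real.sin (Real.pi * ⟪α, y⟫)| := by fun_prop
      exact hcont.continuousAt.eventually_const_lt (hδ α hα)
    · rw [Filter.eventually_all_finset]
      intro α hα
      have hcont : Continuous fun y : V => |⟪α, y - y₀⟫| := by fun_prop
      have h0 : |⟪α, y₀ - y₀⟫| < 1 / 2 := by simp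
      exact hcont.continuousAt.eventually_lt_const h0
  refine ⟨{y | (∀ α ∈ Φ \ Ψ, δ < |2 * Real.sin (Real.pi * ⟪α, y⟫)|) ∧
      (∀ α ∈ Ψ, |⟪α, y - y₀⟫| < 1 / 2)}, hU, ?_⟩
  set W : ℝ := (Fintype.card (weyl Φ) : ℝ) with hW
  have hW0 : 0 < W := by
    have : 0 < Fintype.card (weyl Φ) := Fintype.card_pos
    rw [hW]
    exact_mod_cast this
  refine ⟨W ^ 2 * C₁ * (1 / δ) ^ (Φ \ Ψ).card * (1 / c) ^ (Φ \ Ψ).card, by positivity, ?_⟩
  intro r hr x hx y hy hyU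
  have hr0 : (0 : ℝ) < r := by exact_mod_cast hr
  set y' := (1 / (r : ℝ)) • y with hy'
  set z := y' - y₀ with hz
  have hy'z : y' = y₀ + z := by rw [hz]; abel
  -- r z is integral
  have hrz : (r : ℝ) • z ∈ Wt Ψ := by
    have h1 : (r : ℝ) • z = y - (r : ℝ) • y₀ := by
      rw [hz, hy', smul_sub, smul_smul, mul_one_div_cancel hr0.ne', one_smul]
    rw [h1]
    refine (Wt Ψ).sub_mem (Wt_sub hΨΦ hy.1) ?_
    intro α hα
    obtain ⟨hα1, n, hn⟩ := mem_loc.mp hα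
    exact smul_int h hα1 hn r
  -- the first factor
  have hPP : PP Ψ ((r : ℝ) • z) ≤ (r : ℝ) ^ Ψ.card * SS Ψ y' := by
    unfold PP SS
    rw [← Finset.prod_const, ← Finset.prod_mul_distrib]
    refine Finset.prod_le_prod (fun _ _ => abs_nonneg _) fun α hα => ?_
    rw [inner_smul_right, abs_mul, abs_of_pos hr0]
    apply mul_le_mul_of_nonneg_left _ hr0.le
    obtain ⟨hα1, n, hn⟩ := mem_loc.mp hα
    have h1 : |⟪α, z⟫| < 1 / 2 := hyU.2 α hα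
    have h2 : |2 * Real.sin (Real.pi * ⟪α, y'⟫)| = |2 * Real.sin (Real.pi * |⟪α, z⟫|)| := by
      rw [abs_mul, abs_mul]
      congr 1
      rw [abs_sin_add_int ⟪α, y'⟫ ⟪α, z⟫ n (by rw [hy'z, inner_add_right, hn]; ring)]
      rcases abs_choice ⟪α, z⟫ with h3 | h3 <;> rw [h3]
      rw [mul_neg, Real.sin_neg, abs_neg]
    rw [h2]
    have h3 := le_abs_two_sin (abs_nonneg ⟪α, z⟫) h1.le
    have h4 := abs_nonneg ⟪α, z⟫
    linarith
  have hSS : SS Ψ y' ≤ (1 / δ) ^ (Φ \ Ψ).card * SS Φ y' := by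
    have h1 : SS Φ y' = (∏ α ∈ Φ \ Ψ, |2 * Real.sin (Real.pi * ⟪α, y'⟫)|) * SS Ψ y' := by
      unfold SS
      rw [Finset.prod_sdiff hΨΦ]
    have h2 : δ ^ (Φ \ Ψ).card ≤ ∏ α ∈ Φ \ Ψ, |2 * Real.sin (Real.pi * ⟪α, y'⟫)| := by
      rw [← Finset.prod_const]
      exact Finset.prod_le_prod (fun _ _ => hδ0.le) fun α hα => (hyU.1 α hα).le
    rw [h1]
    calc SS Ψ y' = (1 / δ) ^ (Φ \ Ψ).card * (δ ^ (Φ \ Ψ).card * SS Ψ y') := by
          rw [← mul_assoc, ← mul_pow, one_div_mul_cancel hδ0.ne', one_pow, one_mul]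
      _ ≤ _ := by
          apply mul_le_mul_of_nonneg_left _ (by positivity)
          exact mul_le_mul_of_nonneg_right h2 (SS_nonneg _ _)
  -- the second factor
  have hSx : ∀ g : weyl Φ, SS Ψ ((1 / (r : ℝ)) • (g : V ≃ₗᵢ[ℝ] V) x) ≤
      ((1 / c) * r) ^ (Φ \ Ψ).card * SS Φ ((1 / (r : ℝ)) • x) := by
    intro g
    have h0 : SS Φ ((1 / (r : ℝ)) • x) = SS Φ ((1 / (r : ℝ)) • (g : V ≃ₗᵢ[ℝ] V) x) := by
      rw [← map_smul, SS_weyl h g.2]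
    rw [h0]
    set x' := (1 / (r : ℝ)) • (g : V ≃ₗᵢ[ℝ] V) x with hx'
    have h1 : SS Φ x' = (∏ α ∈ Φ \ Ψ, |2 * Real.sin (Real.pi * ⟪α, x'⟫)|) * SS Ψ x' := by
      unfold SS
      rw [Finset.prod_sdiff hΨΦ]
    have h2 : (c / r) ^ (Φ \ Ψ).card ≤ ∏ α ∈ Φ \ Ψ, |2 * Real.sin (Real.pi * ⟪α, x'⟫)| := by
      rw [← Finset.prod_const]
      refine Finset.prod_le_prod (fun _ _ => by positivity) fun α hα => ?_
      have hα' := (Finset.mem_sdiff.mp hα).1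
      have h3 : ((g : V ≃ₗᵢ[ℝ] V)⁻¹) α ∈ Φ := h.rs.weyl_mem (Subgroup.inv_mem _ g.2) α hα'
      have h4 := hsin r hr x hx _ h3
      have h5 : ⟪α, x'⟫ = ⟪((g : V ≃ₗᵢ[ℝ] V)⁻¹) α, (1 / (r : ℝ)) • x⟫ := by
        have h6 : (g : V ≃ₗᵢ[ℝ] V) (((g : V ≃ₗᵢ[ℝ] V)⁻¹) α) = α := (g : V ≃ₗᵢ[ℝ] V).apply_symm_apply α
        rw [hx', ← map_smul]
        conv_lhs => rw [← h6, (g : V ≃ₗᵢ[ℝ] V).inner_map_map]
      rw [h5]
      exact h4
    rw [h1]
    calc SS Ψ x' = ((1 / c) * r) ^ (Φ \ Ψ).card * ((c / r) ^ (Φ \ Ψ).card * SS Ψ x') := by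
          rw [← mul_assoc, ← mul_pow]
          have : 1 / c * r * (c / r) = 1 := by field_simp
          rw [this, one_pow, one_mul]
      _ ≤ _ := by
          apply mul_le_mul_of_nonneg_left _ (by positivity)
          exact mul_le_mul_of_nonneg_right h2 (SS_nonneg _ _)
  -- one term
  set B : ℝ := C₁ * ((r : ℝ) ^ Ψ.card * ((1 / δ) ^ (Φ \ Ψ).card * SS Φ y')) *
    (((1 / c) * r) ^ (Φ \ Ψ).card * SS Φ ((1 / (r : ℝ)) • x)) with hB
  have hB0 : 0 ≤ B := by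
    have h1 := SS_nonneg Φ y'
    have h2 := SS_nonneg Φ ((1 / (r : ℝ)) • x)
    positivity
  have hone : ∀ g : weyl Φ, ‖ev z (alt Ψ ((g : V ≃ₗᵢ[ℝ] V) x))‖ ≤ Real.sqrt B := by
    intro g
    apply Real.le_sqrt_of_sq_le
    have h1 : ev z (alt Ψ ((g : V ≃ₗᵢ[ℝ] V) x)) =
        ev ((1 / (r : ℝ)) • (g : V ≃ₗᵢ[ℝ] V) x) (alt Ψ ((r : ℝ) • z)) := by
      rw [← ev_alt_symm hrs, smul_smul, one_div_mul_cancel hr0.ne', one_smul]
    rw [h1]
    refine (hup _ hrz _).trans ?_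
    rw [hB]
    apply mul_le_mul _ (hSx g) (SS_nonneg _ _)
    · have h2 := SS_nonneg Φ y'
      positivity
    · apply mul_le_mul_of_nonneg_left _ hC₁.le
      exact hPP.trans (mul_le_mul_of_nonneg_left hSS (by positivity))
  have hall : ‖ev y' (alt Φ x)‖ ≤ W * Real.sqrt B := by
    rw [hy'z]
    refine (alt_split h y₀ z x hx.1 Ψ hΨ).trans ?_
    refine (Finset.sum_le_sum fun g _ => hone g).trans ?_
    rw [Finset.sum_const, Finset.card_univ, nsmul_eq_mul]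
  calc ‖ev y' (alt Φ x)‖ ^ 2 ≤ (W * Real.sqrt B) ^ 2 := pow_le_pow_left₀ (norm_nonneg _) hall 2
    _ = W ^ 2 * B := by rw [mul_pow, Real.sq_sqrt hB0]
    _ = _ := by
        rw [hB, mul_pow]
        have hcard : (r : ℝ) ^ Φ.card = (r : ℝ) ^ Ψ.card * (r : ℝ) ^ (Φ \ Ψ).card := by
          rw [← pow_add, Finset.card_sdiff_of_subset hΨΦ]
          congr 1
          have := Finset.card_le_card hΨΦ
          omega
        rw [hcard]
        ring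

omit [Fintype (weyl Φ)] in
/-- The closed alcoves are bounded. -/
theorem isCompact_K (h : IsSimple Φ) : IsCompact {y : V | ∀ α ∈ Φ, |⟪α, y⟫| ≤ 1} := by
  have hclosed : IsClosed {y : V | ∀ α ∈ Φ, |⟪α, y⟫| ≤ 1} := by
    have : {y : V | ∀ α ∈ Φ, |⟪α, y⟫| ≤ 1} = ⋂ α ∈ Φ, {y : V | |⟪α, y⟫| ≤ 1} := by
      ext y; simp
    rw [this]
    exact isClosed_biInter fun α _ => isClosed_le (by fun_prop) continuous_const
  let T : V →ₗ[ℝ] (Φ → ℝ) := LinearMap.pi fun α => (innerSL ℝ (α : V)).toLinearMap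
  have hT : LinearMap.ker T = ⊥ := by
    rw [LinearMap.ker_eq_bot']
    intro y hy
    have h1 : ∀ x ∈ Submodule.span ℝ (Φ : Set V), ⟪x, y⟫ = 0 := by
      intro x hx
      induction hx using Submodule.span_induction with
      | mem x hx => exact congrFun hy ⟨x, hx⟩
      | zero => simp
      | add a b _ _ ha hb => rw [inner_add_left, ha, hb, add_zero]
      | smul c a _ ha => rw [inner_smul_left, ha, mul_zero]
    have h2 := h1 y (by rw [h.span]; exact Submodule.mem_top)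
    exact inner_self_eq_zero.mp h2
  obtain ⟨K, _, hK⟩ := T.exists_antilipschitzWith hT
  have hbdd : Bornology.IsBounded {y : V | ∀ α ∈ Φ, |⟪α, y⟫| ≤ 1} := by
    rw [isBounded_iff_forall_norm_le]
    refine ⟨K * 1, fun y hy => ?_⟩
    have h1 := hK.le_mul_dist y 0
    rw [map_zero, dist_zero_right, dist_zero_right] at h1
    refine h1.trans ?_
    apply mul_le_mul_of_nonneg_left _ (NNReal.coe_nonneg K)
    rw [pi_norm_le_iff_of_nonneg zero_le_one]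
    intro α
    exact hy α α.2
  exact Metric.isCompact_of_isClosed_isBounded hclosed hbdd

/-- The bound of the S-matrix by the quantum dimensions. -/
theorem Q_bound (h : IsSimple Φ) (hv : ∀ α ∈ Φ, ⟪α, v⟫ ≠ 0) :
    ∃ C : ℝ, 0 < C ∧ ∀ r : ℕ, 1 ≤ r → ∀ x ∈ labels Φ v r, ∀ y ∈ labels Φ v r,
      ‖ev ((1 / (r : ℝ)) • y) (alt Φ x)‖ ^ 2 ≤
        C * (r : ℝ) ^ Φ.card * SS Φ ((1 / (r : ℝ)) • x) * SS Φ ((1 / (r : ℝ)) • y) := by
  have key := (isCompact_K h).induction_on (p := fun U => ∃ C : ℝ, 0 < C ∧ ∀ r : ℕ, 1 ≤ r →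
      ∀ x ∈ labels Φ v r, ∀ y ∈ labels Φ v r,
      (1 / (r : ℝ)) • y ∈ U → ‖ev ((1 / (r : ℝ)) • y) (alt Φ x)‖ ^ 2 ≤
        C * (r : ℝ) ^ Φ.card * SS Φ ((1 / (r : ℝ)) • x) * SS Φ ((1 / (r : ℝ)) • y))
    ⟨1, one_pos, fun _ _ _ _ _ _ hU => absurd hU (Set.notMem_empty _)⟩
    (by
      rintro s t hst ⟨C, hC, hCt⟩
      exact ⟨C, hC, fun r hr x hx y hy hys => hCt r hr x hx y hy (hst hys)⟩)
    (by
      rintro s t ⟨C₁, hC₁, h₁⟩ ⟨C₂, hC₂, h₂⟩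
      refine ⟨C₁ + C₂, by positivity, fun r hr x hx y hy hys => ?_⟩
      have hn1 := SS_nonneg Φ ((1 / (r : ℝ)) • x)
      have hn2 := SS_nonneg Φ ((1 / (r : ℝ)) • y)
      have hn3 : 0 ≤ (r : ℝ) ^ Φ.card * SS Φ ((1 / (r : ℝ)) • x) * SS Φ ((1 / (r : ℝ)) • y) := by
        positivity
      rcases hys with hys | hys
      · refine (h₁ r hr x hx y hy hys).trans ?_
        have := mul_nonneg hC₂.le hn3
        nlinarith
      · refine (h₂ r hr x hx y hy hys).trans ?_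
        have := mul_nonneg hC₁.le hn3
        nlinarith)
    (by
      intro y₀ _
      obtain ⟨U, hU, C, hC, hCU⟩ := Q_local h hv y₀
      exact ⟨U, mem_nhdsWithin_of_mem_nhds hU, C, hC, hCU⟩)
  obtain ⟨C, hC, hCK⟩ := key
  refine ⟨C, hC, fun r hr x hx y hy => hCK r hr x hx y hy ?_⟩
  have hr0 : (0 : ℝ) < r := by exact_mod_cast hr
  intro α hα
  rw [inner_smul_right]
  have hposi : ∀ α ∈ pos Φ v, |1 / (r : ℝ) * ⟪α, y⟫| ≤ 1 := by
    intro α hα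
    obtain ⟨h1, h2⟩ := hy.2 α hα
    rw [real_inner_comm] at h1 h2
    rw [abs_of_pos (by positivity), one_div, inv_mul_le_iff₀ hr0]
    linarith
  rcases lt_or_gt_of_ne (hv α hα) with h1 | h1
  · have h2 := hposi (-α) (mem_pos.mpr ⟨h.rs.neg_mem hα, by rw [inner_neg_left]; linarith⟩)
    rw [inner_neg_left, mul_neg, abs_neg] at h2
    exact h2
  · exact hposi α (mem_pos.mpr ⟨hα, h1⟩)

end Pool.Agent.Helper83.AllG
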