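import Mathlib
import Pool.Agent.Helper83.AllG.Q
import Pool.Graph.R_seed8.W719.AEC.Upper

/-!
# Sums over the labels
-/

set_option autoImplicit false

open Finset Filter Topology
open scoped RealInnerProductSpace

namespace Pool.Agent.Helper83.AllG

variable {V : Type*} [NormedAddCommGroup V] [InnerProductSpace ℝ V] [FiniteDimensional ℝ V]

variable {Φ : Finset V} {v : V}

theorem exists_basis_orbit (h : IsSimple Φ) {α : V} (hα : α ∈ Φ) :
    ∃ g : Fin (Module.finrank ℝ V) → (V ≃ₗᵢ[ℝ] V), (∀ i, g i ∈ weyl Φ) ∧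
      LinearIndependent ℝ (fun i => g i α) := by
  have h1 := Submodule.exists_fun_fin_finrank_span_eq ℝ {x | ∃ w ∈ weyl Φ, x = w α}
  rw [orbit_span h hα, finrank_top] at h1
  obtain ⟨f, hf1, _, hf3⟩ := h1
  choose g hg1 hg2 using hf1
  refine ⟨g, hg1, ?_⟩
  have : (fun i => g i α) = f := funext fun i => (hg2 i).symm
  rw [this]
  exact hf3

/-- For the labels x the inner products with roots lie strictly between -r and r, are not 0, and have the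
sign given by v. -/
theorem labels_inner (h : IsSimple Φ) (hv : ∀ α ∈ Φ, ⟪α, v⟫ ≠ 0) {r : ℕ} {x : V}
    (hx : x ∈ labels Φ v r) {α : V} (hα : α ∈ Φ) :
    |⟪x, α⟫| < r ∧ (0 < ⟪α, v⟫ → 0 < ⟪x, α⟫) ∧ (⟪α, v⟫ < 0 → ⟪x, α⟫ < 0) := by
  rcases lt_or_gt_of_ne (hv α hα) with h1 | h1
  · obtain ⟨h2, h3⟩ := hx.2 (-α) (mem_pos.mpr ⟨h.rs.neg_mem hα, by rw [inner_neg_left]; linarith⟩)
    rw [inner_neg_right] at h2 h3
    refine ⟨?_, fun h4 => absurd h1 (not_lt.mpr h4.le), fun _ => by linarith⟩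
    rw [abs_lt]; constructor <;> linarith
  · obtain ⟨h2, h3⟩ := hx.2 α (mem_pos.mpr ⟨hα, h1⟩)
    refine ⟨?_, fun _ => h2, fun h4 => absurd h1 (not_lt.mpr h4.le)⟩
    rw [abs_lt]; constructor <;> linarith

/-- The integer coordinates of a label. -/
noncomputable def tI (m : ℕ) (γ : Fin (Module.finrank ℝ V) → V) (x : V)
    (i : Fin (Module.finrank ℝ V)) : ℕ := Int.natAbs ⌊(m : ℝ) * ⟪x, γ i⟫⌋

theorem tI_spec (h : IsSimple Φ) (hv : ∀ α ∈ Φ, ⟪α, v⟫ ≠ 0) {m : ℕ} (hm0 : 0 < m)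
    (hm : ∀ x ∈ Wt Φ, ∀ α ∈ Φ, ∃ n : ℤ, (m : ℝ) * ⟪x, α⟫ = n)
    {γ : Fin (Module.finrank ℝ V) → V} (hγ : ∀ i, γ i ∈ Φ) {r : ℕ} {x : V} (hx : x ∈ labels Φ v r)
    (i : Fin (Module.finrank ℝ V)) :
    0 < tI m γ x i ∧ tI m γ x i < m * r ∧ (tI m γ x i : ℝ) = |(m : ℝ) * ⟪x, γ i⟫| := by
  obtain ⟨n, hn⟩ := hm x hx.1 _ (hγ i)
  obtain ⟨h1, h2, h3⟩ := labels_inner h hv hx (hγ i)
  have hm0' : (0 : ℝ) < m := by exact_mod_cast hm0
  have ht : (tI m γ x i : ℝ) = |(m : ℝ) * ⟪x, γ i⟫| := by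
    unfold tI
    rw [hn, Int.floor_intCast, ← Int.cast_natCast, Int.natCast_natAbs]
    push_cast
    rfl
  have hne : ⟪x, γ i⟫ ≠ 0 := by
    rcases lt_or_gt_of_ne (hv _ (hγ i)) with h4 | h4
    · exact (h3 h4).ne
    · exact (h2 h4).ne'
  refine ⟨?_, ?_, ht⟩
  · have : (0 : ℝ) < tI m γ x i := by
      rw [ht]
      exact abs_pos.mpr (mul_ne_zero hm0'.ne' hne)
    exact_mod_cast this
  · have : (tI m γ x i : ℝ) < (m * r : ℕ) := by
      rw [ht, abs_mul, abs_of_pos hm0']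
      push_cast
      exact mul_lt_mul_of_pos_left h1 hm0'
    exact_mod_cast this

theorem tI_inj (h : IsSimple Φ) (hv : ∀ α ∈ Φ, ⟪α, v⟫ ≠ 0) {m : ℕ} (hm0 : 0 < m)
    (hm : ∀ x ∈ Wt Φ, ∀ α ∈ Φ, ∃ n : ℤ, (m : ℝ) * ⟪x, α⟫ = n)
    {γ : Fin (Module.finrank ℝ V) → V} (hγ : ∀ i, γ i ∈ Φ) (hli : LinearIndependent ℝ γ) {r : ℕ} :
    Set.InjOn (tI m γ) (labels Φ v r) := by
  intro x hx y hy hxy
  have hm0' : (0 : ℝ) < m := by exact_mod_cast hm0
  have hspan : Submodule.span ℝ (Set.range γ) = ⊤ := by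
    apply hli.span_eq_top_of_card_eq_finrank'
    simp
  have hzero : ∀ i, ⟪x - y, γ i⟫ = 0 := by
    intro i
    have h1 := (tI_spec h hv hm0 hm hγ hx i).2.2
    have h2 := (tI_spec h hv hm0 hm hγ hy i).2.2
    rw [hxy, h2] at h1
    rw [abs_mul, abs_mul, abs_of_pos hm0'] at h1
    have h3 := mul_left_cancel₀ hm0'.ne' h1
    obtain ⟨_, a2, a3⟩ := labels_inner h hv hx (hγ i)
    obtain ⟨_, b2, b3⟩ := labels_inner h hv hy (hγ i)
    rw [inner_sub_left]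
    rcases lt_or_gt_of_ne (hv _ (hγ i)) with h4 | h4
    · rw [abs_of_neg (a3 h4), abs_of_neg (b3 h4)] at h3
      linarith
    · rw [abs_of_pos (a2 h4), abs_of_pos (b2 h4)] at h3
      linarith
  have h5 : ∀ z ∈ Submodule.span ℝ (Set.range γ), ⟪x - y, z⟫ = 0 := by
    intro z hz
    induction hz using Submodule.span_induction with
    | mem z hz => obtain ⟨i, rfl⟩ := hz; exact hzero i
    | zero => simp
    | add a b _ _ ha hb => rw [inner_add_right, ha, hb, add_zero]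
    | smul c a _ ha => rw [inner_smul_right, ha, mul_zero]
  have h6 := h5 (x - y) (by rw [hspan]; exact Submodule.mem_top)
  exact sub_eq_zero.mp (inner_self_eq_zero.mp h6)

theorem exists_basis_roots (h : IsSimple Φ) : ∃ γ : Fin (Module.finrank ℝ V) → V,
    (∀ i, γ i ∈ Φ) ∧ LinearIndependent ℝ γ := by
  obtain ⟨α, hα⟩ := h.nonempty
  obtain ⟨g, hg1, hg2⟩ := exists_basis_orbit h hα
  exact ⟨fun i => g i α, fun i => h.rs.weyl_mem (hg1 i) α hα, hg2⟩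

theorem labels_finite (h : IsSimple Φ) (hv : ∀ α ∈ Φ, ⟪α, v⟫ ≠ 0) (r : ℕ) :
    (labels Φ v r).Finite := by
  obtain ⟨γ, hγ, hli⟩ := exists_basis_roots h
  obtain ⟨m, hm0, hm⟩ := exists_denom h
  refine Set.Finite.of_finite_image ?_ (tI_inj h hv hm0 hm hγ hli (r := r))
  refine Set.Finite.subset
    (Fintype.piFinset (fun _ : Fin (Module.finrank ℝ V) => range (m * r))).finite_toSet ?_
  rintro _ ⟨x, hx, rfl⟩
  simp only [Finset.mem_coe, Fintype.mem_piFinset, Finset.mem_range]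
  exact fun i => (tI_spec h hv hm0 hm hγ hx i).2.1

theorem sum_prod_le (h : IsSimple Φ) (hv : ∀ α ∈ Φ, ⟪α, v⟫ ≠ 0) {m : ℕ} (hm0 : 0 < m)
    (hm : ∀ x ∈ Wt Φ, ∀ α ∈ Φ, ∃ n : ℤ, (m : ℝ) * ⟪x, α⟫ = n)
    {γ : Fin (Module.finrank ℝ V) → V} (hγ : ∀ i, γ i ∈ Φ) (hli : LinearIndependent ℝ γ) {r : ℕ}
    (hr : 1 ≤ r) (T : Finset V) (hT : ∀ x ∈ T, x ∈ labels Φ v r) :
    ∑ x ∈ T, ∏ i, 1 / |2 * Real.sin (Real.pi * ⟪γ i, (1 / (r : ℝ)) • x⟫)| ≤
      W719AEC.hs (m * r) ^ Module.finrank ℝ V := by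
  classical
  have hm0' : (0 : ℝ) < m := by exact_mod_cast hm0
  have hr0 : (0 : ℝ) < r := by exact_mod_cast hr
  set f : ℕ → ℝ := fun t => 1 / ‖W719AEC.w (m * r) ^ t - 1‖ with hf
  have hf0 : ∀ t, 0 ≤ f t := fun t => by positivity
  have hterm : ∀ x ∈ T, ∏ i, 1 / |2 * Real.sin (Real.pi * ⟪γ i, (1 / (r : ℝ)) • x⟫)| =
      ∏ i, f (tI m γ x i) := by
    intro x hx
    refine Finset.prod_congr rfl fun i _ => ?_
    obtain ⟨_, _, h3⟩ := tI_spec h hv hm0 hm hγ (hT x hx) i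
    simp only [hf]
    rw [W719AEC.norm_w_sub_one, h3, abs_mul, abs_two]
    congr 2
    have h4 : Real.pi * ⟪γ i, (1 / (r : ℝ)) • x⟫ = Real.pi * (m * ⟪x, γ i⟫) / ((m * r : ℕ) : ℝ) := by
      rw [inner_smul_right, real_inner_comm]
      push_cast
      field_simp
    rw [h4]
    rcases abs_choice ((m : ℝ) * ⟪x, γ i⟫) with h5 | h5 <;> rw [h5]
    rw [mul_neg, neg_div, Real.sin_neg, abs_neg]
  rw [Finset.sum_congr rfl hterm]
  have himg : ∑ x ∈ T, ∏ i, f (tI m γ x i) = ∑ t ∈ T.image (tI m γ), ∏ i, f (t i) := by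
    rw [Finset.sum_image]
    intro x hx y hy hxy
    exact tI_inj h hv hm0 hm hγ hli (hT x hx) (hT y hy) hxy
  rw [himg]
  have hsub : T.image (tI m γ) ⊆ Fintype.piFinset (fun _ : Fin (Module.finrank ℝ V) => Ioo 0 (m * r)) := by
    intro t ht
    obtain ⟨x, hx, rfl⟩ := Finset.mem_image.mp ht
    rw [Fintype.mem_piFinset]
    intro i
    obtain ⟨h1, h2, _⟩ := tI_spec h hv hm0 hm hγ (hT x hx) i
    exact mem_Ioo.mpr ⟨h1, h2⟩
  refine (Finset.sum_le_sum_of_subset_of_nonneg hsub fun t _ _ =>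
    Finset.prod_nonneg fun i _ => hf0 _).trans (le_of_eq ?_)
  have h7 := (Finset.prod_univ_sum (fun _ : Fin (Module.finrank ℝ V) => Ioo 0 (m * r))
    (fun _ t => f t)).symm
  refine h7.trans ?_
  rw [Finset.prod_const, Finset.card_univ, Fintype.card_fin]
  rfl

theorem SS_pos (h : IsSimple Φ) (hv : ∀ α ∈ Φ, ⟪α, v⟫ ≠ 0) {r : ℕ} (hr : 1 ≤ r) {x : V}
    (hx : x ∈ labels Φ v r) : 0 < SS Φ ((1 / (r : ℝ)) • x) := by
  obtain ⟨c, hc0, _, hc⟩ := exists_sine_lower (v := v) h hv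
  have hr0 : (0 : ℝ) < r := by exact_mod_cast hr
  refine Finset.prod_pos fun α hα => ?_
  exact lt_of_lt_of_le (by positivity) (hc r hr x hx α hα)

/-- The arithmetic-geometric mean inequality over the Weyl orbits of bases. -/
theorem rpow_le_avg (h : IsSimple Φ) [Fintype (weyl Φ)] (s : V → ℝ) (hs : ∀ α ∈ Φ, 0 < s α)
    (g : V → Fin (Module.finrank ℝ V) → (V ≃ₗᵢ[ℝ] V)) (hg : ∀ α ∈ Φ, ∀ i, g α i ∈ weyl Φ) :
    (∏ α ∈ Φ, s α) ^ (-((Module.finrank ℝ V : ℝ) / Φ.card)) ≤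
      ∑ p ∈ Φ ×ˢ (univ : Finset (weyl Φ)), 1 / ((Φ.card : ℝ) * Fintype.card (weyl Φ)) *
        ∏ i, 1 / s ((p.2 : V ≃ₗᵢ[ℝ] V) (g p.1 i p.1)) := by
  classical
  set nW : ℝ := (Fintype.card (weyl Φ) : ℝ) with hnW
  have hnW0 : 0 < nW := by
    have : 0 < Fintype.card (weyl Φ) := Fintype.card_pos
    rw [hnW]; exact_mod_cast this
  have hΦ0 : (0 : ℝ) < Φ.card := by
    have := Finset.card_pos.mpr h.nonempty
    exact_mod_cast this
  have hmem : ∀ p ∈ Φ ×ˢ (univ : Finset (weyl Φ)), ∀ i, (p.2 : V ≃ₗᵢ[ℝ] V) (g p.1 i p.1) ∈ Φ := by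
    intro p hp i
    rw [Finset.mem_product] at hp
    exact h.rs.weyl_mem p.2.2 _ (h.rs.weyl_mem (hg _ hp.1 i) _ hp.1)
  set z : V × weyl Φ → ℝ := fun p => ∏ i, 1 / s ((p.2 : V ≃ₗᵢ[ℝ] V) (g p.1 i p.1)) with hz
  have hz0 : ∀ p ∈ Φ ×ˢ (univ : Finset (weyl Φ)), 0 < z p := by
    intro p hp
    refine Finset.prod_pos fun i _ => ?_
    have := hs _ (hmem p hp i)
    positivity
  have hcard : ((Φ ×ˢ (univ : Finset (weyl Φ))).card : ℝ) = Φ.card * nW := by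
    rw [Finset.card_product, Finset.card_univ]
    push_cast
    rfl
  have ham := Real.geom_mean_le_arith_mean_weighted (Φ ×ˢ (univ : Finset (weyl Φ)))
    (fun _ => 1 / ((Φ.card : ℝ) * nW)) z (fun _ _ => by positivity) (by
      rw [Finset.sum_const, nsmul_eq_mul, hcard]
      field_simp) (fun p hp => (hz0 p hp).le)
  refine le_trans (le_of_eq ?_) ham
  rw [Real.finsetProd_rpow _ _ (fun p hp => (hz0 p hp).le)]
  -- the product of all z
  have hprod : ∏ p ∈ Φ ×ˢ (univ : Finset (weyl Φ)), z p =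
      ((∏ α ∈ Φ, s α)⁻¹) ^ (Module.finrank ℝ V * Fintype.card (weyl Φ)) := by
    have h1 : ∀ α ∈ Φ, ∏ w : weyl Φ, z (α, w) = ∏ _i : Fin (Module.finrank ℝ V), ∏ w : weyl Φ, (s ((w : V ≃ₗᵢ[ℝ] V) α))⁻¹ := by
      intro α hα
      simp only [hz]
      rw [Finset.prod_comm]
      refine Finset.prod_congr rfl fun i _ => ?_
      refine Fintype.prod_equiv (Equiv.mulRight (⟨g α i, hg α hα i⟩ : weyl Φ)) _ _ fun w => ?_
      rw [one_div]
      rfl
    rw [Finset.prod_product, Finset.prod_congr rfl h1]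
    simp only [Finset.prod_const, Finset.card_univ, Fintype.card_fin]
    rw [Finset.prod_pow, Finset.prod_comm]
    have h2 : ∀ w : weyl Φ, ∏ α ∈ Φ, (s ((w : V ≃ₗᵢ[ℝ] V) α))⁻¹ = (∏ α ∈ Φ, s α)⁻¹ := by
      intro w
      have himg : Φ.image (w : V ≃ₗᵢ[ℝ] V) = Φ := by
        apply Finset.eq_of_subset_of_card_le
        · intro β hβ
          obtain ⟨γ, hγ, rfl⟩ := Finset.mem_image.mp hβ
          exact h.rs.weyl_mem w.2 γ hγ
        · rw [Finset.card_image_of_injective _ (w : V ≃ₗᵢ[ℝ] V).injective]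
      rw [Finset.prod_inv_distrib]
      congr 1
      conv_rhs => rw [← himg]
      rw [Finset.prod_image (fun a _ b _ hab => (w : V ≃ₗᵢ[ℝ] V).injective hab)]
    rw [Finset.prod_congr rfl fun w _ => h2 w, Finset.prod_const, Finset.card_univ, ← pow_mul,
      mul_comm]
  rw [hprod]
  have hP : 0 < ∏ α ∈ Φ, s α := Finset.prod_pos hs
  rw [inv_pow, ← Real.rpow_natCast, Real.inv_rpow (by positivity), ← Real.rpow_mul hP.le,
    Real.rpow_neg hP.le]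
  congr 2
  push_cast
  rw [← hnW]
  field_simp

/-- The sum over the labels at the critical exponent. -/
theorem sum_SS_le (h : IsSimple Φ) [Fintype (weyl Φ)] (hv : ∀ α ∈ Φ, ⟪α, v⟫ ≠ 0) :
    ∃ C : ℝ, 0 < C ∧ ∀ r : ℕ, 1 ≤ r → ∀ T : Finset V, (∀ x ∈ T, x ∈ labels Φ v r) →
      ∑ x ∈ T, (SS Φ ((1 / (r : ℝ)) • x)) ^ (-((Module.finrank ℝ V : ℝ) / Φ.card)) ≤
        C * ((r : ℝ) * (1 + Real.log r)) ^ Module.finrank ℝ V := by
  classical
  obtain ⟨m, hm0, hm⟩ := exists_denom h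
  have hm0' : (0 : ℝ) < m := by exact_mod_cast hm0
  have hm1 : (1 : ℝ) ≤ m := by exact_mod_cast hm0
  set ℓ := Module.finrank ℝ V with hℓ
  set nW : ℝ := (Fintype.card (weyl Φ) : ℝ) with hnW
  have hnW0 : 0 < nW := by
    have : 0 < Fintype.card (weyl Φ) := Fintype.card_pos
    rw [hnW]; exact_mod_cast this
  have hΦ0 : (0 : ℝ) < Φ.card := by
    have := Finset.card_pos.mpr h.nonempty
    exact_mod_cast this
  have hlm : 0 ≤ Real.log m := Real.log_nonneg hm1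
  have hex : ∀ α : V, ∃ g : Fin ℓ → (V ≃ₗᵢ[ℝ] V), α ∈ Φ →
      ((∀ i, g i ∈ weyl Φ) ∧ LinearIndependent ℝ (fun i => g i α)) := by
    intro α
    by_cases hα : α ∈ Φ
    · obtain ⟨g, hg1, hg2⟩ := exists_basis_orbit h hα
      exact ⟨g, fun _ => ⟨hg1, hg2⟩⟩
    · exact ⟨fun _ => 1, fun h1 => absurd h1 hα⟩
  choose g hg using hex
  refine ⟨(m * (1 + Real.log m)) ^ ℓ, by positivity, fun r hr T hT => ?_⟩
  have hr0 : (0 : ℝ) < r := by exact_mod_cast hr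
  have hr1 : (1 : ℝ) ≤ r := by exact_mod_cast hr
  have hlr : 0 ≤ Real.log r := Real.log_nonneg hr1
  obtain ⟨c, hc0, _, hc⟩ := exists_sine_lower (v := v) h hv
  have hhs : W719AEC.hs (m * r) ≤ m * (1 + Real.log m) * (r * (1 + Real.log r)) := by
    have h1 := W719AEC.hs_le (m * r) (Nat.mul_pos hm0 hr)
    refine h1.trans ?_
    push_cast
    rw [Real.log_mul hm0'.ne' hr0.ne']
    have h2 : 1 + (Real.log m + Real.log r) ≤ (1 + Real.log m) * (1 + Real.log r) := by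
      nlinarith [mul_nonneg hlm hlr]
    have h3 : (0 : ℝ) ≤ m * r := by positivity
    calc (m : ℝ) * r / 2 * (1 + (Real.log m + Real.log r)) ≤ m * r * (1 + (Real.log m + Real.log r)) := by
          apply mul_le_mul_of_nonneg_right _ (by positivity)
          linarith
      _ ≤ m * r * ((1 + Real.log m) * (1 + Real.log r)) := mul_le_mul_of_nonneg_left h2 h3
      _ = _ := by ring
  have hhs0 : 0 ≤ W719AEC.hs (m * r) := W719AEC.hs_nonneg _
  calc ∑ x ∈ T, (SS Φ ((1 / (r : ℝ)) • x)) ^ (-((ℓ : ℝ) / Φ.card))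
      ≤ ∑ x ∈ T, ∑ p ∈ Φ ×ˢ (univ : Finset (weyl Φ)), 1 / ((Φ.card : ℝ) * nW) *
        ∏ i, 1 / |2 * Real.sin (Real.pi * ⟪(p.2 : V ≃ₗᵢ[ℝ] V) (g p.1 i p.1), (1 / (r : ℝ)) • x⟫)| := by
        refine Finset.sum_le_sum fun x hx => ?_
        exact rpow_le_avg h (fun α => |2 * Real.sin (Real.pi * ⟪α, (1 / (r : ℝ)) • x⟫)|)
          (fun α hα => lt_of_lt_of_le (by positivity) (hc r hr x (hT x hx) α hα)) g
          (fun α hα => (hg α hα).1)
    _ = ∑ p ∈ Φ ×ˢ (univ : Finset (weyl Φ)), 1 / ((Φ.card : ℝ) * nW) * ∑ x ∈ T,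
        ∏ i, 1 / |2 * Real.sin (Real.pi * ⟪(p.2 : V ≃ₗᵢ[ℝ] V) (g p.1 i p.1), (1 / (r : ℝ)) • x⟫)| := by
        rw [Finset.sum_comm]
        refine Finset.sum_congr rfl fun p _ => ?_
        rw [Finset.mul_sum]
    _ ≤ ∑ _p ∈ Φ ×ˢ (univ : Finset (weyl Φ)), 1 / ((Φ.card : ℝ) * nW) *
        W719AEC.hs (m * r) ^ ℓ := by
        refine Finset.sum_le_sum fun p hp => ?_
        apply mul_le_mul_of_nonneg_left _ (by positivity)
        rw [Finset.mem_product] at hp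
        obtain ⟨hg1, hg2⟩ := hg p.1 hp.1
        refine sum_prod_le h hv hm0 hm (γ := fun i => (p.2 : V ≃ₗᵢ[ℝ] V) (g p.1 i p.1)) ?_ ?_ hr T hT
        · intro i
          exact h.rs.weyl_mem p.2.2 _ (h.rs.weyl_mem (hg1 i) _ hp.1)
        · exact hg2.map' ((p.2 : V ≃ₗᵢ[ℝ] V).toLinearEquiv : V →ₗ[ℝ] V)
            (LinearMap.ker_eq_bot.mpr (p.2 : V ≃ₗᵢ[ℝ] V).injective)
    _ = W719AEC.hs (m * r) ^ ℓ := by
        rw [Finset.sum_const, Finset.card_product, Finset.card_univ, nsmul_eq_mul]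
        push_cast
        rw [← hnW]
        field_simp
    _ ≤ (m * (1 + Real.log m) * (r * (1 + Real.log r))) ^ ℓ := pow_le_pow_left₀ hhs0 hhs ℓ
    _ = _ := by rw [mul_pow]

end Pool.Agent.Helper83.AllG
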