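import Mathlib
import Pool.Agent.Helper83.AllG.Sum

/-!
# Blocks of labels
-/

set_option autoImplicit false

open Finset Filter Topology
open scoped RealInnerProductSpace

namespace Pool.Agent.Helper83.AllG

variable {V : Type*} [NormedAddCommGroup V] [InnerProductSpace ℝ V] [FiniteDimensional ℝ V]

variable {Φ : Finset V} {v : V}

theorem card_eq_two_pos (h : IsSimple Φ) (hv : ∀ α ∈ Φ, ⟪α, v⟫ ≠ 0) :
    Φ.card = 2 * (pos Φ v).card := by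
  have h1 := prod_even h.rs hv (fun _ => (2 : ℝ)) (fun _ => rfl)
  rw [Finset.prod_const, Finset.prod_const, ← pow_mul] at h1
  have h2 := pow_right_injective₀ (by norm_num : (0 : ℝ) < 2) (by norm_num) h1
  omega

theorem pos_span (h : IsSimple Φ) (hv : ∀ α ∈ Φ, ⟪α, v⟫ ≠ 0) :
    Submodule.span ℝ (pos Φ v : Set V) = ⊤ := by
  rw [eq_top_iff, ← h.span]
  apply Submodule.span_le.mpr
  intro α hα
  rcases lt_or_gt_of_ne (hv α hα) with h1 | h1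
  · have h2 : -α ∈ Submodule.span ℝ (pos Φ v : Set V) := by
      apply Submodule.subset_span
      exact mem_pos.mpr ⟨h.rs.neg_mem hα, by rw [inner_neg_left]; linarith⟩
    have := Submodule.neg_mem _ h2
    rwa [neg_neg] at this
  · exact Submodule.subset_span (mem_pos.mpr ⟨hα, h1⟩)

theorem rank_le_pos (h : IsSimple Φ) (hv : ∀ α ∈ Φ, ⟪α, v⟫ ≠ 0) :
    Module.finrank ℝ V ≤ (pos Φ v).card := by
  have h1 := finrank_span_finset_le_card (R := ℝ) (pos Φ v)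
  unfold Set.finrank at h1
  rwa [pos_span h hv, finrank_top] at h1

theorem rank_pos (h : IsSimple Φ) : 0 < Module.finrank ℝ V := by
  obtain ⟨α, hα⟩ := h.nonempty
  have h1 : α ≠ 0 := h.rs.ne_zero hα
  haveI : Nontrivial V := ⟨⟨α, 0, h1⟩⟩
  exact Module.finrank_pos

/-- The vectors of the block of size q. -/
noncomputable def bvec (Φ : Finset V) (v : V) (K : ℕ) (b : Fin (Module.finrank ℝ V) → V) (q : ℕ)
    (ν : Fin (Module.finrank ℝ V) → ℕ) : V :=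
  ((K * q : ℕ) : ℝ) • rho Φ v + ∑ i, (ν i : ℝ) • b i

/-- The block of size q. -/
noncomputable def blk (Φ : Finset V) (v : V) (K : ℕ) (b : Fin (Module.finrank ℝ V) → V) (q : ℕ) :
    Finset V := by
  classical
  exact (Fintype.piFinset fun _ : Fin (Module.finrank ℝ V) => range q).image (bvec Φ v K b q)

theorem mem_blk {K : ℕ} {b : Fin (Module.finrank ℝ V) → V} {q : ℕ} {x : V} :
    x ∈ blk Φ v K b q ↔ ∃ ν : Fin (Module.finrank ℝ V) → ℕ, (∀ i, ν i < q) ∧ bvec Φ v K b q ν = x := by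
  classical
  unfold blk
  simp [Fintype.mem_piFinset]

theorem blk_card {K : ℕ} {b : Fin (Module.finrank ℝ V) → V} (hli : LinearIndependent ℝ b) (q : ℕ) :
    (blk Φ v K b q).card = q ^ Module.finrank ℝ V := by
  classical
  unfold blk
  rw [Finset.card_image_of_injOn]
  · rw [Fintype.card_piFinset]
    simp
  · intro ν _ ν' _ hνν
    unfold bvec at hνν
    have h1 := add_left_cancel hνν
    have h2 : ∑ i, ((ν i : ℝ) - (ν' i : ℝ)) • b i = 0 := by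
      simp_rw [sub_smul]
      rw [Finset.sum_sub_distrib, h1, sub_self]
    have h3 := Fintype.linearIndependent_iff.mp hli _ h2
    funext i
    have h4 := h3 i
    have h5 : (ν i : ℝ) = ν' i := by linarith
    exact_mod_cast h5

/-- The constants of the blocks. -/
theorem exists_blk_const (h : IsSimple Φ) (hv : ∀ α ∈ Φ, ⟪α, v⟫ ≠ 0)
    (b : Fin (Module.finrank ℝ V) → V) (hb : ∀ i, b i ∈ Φ) :
    ∃ K A : ℕ, 1 ≤ A ∧ ∀ q : ℕ, 1 ≤ q → ∀ x ∈ blk Φ v K b q,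
      x ∈ Wt Φ ∧ (∀ α ∈ pos Φ v, (q : ℝ) ≤ ⟪x, α⟫ ∧ ⟪x, α⟫ ≤ A * q) ∧ ‖x‖ ≤ A * q := by
  classical
  -- K
  have hρ : ∀ α ∈ pos Φ v, 0 < ⟪rho Φ v, α⟫ := fun α hα => rho_pos h.rs hv hα
  obtain ⟨K, hK⟩ : ∃ K : ℕ, ∀ α ∈ pos Φ v, 1 + ∑ i, |⟪b i, α⟫| ≤ K * ⟪rho Φ v, α⟫ := by
    have hex : ∀ α : V, ∃ K : ℕ, α ∈ pos Φ v → 1 + ∑ i, |⟪b i, α⟫| ≤ K * ⟪rho Φ v, α⟫ := by
      intro α
      by_cases hα : α ∈ pos Φ v
      · obtain ⟨K, hK⟩ := exists_nat_ge ((1 + ∑ i, |⟪b i, α⟫|) / ⟪rho Φ v, α⟫)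
        refine ⟨K, fun _ => ?_⟩
        rwa [div_le_iff₀ (hρ α hα)] at hK
      · exact ⟨0, fun h1 => absurd h1 hα⟩
    choose Kf hKf using hex
    refine ⟨∑ α ∈ pos Φ v, Kf α, fun α hα => (hKf α hα).trans ?_⟩
    apply mul_le_mul_of_nonneg_right _ (hρ α hα).le
    have := Finset.single_le_sum (f := Kf) (fun _ _ => Nat.zero_le _) hα
    exact_mod_cast this
  obtain ⟨A, hA⟩ := exists_nat_ge (K * ‖rho Φ v‖ + ∑ i, ‖b i‖ +
    ∑ α ∈ pos Φ v, (K * ⟪rho Φ v, α⟫ + ∑ i, |⟪b i, α⟫|))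
  refine ⟨K, A + 1, by omega, fun q hq x hx => ?_⟩
  obtain ⟨ν, hν, rfl⟩ := mem_blk.mp hx
  have hq0 : (0 : ℝ) < q := by exact_mod_cast hq
  have hνq : ∀ i, (ν i : ℝ) ≤ q := fun i => by exact_mod_cast (hν i).le
  have hsumK : 0 ≤ ∑ α ∈ pos Φ v, (K * ⟪rho Φ v, α⟫ + ∑ i, |⟪b i, α⟫|) :=
    Finset.sum_nonneg fun α hα => add_nonneg (mul_nonneg (Nat.cast_nonneg _) (hρ α hα).le)
      (Finset.sum_nonneg fun _ _ => abs_nonneg _)
  have hn0 : 0 ≤ K * ‖rho Φ v‖ + ∑ i, ‖b i‖ :=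
    add_nonneg (mul_nonneg (Nat.cast_nonneg _) (norm_nonneg _)) (Finset.sum_nonneg fun _ _ => norm_nonneg _)
  refine ⟨?_, ?_, ?_⟩
  · unfold bvec
    refine (Wt Φ).add_mem ?_ ((Wt Φ).sum_mem fun i _ => ?_)
    · rw [Nat.cast_smul_eq_nsmul]
      exact (Wt Φ).nsmul_mem (rho_mem_Wt h.rs hv) _
    · rw [Nat.cast_smul_eq_nsmul]
      exact (Wt Φ).nsmul_mem (h.rs.mem_Wt (hb i)) _
  · intro α hα
    have h1 : ⟪bvec Φ v K b q ν, α⟫ = K * q * ⟪rho Φ v, α⟫ + ∑ i, (ν i : ℝ) * ⟪b i, α⟫ := by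
      unfold bvec
      rw [inner_add_left, inner_smul_left, sum_inner]
      simp only [RCLike.conj_to_real]
      push_cast
      congr 1
      refine Finset.sum_congr rfl fun i _ => ?_
      rw [inner_smul_left]
      simp
    have h2 : |∑ i, (ν i : ℝ) * ⟪b i, α⟫| ≤ q * ∑ i, |⟪b i, α⟫| := by
      refine (Finset.abs_sum_le_sum_abs _ _).trans ?_
      rw [Finset.mul_sum]
      refine Finset.sum_le_sum fun i _ => ?_
      rw [abs_mul, abs_of_nonneg (Nat.cast_nonneg (ν i))]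
      exact mul_le_mul_of_nonneg_right (hνq i) (abs_nonneg _)
    rw [abs_le] at h2
    have h3 := hK α hα
    have h4 := Finset.single_le_sum (f := fun α => K * ⟪rho Φ v, α⟫ + ∑ i, |⟪b i, α⟫|)
      (fun β hβ => add_nonneg (mul_nonneg (Nat.cast_nonneg K) (hρ β hβ).le)
        (Finset.sum_nonneg fun _ _ => abs_nonneg _)) hα
    have h5 : K * ⟪rho Φ v, α⟫ + ∑ i, |⟪b i, α⟫| ≤ A := by linarith
    have h6 := mul_le_mul_of_nonneg_right h3 hq0.le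
    have h7 := mul_le_mul_of_nonneg_right h5 hq0.le
    rw [h1]
    push_cast
    constructor
    · nlinarith [h2.1]
    · nlinarith [h2.2]
  · unfold bvec
    refine (norm_add_le _ _).trans ?_
    rw [norm_smul, Real.norm_of_nonneg (Nat.cast_nonneg _)]
    have h1 : ‖∑ i, (ν i : ℝ) • b i‖ ≤ q * ∑ i, ‖b i‖ := by
      refine (norm_sum_le _ _).trans ?_
      rw [Finset.mul_sum]
      refine Finset.sum_le_sum fun i _ => ?_
      rw [norm_smul, Real.norm_of_nonneg (Nat.cast_nonneg _)]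
      exact mul_le_mul_of_nonneg_right (hνq i) (norm_nonneg _)
    have h2 : K * ‖rho Φ v‖ + ∑ i, ‖b i‖ ≤ A := by linarith
    have h3 := mul_le_mul_of_nonneg_right h2 hq0.le
    push_cast
    nlinarith

theorem abs_inner_blk (h : IsSimple Φ) (hv : ∀ α ∈ Φ, ⟪α, v⟫ ≠ 0) {A q : ℕ} {x : V}
    (hx : ∀ α ∈ pos Φ v, (q : ℝ) ≤ ⟪x, α⟫ ∧ ⟪x, α⟫ ≤ A * q) {α : V} (hα : α ∈ Φ) :
    (q : ℝ) ≤ |⟪x, α⟫| ∧ |⟪x, α⟫| ≤ A * q := by
  have hq0 : (0 : ℝ) ≤ q := Nat.cast_nonneg q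
  rcases lt_or_gt_of_ne (hv α hα) with h1 | h1
  · obtain ⟨h2, h3⟩ := hx (-α) (mem_pos.mpr ⟨h.rs.neg_mem hα, by rw [inner_neg_left]; linarith⟩)
    rw [← abs_neg, ← inner_neg_right, abs_of_nonneg (by linarith)]
    exact ⟨h2, h3⟩
  · obtain ⟨h2, h3⟩ := hx α (mem_pos.mpr ⟨hα, h1⟩)
    rw [abs_of_nonneg (by linarith)]
    exact ⟨h2, h3⟩

theorem abs_two_sin_abs (s : ℝ) : |2 * Real.sin (Real.pi * s)| = |2 * Real.sin (Real.pi * |s|)| := by
  rcases abs_choice s with h3 | h3 <;> rw [h3]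
  rw [mul_neg, Real.sin_neg, mul_neg, abs_neg]

/-- The sines on a block. -/
theorem sine_blk (h : IsSimple Φ) (hv : ∀ α ∈ Φ, ⟪α, v⟫ ≠ 0) {A q r : ℕ} (hr : 1 ≤ r)
    (hAr : 2 * A * q ≤ r) {x : V}
    (hx : ∀ α ∈ pos Φ v, (q : ℝ) ≤ ⟪x, α⟫ ∧ ⟪x, α⟫ ≤ A * q) {α : V} (hα : α ∈ Φ) :
    4 * ((q : ℝ) / r) ≤ |2 * Real.sin (Real.pi * ⟪α, (1 / (r : ℝ)) • x⟫)| ∧
      |2 * Real.sin (Real.pi * ⟪α, (1 / (r : ℝ)) • x⟫)| ≤ 2 * Real.pi * A * ((q : ℝ) / r) := by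
  have hr0 : (0 : ℝ) < r := by exact_mod_cast hr
  have hpi := Real.pi_pos
  obtain ⟨h1, h2⟩ := abs_inner_blk h hv hx hα
  have hAr' : 2 * (A : ℝ) * q ≤ r := by exact_mod_cast hAr
  have h3 : |⟪α, (1 / (r : ℝ)) • x⟫| = |⟪x, α⟫| / r := by
    rw [inner_smul_right, real_inner_comm, abs_mul, abs_of_pos (by positivity)]
    ring
  rw [abs_two_sin_abs, h3]
  have h4 : (q : ℝ) / r ≤ |⟪x, α⟫| / r := div_le_div_of_nonneg_right h1 hr0.le
  have h5 : |⟪x, α⟫| / r ≤ A * (q / r) := by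
    rw [mul_div_assoc']
    exact div_le_div_of_nonneg_right h2 hr0.le
  have h6 : A * ((q : ℝ) / r) ≤ 1 / 2 := by
    rw [mul_div_assoc', div_le_iff₀ hr0]
    linarith
  have h7 : (0 : ℝ) ≤ q / r := by positivity
  constructor
  · have := le_abs_two_sin (s := |⟪x, α⟫| / r) (by linarith) (by linarith)
    linarith
  · have := abs_two_sin_le (s := |⟪x, α⟫| / r) (by linarith)
    refine this.trans ?_
    have h8 := mul_le_mul_of_nonneg_left h5 (by positivity : (0 : ℝ) ≤ 2 * Real.pi)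
    linarith

theorem SS_blk (h : IsSimple Φ) (hv : ∀ α ∈ Φ, ⟪α, v⟫ ≠ 0) {A q r : ℕ} (hr : 1 ≤ r)
    (hAr : 2 * A * q ≤ r) {x : V}
    (hx : ∀ α ∈ pos Φ v, (q : ℝ) ≤ ⟪x, α⟫ ∧ ⟪x, α⟫ ≤ A * q) :
    (4 * ((q : ℝ) / r)) ^ Φ.card ≤ SS Φ ((1 / (r : ℝ)) • x) ∧
      SS Φ ((1 / (r : ℝ)) • x) ≤ (2 * Real.pi * A * ((q : ℝ) / r)) ^ Φ.card := by
  unfold SS
  rw [← Finset.prod_const, ← Finset.prod_const]
  constructor
  · exact Finset.prod_le_prod (fun _ _ => by positivity) fun α hα => (sine_blk h hv hr hAr hx hα).1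
  · exact Finset.prod_le_prod (fun _ _ => abs_nonneg _) fun α hα => (sine_blk h hv hr hAr hx hα).2

theorem PP_ge (x : V) {r : ℕ} (hr : 1 ≤ r) :
    ((r : ℝ) / (2 * Real.pi)) ^ Φ.card * SS Φ ((1 / (r : ℝ)) • x) ≤ PP Φ x := by
  have hr0 : (0 : ℝ) < r := by exact_mod_cast hr
  have hpi := Real.pi_pos
  unfold SS PP
  rw [← Finset.prod_const, ← Finset.prod_mul_distrib]
  refine Finset.prod_le_prod (fun _ _ => by positivity) fun α _ => ?_
  have h3 : |⟪α, (1 / (r : ℝ)) • x⟫| = |⟪α, x⟫| / r := by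
    rw [inner_smul_right, abs_mul, abs_of_pos (by positivity)]
    ring
  rw [abs_two_sin_abs, h3]
  have h4 := abs_two_sin_le (s := |⟪α, x⟫| / r) (by positivity)
  calc (r : ℝ) / (2 * Real.pi) * |2 * Real.sin (Real.pi * (|⟪α, x⟫| / r))| ≤
        (r : ℝ) / (2 * Real.pi) * (2 * Real.pi * (|⟪α, x⟫| / r)) :=
        mul_le_mul_of_nonneg_left h4 (by positivity)
    _ = |⟪α, x⟫| := by field_simp

end Pool.Agent.Helper83.AllG
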