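import Mathlib
import Pool.Agent.Helper83.AllG.Blk

/-!
# The index of the coroot lattice is finite
-/

set_option autoImplicit false

open Finset Filter Topology
open scoped RealInnerProductSpace

namespace Pool.Agent.Helper83.AllG

variable {V : Type*} [NormedAddCommGroup V] [InnerProductSpace ℝ V] [FiniteDimensional ℝ V]

variable {Φ : Finset V} {v : V}

theorem eq_of_inner_eq {γ : Fin (Module.finrank ℝ V) → V} (hli : LinearIndependent ℝ γ) {x y : V}
    (hxy : ∀ i, ⟪x, γ i⟫ = ⟪y, γ i⟫) : x = y := by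
  have hspan : Submodule.span ℝ (Set.range γ) = ⊤ := by
    apply hli.span_eq_top_of_card_eq_finrank'
    simp
  have h5 : ∀ z ∈ Submodule.span ℝ (Set.range γ), ⟪x - y, z⟫ = 0 := by
    intro z hz
    induction hz using Submodule.span_induction with
    | mem z hz => obtain ⟨i, rfl⟩ := hz; rw [inner_sub_left, hxy i, sub_self]
    | zero => simp
    | add a b _ _ ha hb => rw [inner_add_right, ha, hb, add_zero]
    | smul c a _ ha => rw [inner_smul_right, ha, mul_zero]
  have h6 := h5 (x - y) (by rw [hspan]; exact Submodule.mem_top)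
  exact sub_eq_zero.mp (inner_self_eq_zero.mp h6)

theorem Wt_ball_finite (h : IsSimple Φ) (R : ℝ) : {x : V | x ∈ Wt Φ ∧ ‖x‖ ≤ R}.Finite := by
  obtain ⟨γ, hγ, hli⟩ := exists_basis_roots h
  obtain ⟨m, hm0, hm⟩ := exists_denom h
  have hm0' : (0 : ℝ) < m := by exact_mod_cast hm0
  obtain ⟨N, hN⟩ := exists_nat_ge (m * (|R| * ∑ i, ‖γ i‖))
  let f : V → (Fin (Module.finrank ℝ V) → ℤ) := fun x i => ⌊(m : ℝ) * ⟪x, γ i⟫⌋
  have hf : ∀ x ∈ Wt Φ, ∀ i, ((f x i : ℤ) : ℝ) = m * ⟪x, γ i⟫ := by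
    intro x hx i
    obtain ⟨n, hn⟩ := hm x hx _ (hγ i)
    simp only [f]
    rw [hn, Int.floor_intCast]
  refine Set.Finite.of_finite_image (f := f) ?_ ?_
  · refine Set.Finite.subset (Set.finite_Icc (fun _ => -(N : ℤ)) (fun _ => (N : ℤ))) ?_
    rintro _ ⟨x, ⟨hx, hxR⟩, rfl⟩
    have key : ∀ i, |((f x i : ℤ) : ℝ)| ≤ N := by
      intro i
      rw [hf x hx i, abs_mul, abs_of_pos hm0']
      refine le_trans ?_ hN
      apply mul_le_mul_of_nonneg_left _ hm0'.le
      refine (abs_real_inner_le_norm _ _).trans ?_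
      apply mul_le_mul (hxR.trans (le_abs_self R)) _ (norm_nonneg _) (abs_nonneg R)
      exact Finset.single_le_sum (f := fun i => ‖γ i‖) (fun _ _ => norm_nonneg _) (mem_univ i)
    rw [Set.mem_Icc]
    constructor
    · intro i
      have := (abs_le.mp (key i)).1
      have h2 : ((-(N : ℤ) : ℤ) : ℝ) ≤ ((f x i : ℤ) : ℝ) := by push_cast; exact this
      exact_mod_cast h2
    · intro i
      have := (abs_le.mp (key i)).2
      have h2 : ((f x i : ℤ) : ℝ) ≤ (((N : ℤ)) : ℝ) := by push_cast; exact this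
      exact_mod_cast h2
  · rintro x ⟨hx, _⟩ y ⟨hy, _⟩ hxy
    apply eq_of_inner_eq hli
    intro i
    have h1 := hf x hx i
    have h2 := hf y hy i
    rw [hxy, h2] at h1
    exact (mul_left_cancel₀ hm0'.ne' h1).symm

theorem Qv_le_Wt (h : IsSimple Φ) : Qv Φ ≤ Wt Φ := by
  unfold Qv
  rw [AddSubgroup.closure_le]
  rintro x ⟨α, hα, rfl⟩
  obtain ⟨m, _, hm⟩ := exists_ratio h hα
  have hαα : ⟪α, α⟫ ≠ 0 := inner_self_ne_zero.mpr (h.rs.ne_zero hα)
  have h1 : 2 / ⟪α, α⟫ = m := by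
    rw [← hm]
    field_simp
  rw [h1]
  show (m : ℝ) • α ∈ Wt Φ
  rw [Nat.cast_smul_eq_nsmul]
  exact (Wt Φ).nsmul_mem (h.rs.mem_Wt hα) _

theorem relIndex_ne_zero (h : IsSimple Φ) : (Qv Φ).relIndex (Wt Φ) ≠ 0 := by
  classical
  obtain ⟨γ, hγ, hli⟩ := exists_basis_roots h
  -- the basis of coroots
  have hm : ∀ i, ∃ m : ℕ, 0 < m ∧ (m : ℝ) * ⟪γ i, γ i⟫ = 2 := fun i => exists_ratio h (hγ i)
  choose m hm0 hm using hm
  have hunit : ∀ i, IsUnit ((m i : ℕ) : ℝ) := fun i =>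
    isUnit_iff_ne_zero.mpr (by exact_mod_cast (hm0 i).ne')
  have hli' : LinearIndependent ℝ (fun i => (m i : ℝ) • γ i) := by
    have := hli.units_smul (fun i => (hunit i).unit)
    exact this
  let B := basisOfLinearIndependentOfCardEqFinrank' _ hli' (by simp)
  have hB : ∀ i, B i = (m i : ℝ) • γ i := fun i => by simp [B]
  have hBQ : ∀ i, B i ∈ Qv Φ := by
    intro i
    rw [hB]
    apply AddSubgroup.subset_closure
    refine ⟨γ i, hγ i, ?_⟩
    congr 1
    have hαα : ⟪γ i, γ i⟫ ≠ 0 := inner_self_ne_zero.mpr (h.rs.ne_zero (hγ i))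
    rw [← hm i]
    field_simp
  have hspan : ∀ x ∈ Submodule.span ℤ (Set.range B), x ∈ Qv Φ := by
    intro x hx
    induction hx using Submodule.span_induction with
    | mem x hx => obtain ⟨i, rfl⟩ := hx; exact hBQ i
    | zero => exact (Qv Φ).zero_mem
    | add a b _ _ ha hb => exact (Qv Φ).add_mem ha hb
    | smul c a _ ha => exact (Qv Φ).zsmul_mem ha c
  unfold AddSubgroup.relIndex
  rw [AddSubgroup.index_ne_zero_iff_finite]
  set S := {x : V | x ∈ Wt Φ ∧ ‖x‖ ≤ ∑ i, ‖B i‖} with hS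
  have hSfin : S.Finite := Wt_ball_finite h _
  haveI : Finite S := hSfin.to_subtype
  let g : S → (Wt Φ ⧸ (Qv Φ).addSubgroupOf (Wt Φ)) := fun x => QuotientAddGroup.mk ⟨x.1, x.2.1⟩
  refine Finite.of_surjective g ?_
  intro q
  induction q using QuotientAddGroup.induction_on with
  | H x =>
    have hfl : ((ZSpan.floor B (x : V) : Submodule.span ℤ (Set.range B)) : V) ∈ Qv Φ :=
      hspan _ (ZSpan.floor B (x : V)).2
    have hfr : ZSpan.fract B (x : V) ∈ Wt Φ := by
      rw [ZSpan.fract_apply]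
      exact (Wt Φ).sub_mem x.2 (Qv_le_Wt h hfl)
    refine ⟨⟨ZSpan.fract B (x : V), hfr, ZSpan.norm_fract_le B (x : V)⟩, ?_⟩
    simp only [g]
    rw [QuotientAddGroup.eq]
    rw [AddSubgroup.mem_addSubgroupOf]
    push_cast
    have : -(ZSpan.fract B (x : V)) + (x : V) = ((ZSpan.floor B (x : V) : Submodule.span ℤ (Set.range B)) : V) := by
      rw [ZSpan.fract_apply]; abel
    show -(ZSpan.fract B (x : V)) + (x : V) ∈ Qv Φ
    rw [this]
    exact hfl

end Pool.Agent.Helper83.AllG
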