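import Mathlib
import Pool.Agent.Helper83.AllG.Idx
import Pool.Agent.Helper83.AllG.AbsMain

/-!
# The analytic data of a simple root system
-/

set_option autoImplicit false

open Finset Filter Topology
open scoped RealInnerProductSpace

namespace Pool.Agent.Helper83.AllG

variable {V : Type*} [NormedAddCommGroup V] [InnerProductSpace ℝ V] [FiniteDimensional ℝ V]

variable {Φ : Finset V} {v : V}

/-- The product of the sines over the positive roots. -/
noncomputable def Vs (Φ : Finset V) (r : ℕ) (x : V) : ℝ := Real.sqrt (SS Φ ((1 / (r : ℝ)) • x))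

theorem Vs_nonneg (r : ℕ) (x : V) : 0 ≤ Vs Φ r x := Real.sqrt_nonneg _

theorem Vs_sq (r : ℕ) (x : V) : Vs Φ r x ^ 2 = SS Φ ((1 / (r : ℝ)) • x) := Real.sq_sqrt (SS_nonneg _ _)

theorem Vs_pos (h : IsSimple Φ) (hv : ∀ α ∈ Φ, ⟪α, v⟫ ≠ 0) {r : ℕ} (hr : 1 ≤ r) {x : V}
    (hx : x ∈ labels Φ v r) : 0 < Vs Φ r x := Real.sqrt_pos.mpr (SS_pos h hv hr hx)

theorem le_Vs (h : IsSimple Φ) (hv : ∀ α ∈ Φ, ⟪α, v⟫ ≠ 0) {r : ℕ} {x : V} {X : ℝ}
    (hX : X ^ Φ.card ≤ SS Φ ((1 / (r : ℝ)) • x)) : X ^ (pos Φ v).card ≤ Vs Φ r x := by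
  apply Real.le_sqrt_of_sq_le
  rw [← pow_mul, mul_comm, ← card_eq_two_pos h hv]
  exact hX

theorem Vs_le (h : IsSimple Φ) (hv : ∀ α ∈ Φ, ⟪α, v⟫ ≠ 0) {r : ℕ} {x : V} {X : ℝ} (hX0 : 0 ≤ X)
    (hX : SS Φ ((1 / (r : ℝ)) • x) ≤ X ^ Φ.card) : Vs Φ r x ≤ X ^ (pos Φ v).card := by
  apply Real.sqrt_le_iff.mpr
  refine ⟨by positivity, ?_⟩
  rw [← pow_mul, mul_comm _ 2, ← card_eq_two_pos h hv]
  exact hX

/-- The constant |P / Q^∨|^(-1/2) r^(-rank/2). -/
noncomputable def kapG (Φ : Finset V) (r : ℕ) : ℝ :=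
  (Real.sqrt ((Qv Φ).relIndex (Wt Φ)) * Real.sqrt r ^ (Module.finrank ℝ V))⁻¹

theorem kapG_pos (h : IsSimple Φ) {r : ℕ} (hr : 1 ≤ r) : 0 < kapG Φ r := by
  have h1 : (0 : ℝ) < ((Qv Φ).relIndex (Wt Φ) : ℝ) := by
    have := Nat.pos_of_ne_zero (relIndex_ne_zero h)
    exact_mod_cast this
  have h2 : (0 : ℝ) < r := by exact_mod_cast hr
  unfold kapG
  positivity

theorem log_kapG (h : IsSimple Φ) {r : ℕ} (hr : 1 ≤ r) :
    -(2 * Real.log (kapG Φ r)) = Real.log ((Qv Φ).relIndex (Wt Φ)) +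
      (Module.finrank ℝ V : ℝ) * Real.log r := by
  have h1 : (0 : ℝ) < ((Qv Φ).relIndex (Wt Φ) : ℝ) := by
    have := Nat.pos_of_ne_zero (relIndex_ne_zero h)
    exact_mod_cast this
  have h2 : (0 : ℝ) < r := by exact_mod_cast hr
  unfold kapG
  rw [Real.log_inv, Real.log_mul (by positivity) (by positivity), Real.log_pow, Real.log_sqrt h1.le,
    Real.log_sqrt h2.le]
  ring

theorem abs_two_sin_le_two (s : ℝ) : |2 * Real.sin s| ≤ 2 := by
  rw [abs_mul, abs_two]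
  have := Real.abs_sin_le_one s
  linarith

theorem norm_ev_alt_le (h : IsSimple Φ) [Fintype (weyl Φ)] (x y : V) :
    ‖ev y (alt Φ x)‖ ≤ Fintype.card (weyl Φ) := by
  rw [ev_alt]
  refine (norm_sum_le _ _).trans ?_
  have : ∀ w : weyl Φ, ‖(sgn (w : V ≃ₗᵢ[ℝ] V) : ℂ) *
      Complex.exp (2 * Real.pi * Complex.I * ((⟪(w : V ≃ₗᵢ[ℝ] V) x, y⟫ : ℝ) : ℂ))‖ = 1 := by
    intro w
    rw [norm_mul, norm_exp_ev, mul_one, Complex.norm_real, Real.norm_eq_abs]
    rcases h.rs.sgn_sq w.2 with h3 | h3 <;> rw [h3] <;> norm_num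
  rw [Finset.sum_congr rfl fun w _ => this w]
  simp

/-- The analytic data. -/
theorem exists_dat (h : IsSimple Φ) [Fintype (weyl Φ)] [DecidableEq V]
    (hv : ∀ α ∈ Φ, ⟪α, v⟫ ≠ 0) {cρ : ℝ} (hc1 : 1 ≤ cρ) (hcW : cρ ≤ Fintype.card (weyl Φ)) :
    ∃ T : Dat V, T.D = (pos Φ v).card ∧ T.ℓ = Module.finrank ℝ V ∧
      (∀ r x, x ∈ T.L r ↔ x ∈ labels Φ v r) ∧ (T.V = fun (r : ℕ) (x : V) => cρ * Vs Φ r x) ∧
      (T.F = fun (r : ℕ) (x y : V) => ‖ev ((1 / (r : ℝ)) • y) (alt Φ x)‖ / ((cρ * Vs Φ r x) * (cρ * Vs Φ r y))) ∧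
      T.kap = kapG Φ := by
  have hpi := Real.pi_pos
  set D := (pos Φ v).card with hD
  set W : ℝ := (Fintype.card (weyl Φ) : ℝ) with hW
  have hW1 : 1 ≤ W := hc1.trans hcW
  have hcρ0 : 0 < cρ := by linarith
  have hΦD : Φ.card = 2 * D := card_eq_two_pos h hv
  have hℓ0 : 0 < Module.finrank ℝ V := rank_pos h
  have hD0 : 0 < D := lt_of_lt_of_le hℓ0 (rank_le_pos h hv)
  obtain ⟨Cq, hCq0, hCq⟩ := Q_bound (v := v) h hv
  obtain ⟨Cs, hCs0, hCs⟩ := sum_SS_le h hv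
  obtain ⟨c₀, hc₀, hc₀1, hsin⟩ := exists_sine_lower (v := v) h hv
  obtain ⟨c₁, hc₁, hlow⟩ := alt_lower h.rs
  obtain ⟨γ, hγ, hli⟩ := exists_basis_roots h
  obtain ⟨K, A, hA1, hblk⟩ := exists_blk_const h hv γ hγ
  have hA0 : (0 : ℝ) < A := by exact_mod_cast hA1
  set C : ℝ := 1 + Real.sqrt Cq + W + W * 2 ^ D + Cs + W * (2 * Real.pi * A) ^ D with hC
  set c₂ : ℝ := Real.sqrt c₁ * (1 / (2 * Real.pi)) ^ D / W ^ 2 with hc₂
  have hc₂0 : 0 < c₂ := by positivity
  set c : ℝ := min 1 (min (c₀ ^ D) c₂) with hc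
  have hcpos : 0 < c := lt_min one_pos (lt_min (by positivity) hc₂0)
  have hcle1 : c ≤ 1 := min_le_left _ _
  have hcle2 : c ≤ c₀ ^ D := (min_le_right _ _).trans (min_le_left _ _)
  have hcle3 : c ≤ c₂ := (min_le_right _ _).trans (min_le_right _ _)
  have hCq' : 0 ≤ Real.sqrt Cq := Real.sqrt_nonneg _
  have hC2 : 0 ≤ W * 2 ^ D := by positivity
  have hC3 : 0 ≤ W * (2 * Real.pi * A) ^ D := by positivity
  have hW0 : 0 < W := by linarith
  have hmem : ∀ r x, x ∈ (labels_finite h hv r).toFinset ↔ x ∈ labels Φ v r := fun r x => by simp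
  have hblk2 : ∀ q, 1 ≤ q → ∀ x ∈ blk Φ v K γ q, ∀ α ∈ pos Φ v, (q : ℝ) ≤ ⟪x, α⟫ ∧ ⟪x, α⟫ ≤ A * q :=
    fun q hq x hx => (hblk q hq x hx).2.1
  have h2A : ∀ q r : ℕ, (6 * A ^ 2 + 2 * A + 1) * q ≤ r → 2 * A * q ≤ r := by
    intro q r hqr
    refine le_trans ?_ hqr
    apply Nat.mul_le_mul_right
    have : 0 ≤ 6 * A ^ 2 := Nat.zero_le _
    omega
  have hr1 : ∀ q r : ℕ, 1 ≤ q → (6 * A ^ 2 + 2 * A + 1) * q ≤ r → 1 ≤ r := by
    intro q r hq hqr
    refine le_trans ?_ hqr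
    have : 1 ≤ 6 * A ^ 2 + 2 * A + 1 := by omega
    exact Nat.mul_pos this hq
  have hlab : ∀ q r : ℕ, 1 ≤ q → (6 * A ^ 2 + 2 * A + 1) * q ≤ r → ∀ x ∈ blk Φ v K γ q,
      x ∈ labels Φ v r := by
    intro q r hq hqr x hx
    obtain ⟨h1, h2, _⟩ := hblk q hq x hx
    have hq0 : (0 : ℝ) < q := by exact_mod_cast hq
    have h3 : 2 * (A : ℝ) * q ≤ r := by exact_mod_cast h2A q r hqr
    refine ⟨h1, fun α hα => ?_⟩
    obtain ⟨h4, h5⟩ := h2 α hα
    have h6 : 0 < (A : ℝ) * q := by positivity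
    exact ⟨by linarith, by linarith⟩
  refine ⟨{
    D := D
    ℓ := Module.finrank ℝ V
    L := fun r => (labels_finite h hv r).toFinset
    V := fun r x => cρ * Vs Φ r x
    F := fun r x y => ‖ev ((1 / (r : ℝ)) • y) (alt Φ x)‖ / ((cρ * Vs Φ r x) * (cρ * Vs Φ r y))
    kap := kapG Φ
    blk := fun q => blk Φ v K γ q
    k₀ := Real.log ((Qv Φ).relIndex (Wt Φ))
    C := C
    c := c
    κ := A + 1
    a := 6 * A ^ 2 + 2 * A + 1
    hD := hD0
    hℓ := hℓ0
    hC := by linarith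
    hc := hcpos
    hc1 := hcle1
    hκ := by omega
    ha := by omega
    kap_pos := fun r hr => kapG_pos h hr
    log_kap := fun r hr => log_kapG h hr
    V_pos := ?_
    V_le := ?_
    V_ge := ?_
    F_nonneg := ?_
    F_le := ?_
    F_le' := ?_
    sum_V := ?_
    blk_sub := ?_
    blk_card := fun q _ => blk_card hli q
    V_blk_le := ?_
    V_blk_ge := ?_
    F_ge := ?_
    blk_disj := ?_ }, rfl, rfl, hmem, rfl, rfl, rfl⟩
  · intro r hr x hx
    exact mul_pos hcρ0 (Vs_pos h hv hr ((hmem r x).mp hx))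
  · intro r hr x hx
    have h1 : Vs Φ r x ≤ 2 ^ D := by
      apply Vs_le h hv (by norm_num)
      unfold SS
      rw [← Finset.prod_const]
      exact Finset.prod_le_prod (fun _ _ => abs_nonneg _) fun α _ => abs_two_sin_le_two _
    calc cρ * Vs Φ r x ≤ W * 2 ^ D := mul_le_mul hcW h1 (Vs_nonneg _ _) hW0.le
      _ ≤ C := by rw [hC]; linarith
  · intro r hr x hx
    have hr0 : (0 : ℝ) < r := by exact_mod_cast hr
    have h1 : (c₀ / r) ^ D ≤ Vs Φ r x := by
      apply le_Vs h hv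
      unfold SS
      rw [← Finset.prod_const]
      exact Finset.prod_le_prod (fun _ _ => by positivity) fun α hα =>
        hsin r hr x ((hmem r x).mp hx) α hα
    calc c * (1 / (r : ℝ)) ^ D ≤ c₀ ^ D * (1 / (r : ℝ)) ^ D :=
          mul_le_mul_of_nonneg_right hcle2 (by positivity)
      _ = (c₀ / r) ^ D := by rw [← mul_pow, mul_one_div]
      _ ≤ Vs Φ r x := h1
      _ ≤ cρ * Vs Φ r x := le_mul_of_one_le_left (Vs_nonneg _ _) hc1
  · intro r x y
    have := Vs_nonneg (Φ := Φ) r x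
    have := Vs_nonneg (Φ := Φ) r y
    positivity
  · intro r hr x hx y hy
    have hx' := (hmem r x).mp hx
    have hy' := (hmem r y).mp hy
    have hVx := Vs_pos h hv hr hx'
    have hVy := Vs_pos h hv hr hy'
    have hr0 : (0 : ℝ) < r := by exact_mod_cast hr
    rw [div_le_iff₀ (by positivity)]
    have h1 := hCq r hr x hx' y hy'
    have h2 : ‖ev ((1 / (r : ℝ)) • y) (alt Φ x)‖ ≤ Real.sqrt Cq * (r : ℝ) ^ D * (Vs Φ r x * Vs Φ r y) := by
      apply le_of_sq_le_sq _ (by positivity)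
      refine h1.trans (le_of_eq ?_)
      rw [mul_pow, mul_pow, mul_pow, Vs_sq, Vs_sq, Real.sq_sqrt hCq0.le, ← pow_mul, hΦD, mul_comm D 2]
      ring
    refine h2.trans ?_
    apply mul_le_mul _ _ (by positivity) (by positivity)
    · apply mul_le_mul_of_nonneg_right _ (by positivity)
      rw [hC]; linarith
    · exact mul_le_mul (le_mul_of_one_le_left hVx.le hc1) (le_mul_of_one_le_left hVy.le hc1) hVy.le
        (by positivity)
  · intro r hr x hx y hy
    have hx' := (hmem r x).mp hx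
    have hy' := (hmem r y).mp hy
    have hVx := Vs_pos h hv hr hx'
    have hVy := Vs_pos h hv hr hy'
    apply div_le_div_of_nonneg_right _ (by positivity)
    refine (norm_ev_alt_le h x _).trans ?_
    rw [hC]; linarith
  · intro r hr
    have hr1' : (1 : ℝ) ≤ r := by exact_mod_cast hr
    have hlr : 0 ≤ Real.log r := Real.log_nonneg hr1'
    have h1 := hCs r hr (labels_finite h hv r).toFinset (fun x hx => (hmem r x).mp hx)
    have h2 : ∑ x ∈ (labels_finite h hv r).toFinset, (cρ * Vs Φ r x) ^ (-((Module.finrank ℝ V : ℝ) / D)) ≤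
        ∑ x ∈ (labels_finite h hv r).toFinset,
          (SS Φ ((1 / (r : ℝ)) • x)) ^ (-((Module.finrank ℝ V : ℝ) / Φ.card)) := by
      refine Finset.sum_le_sum fun x hx => ?_
      have hx' := (hmem r x).mp hx
      have hVx := Vs_pos h hv hr hx'
      have hSS := SS_pos h hv hr hx'
      have h3 : (cρ * Vs Φ r x) ^ (-((Module.finrank ℝ V : ℝ) / D)) ≤
          (Vs Φ r x) ^ (-((Module.finrank ℝ V : ℝ) / D)) := by
        apply Real.rpow_le_rpow_of_nonpos hVx (le_mul_of_one_le_left hVx.le hc1)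
        have : (0 : ℝ) ≤ (Module.finrank ℝ V : ℝ) / D := by positivity
        linarith
      refine h3.trans (le_of_eq ?_)
      unfold Vs
      rw [Real.sqrt_eq_rpow, ← Real.rpow_mul hSS.le]
      congr 1
      rw [hΦD]
      push_cast
      have : (D : ℝ) ≠ 0 := by exact_mod_cast hD0.ne'
      field_simp
    refine h2.trans (h1.trans ?_)
    apply mul_le_mul_of_nonneg_right _ (by positivity)
    rw [hC]; linarith
  · intro q r hq hqr x hx
    exact (hmem r x).mpr (hlab q r hq hqr x hx)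
  · intro q r hq hqr x hx
    have hr := hr1 q r hq hqr
    have hr0 : (0 : ℝ) < r := by exact_mod_cast hr
    have h1 := Vs_le h hv (by positivity) (SS_blk h hv hr (h2A q r hqr) (hblk2 q hq x hx)).2
    calc cρ * Vs Φ r x ≤ W * (2 * Real.pi * A * ((q : ℝ) / r)) ^ D :=
          mul_le_mul hcW h1 (Vs_nonneg _ _) hW0.le
      _ = W * (2 * Real.pi * A) ^ D * ((q : ℝ) / r) ^ D := by rw [mul_pow]; ring
      _ ≤ C * ((q : ℝ) / r) ^ D := by
          apply mul_le_mul_of_nonneg_right _ (by positivity)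
          rw [hC]; linarith
  · intro q r hq hqr x hx
    have hr := hr1 q r hq hqr
    have hr0 : (0 : ℝ) < r := by exact_mod_cast hr
    have hq0 : (0 : ℝ) < q := by exact_mod_cast hq
    have h1 := le_Vs h hv (SS_blk h hv hr (h2A q r hqr) (hblk2 q hq x hx)).1
    calc c * ((q : ℝ) / r) ^ D ≤ 1 * ((q : ℝ) / r) ^ D :=
          mul_le_mul_of_nonneg_right hcle1 (by positivity)
      _ = ((q : ℝ) / r) ^ D := one_mul _
      _ ≤ (4 * ((q : ℝ) / r)) ^ D := by
          apply pow_le_pow_left₀ (by positivity)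
          have : (0 : ℝ) < q / r := by positivity
          linarith
      _ ≤ Vs Φ r x := h1
      _ ≤ cρ * Vs Φ r x := le_mul_of_one_le_left (Vs_nonneg _ _) hc1
  · intro q q' r hq hq' hqr x hx y hy
    have hq0 : (0 : ℝ) < q := by exact_mod_cast hq
    have hq0' : (0 : ℝ) < q' := by exact_mod_cast hq'
    have hqr1 : (6 * A ^ 2 + 2 * A + 1) * q ≤ r := by
      refine le_trans (Nat.mul_le_mul_left _ ?_) hqr
      exact Nat.le_mul_of_pos_right q hq'
    have hqr2 : (6 * A ^ 2 + 2 * A + 1) * q' ≤ r := by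
      refine le_trans (Nat.mul_le_mul_left _ ?_) hqr
      exact Nat.le_mul_of_pos_left q' hq
    have hr := hr1 q r hq hqr1
    have hr0 : (0 : ℝ) < r := by exact_mod_cast hr
    have hx' := hlab q r hq hqr1 x hx
    have hy' := hlab q' r hq' hqr2 y hy
    have hVx := Vs_pos h hv hr hx'
    have hVy := Vs_pos h hv hr hy'
    have hnx := (hblk q hq x hx).2.2
    have hny := (hblk q' hq' y hy).2.2
    have hsmall : ‖x‖ * ‖(1 / (r : ℝ)) • y‖ ≤ 1 / 6 := by
      rw [norm_smul, Real.norm_of_nonneg (by positivity)]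
      have h1 : ‖x‖ * ‖y‖ ≤ (A * q) * (A * q') := mul_le_mul hnx hny (norm_nonneg _) (by positivity)
      have h2 : 6 * (((A : ℝ) * q) * (A * q')) ≤ r := by
        have h3 : 6 * A ^ 2 * (q * q') ≤ r := by
          refine le_trans (Nat.mul_le_mul_right _ ?_) hqr
          omega
        have h4 : 6 * (A : ℝ) ^ 2 * (q * q') ≤ r := by exact_mod_cast h3
        calc 6 * (((A : ℝ) * q) * (A * q')) = 6 * (A : ℝ) ^ 2 * (q * q') := by ring
          _ ≤ r := h4
      calc ‖x‖ * (1 / (r : ℝ) * ‖y‖) = (‖x‖ * ‖y‖) / r := by ring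
        _ ≤ ((A * q) * (A * q')) / r := div_le_div_of_nonneg_right h1 hr0.le
        _ ≤ 1 / 6 := by rw [div_le_iff₀ hr0]; linarith
    have h1 := hlow x hx'.1 _ hsmall
    have h2 := PP_ge (Φ := Φ) x hr
    have h3 : Real.sqrt c₁ * ((r : ℝ) / (2 * Real.pi)) ^ D * (Vs Φ r x * Vs Φ r y) ≤
        ‖ev ((1 / (r : ℝ)) • y) (alt Φ x)‖ := by
      apply le_of_sq_le_sq _ (norm_nonneg _)
      refine le_trans (le_of_eq ?_) (le_trans (mul_le_mul_of_nonneg_right
        (mul_le_mul_of_nonneg_left h2 hc₁.le) (SS_nonneg Φ ((1 / (r : ℝ)) • y))) h1)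
      rw [mul_pow, mul_pow, mul_pow, Vs_sq, Vs_sq, Real.sq_sqrt hc₁.le, ← pow_mul, hΦD, mul_comm D 2]
      ring
    show c * (r : ℝ) ^ D ≤ ‖ev ((1 / (r : ℝ)) • y) (alt Φ x)‖ / ((cρ * Vs Φ r x) * (cρ * Vs Φ r y))
    rw [le_div_iff₀ (by positivity)]
    calc c * (r : ℝ) ^ D * ((cρ * Vs Φ r x) * (cρ * Vs Φ r y))
        ≤ c₂ * (r : ℝ) ^ D * ((W * Vs Φ r x) * (W * Vs Φ r y)) := by
          apply mul_le_mul _ _ (by positivity) (by positivity)
          · exact mul_le_mul_of_nonneg_right hcle3 (by positivity)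
          · exact mul_le_mul (mul_le_mul_of_nonneg_right hcW hVx.le)
              (mul_le_mul_of_nonneg_right hcW hVy.le) (by positivity) (by positivity)
      _ = Real.sqrt c₁ * ((r : ℝ) / (2 * Real.pi)) ^ D * (Vs Φ r x * Vs Φ r y) := by
          rw [hc₂, div_eq_mul_one_div (r : ℝ), mul_pow]
          field_simp
      _ ≤ _ := h3
  · intro q q' hq hqq
    rw [Finset.disjoint_left]
    intro x hx hx'
    have hq' : 1 ≤ q' := by
      refine le_trans ?_ hqq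
      have : 1 ≤ A + 1 := by omega
      exact Nat.mul_pos this hq
    obtain ⟨α, hα⟩ : (pos Φ v).Nonempty := Finset.card_pos.mp hD0
    have h1 := (hblk2 q hq x hx α hα).2
    have h2 := (hblk2 q' hq' x hx' α hα).1
    have h3 : ((A : ℝ) + 1) * q ≤ q' := by exact_mod_cast hqq
    have hq0 : (0 : ℝ) < q := by exact_mod_cast hq
    linarith

end Pool.Agent.Helper83.AllG
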