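import Mathlib
import Pool.Agent.Helper83.AllG.Inst

/-!
# The state sum as a sum of nonnegative terms
-/

set_option autoImplicit false

open Finset Filter Topology
open scoped RealInnerProductSpace

namespace Pool.Agent.Helper83.AllG

open W719AEC Pool.Agent.Y397
open Pool.Agent.Y397.PG (Doubled prod_split prod_ends)

variable {V : Type*} [NormedAddCommGroup V] [InnerProductSpace ℝ V] [FiniteDimensional ℝ V]

variable {Φ : Finset V} {v : V}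

theorem conj_exp (t : ℝ) : (starRingEnd ℂ) (Complex.exp (2 * Real.pi * Complex.I * (t : ℂ))) =
    Complex.exp (-(2 * Real.pi * Complex.I * (t : ℂ))) := by
  rw [← Complex.exp_conj]
  congr 1
  have h2 : (starRingEnd ℂ) (2 : ℂ) = 2 := Complex.conj_ofNat 2
  rw [map_mul, map_mul, map_mul, h2, Complex.conj_ofReal, Complex.conj_I, Complex.conj_ofReal]
  ring

theorem Smat_eq [Fintype (weyl Φ)] (r : ℕ) (x y : V) : Smat Φ v r x y =
    Complex.I ^ (pos Φ v).card * (kapG Φ r : ℂ) *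
      (starRingEnd ℂ) (ev ((1 / (r : ℝ)) • y) (alt Φ x)) := by
  unfold Smat kapG
  rw [finsum_eq_sum_of_fintype, ev_alt, map_sum]
  have h1 : ∀ w : weyl Φ, (starRingEnd ℂ) ((sgn (w : V ≃ₗᵢ[ℝ] V) : ℂ) *
      Complex.exp (2 * Real.pi * Complex.I * ((⟪(w : V ≃ₗᵢ[ℝ] V) x, (1 / (r : ℝ)) • y⟫ : ℝ) : ℂ))) =
      (sgn (w : V ≃ₗᵢ[ℝ] V) : ℂ) *
      Complex.exp (-(2 * Real.pi * Complex.I * ((⟪(w : V ≃ₗᵢ[ℝ] V) x, y⟫ / r : ℝ) : ℂ))) := by
    intro w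
    rw [map_mul, Complex.conj_ofReal, conj_exp, inner_smul_right]
    congr 5
    ring
  rw [Finset.sum_congr rfl fun w _ => h1 w, Complex.ofReal_inv]
  rw [div_eq_mul_inv]

theorem Smat_norm (h : IsSimple Φ) [Fintype (weyl Φ)] {r : ℕ} (hr : 1 ≤ r) (x y : V) :
    ‖Smat Φ v r x y‖ = kapG Φ r * ‖ev ((1 / (r : ℝ)) • y) (alt Φ x)‖ := by
  rw [Smat_eq, norm_mul, norm_mul, norm_pow, Complex.norm_I, one_pow, one_mul, Complex.norm_real,
    Real.norm_of_nonneg (kapG_pos h hr).le, RCLike.norm_conj]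

theorem Smat_rho (h : IsSimple Φ) [Fintype (weyl Φ)] (hv : ∀ α ∈ Φ, ⟪α, v⟫ ≠ 0) {cρ : ℝ}
    (hc : alt Φ (rho Φ v) = cρ • Del Φ v) {r : ℕ} (hr : 1 ≤ r) {y : V} (hy : y ∈ labels Φ v r) :
    Smat Φ v r (rho Φ v) y = ((kapG Φ r * (cρ * Vs Φ r y) : ℝ) : ℂ) := by
  have hr0 : (0 : ℝ) < r := by exact_mod_cast hr
  have hpi := Real.pi_pos
  set y' := (1 / (r : ℝ)) • y with hy'
  have hpos : ∀ β ∈ pos Φ v, 0 < 2 * Real.sin (Real.pi * ⟪β, y'⟫) := by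
    intro β hβ
    obtain ⟨h1, h2⟩ := hy.2 β hβ
    have h3 : ⟪β, y'⟫ = ⟪y, β⟫ / r := by
      rw [hy', inner_smul_right, real_inner_comm]; ring
    rw [h3]
    have h4 : 0 < ⟪y, β⟫ / r := by positivity
    have h5 : ⟪y, β⟫ / r < 1 := by rw [div_lt_one hr0]; exact h2
    have := Real.sin_pos_of_pos_of_lt_pi (x := Real.pi * (⟪y, β⟫ / r)) (by positivity) (by nlinarith)
    linarith
  have hVs : Vs Φ r y = ∏ β ∈ pos Φ v, (2 * Real.sin (Real.pi * ⟪β, y'⟫)) := by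
    unfold Vs SS
    rw [prod_even h.rs hv (fun α => |2 * Real.sin (Real.pi * ⟪α, y'⟫)|) (fun α => by
        rw [inner_neg_left, mul_neg, Real.sin_neg, mul_neg, abs_neg]),
      Real.sqrt_sq (Finset.prod_nonneg fun _ _ => abs_nonneg _)]
    exact Finset.prod_congr rfl fun β hβ => abs_of_pos (hpos β hβ)
  rw [Smat_eq, hc, map_smul, hVs]
  unfold Del
  rw [map_prod, Complex.real_smul, map_mul, Complex.conj_ofReal, map_prod]
  have h1 : ∀ β ∈ pos Φ v, (starRingEnd ℂ) (ev y' (dd β)) =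
      (-Complex.I) * ((2 * Real.sin (Real.pi * ⟪β, y'⟫) : ℝ) : ℂ) := by
    intro β _
    rw [ev_dd, ← Complex.ofReal_mul, ← Complex.ofReal_sin, map_mul, map_mul, Complex.conj_I,
      Complex.conj_ofReal]
    have : (starRingEnd ℂ) (2 : ℂ) = 2 := by
      exact Complex.conj_ofNat 2
    rw [this]
    push_cast
    ring
  rw [Finset.prod_congr rfl h1, Finset.prod_mul_distrib, Finset.prod_const]
  have h2 : Complex.I ^ (pos Φ v).card * (-Complex.I) ^ (pos Φ v).card = 1 := by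
    rw [← mul_pow]
    simp
  push_cast
  linear_combination ((kapG Φ r : ℂ) * (cρ : ℂ) *
    ∏ β ∈ pos Φ v, (2 * Complex.sin (Real.pi * ((⟪β, y'⟫ : ℝ) : ℂ)))) * h2

variable {n m : ℕ}

theorem ZG_eq_sum (h : IsSimple Φ) [Fintype (weyl Φ)] [DecidableEq V] (hv : ∀ α ∈ Φ, ⟪α, v⟫ ≠ 0)
    {cρ : ℝ} (hc1 : 1 ≤ cρ) (hc : alt Φ (rho Φ v) = cρ • Del Φ v) (T : Dat V)
    (hL : ∀ r x, x ∈ T.L r ↔ x ∈ labels Φ v r) (hV : T.V = fun (r : ℕ) (x : V) => cρ * Vs Φ r x)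
    (hF : T.F = fun (r : ℕ) (x y : V) => ‖ev ((1 / (r : ℝ)) • y) (alt Φ x)‖ /
      ((cρ * Vs Φ r x) * (cρ * Vs Φ r y)))
    (hk : T.kap = kapG Φ) (r : ℕ) (hr : 1 ≤ r) (Γ : PlumbingGraph n m)
    (h0 : ∀ v, Γ.euler v = 0) (hd : Doubled Γ) :
    ZG Φ v Γ r = ((∑ x ∈ Fintype.piFinset (fun _ : Fin n => T.L r), T.term r Γ x : ℝ) : ℂ) := by
  classical
  obtain ⟨σ, hσ⟩ := hd
  have hfin := labels_finite h hv r
  haveI : Finite (labels Φ v r) := hfin.to_subtype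
  haveI : Fintype (labels Φ v r) := Fintype.ofFinite _
  unfold ZG
  rw [finsum_eq_sum_of_fintype, Complex.ofReal_sum]
  refine Finset.sum_bij (fun (x : Fin n → labels Φ v r) _ => fun i => (x i : V)) ?_ ?_ ?_ ?_
  · intro x _
    rw [Fintype.mem_piFinset]
    intro i
    exact (hL r _).mpr (x i).2
  · intro x _ y _ hxy
    funext i
    exact Subtype.ext (congrFun hxy i)
  · intro x hx
    rw [Fintype.mem_piFinset] at hx
    exact ⟨fun i => ⟨x i, (hL r _).mp (hx i)⟩, mem_univ _, rfl⟩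
  intro x' _
  set x : Fin n → V := fun i => (x' i : V) with hx'
  have hx : ∀ i, x i ∈ labels Φ v r := fun i => (x' i).2
  have hkp : 0 < T.kap r := by rw [hk]; exact kapG_pos h hr
  have hVp : ∀ i, 0 < T.V r (x i) := by
    intro i
    rw [hV]
    have := Vs_pos h hv hr (hx i)
    have : 0 < cρ := by linarith
    positivity
  set y : Fin n → ℝ := fun i => T.kap r * T.V r (x i) with hy
  have hy0 : ∀ i, 0 < y i := fun i => mul_pos hkp (hVp i)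
  -- the vertex factors
  have h1 : ∀ i, twist Φ v r (x i) ^ Γ.euler i *
      Smat Φ v r (rho Φ v) (x i) ^ (2 - 2 * (Γ.genus i : ℤ) - (Γ.degree i : ℤ)) =
      ((y i ^ (2 - 2 * (Γ.genus i : ℤ)) * (y i ^ Γ.degree i)⁻¹ : ℝ) : ℂ) := by
    intro i
    rw [h0 i, zpow_zero, one_mul, Smat_rho h hv hc hr (hx i)]
    have h2 : y i ^ (2 - 2 * (Γ.genus i : ℤ) - (Γ.degree i : ℤ)) =
        y i ^ (2 - 2 * (Γ.genus i : ℤ)) * (y i ^ Γ.degree i)⁻¹ := by
      rw [zpow_sub₀ (hy0 i).ne', zpow_natCast, div_eq_mul_inv]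
    have h3 : kapG Φ r * (cρ * Vs Φ r (x i)) = y i := by
      simp only [hy, hk, hV]
    rw [h3, ← h2, Complex.ofReal_zpow]
  have h3 : ∏ e, (if Γ.positive e = true then Smat Φ v r (x (Γ.src e)) (x (Γ.tgt e))
      else (starRingEnd ℂ) (Smat Φ v r (x (Γ.src e)) (x (Γ.tgt e)))) =
      ((∏ e ∈ PG.pos Γ, (T.kap r * ‖ev ((1 / (r : ℝ)) • x (Γ.tgt e)) (alt Φ (x (Γ.src e)))‖) ^ 2 : ℝ) : ℂ) := by
    rw [prod_split Γ σ (fun e => (hσ e).2.2) (fun e => Smat Φ v r (x (Γ.src e)) (x (Γ.tgt e)))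
      (fun e => (starRingEnd ℂ) (Smat Φ v r (x (Γ.src e)) (x (Γ.tgt e)))), Complex.ofReal_prod]
    refine Finset.prod_congr rfl fun e _ => ?_
    rw [(hσ e).1, (hσ e).2.1, Complex.mul_conj, Complex.normSq_eq_norm_sq, Smat_norm h hr, hk]
  show (∏ i, twist Φ v r (x i) ^ Γ.euler i *
      Smat Φ v r (rho Φ v) (x i) ^ (2 - 2 * (Γ.genus i : ℤ) - (Γ.degree i : ℤ))) *
    ∏ e, (if Γ.positive e = true then Smat Φ v r (x (Γ.src e)) (x (Γ.tgt e))
      else (starRingEnd ℂ) (Smat Φ v r (x (Γ.src e)) (x (Γ.tgt e)))) = ((T.term r Γ x : ℝ) : ℂ)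
  rw [Finset.prod_congr rfl fun i _ => h1 i, h3, ← Complex.ofReal_prod, ← Complex.ofReal_mul]
  congr 1
  rw [Finset.prod_mul_distrib, Finset.prod_inv_distrib, prod_ends]
  have h4 : ∏ e, (y (Γ.src e) * y (Γ.tgt e)) = ∏ e ∈ PG.pos Γ, (y (Γ.src e) * y (Γ.tgt e)) ^ 2 := by
    have h5 := prod_split Γ σ (fun e => (hσ e).2.2) (fun e => y (Γ.src e) * y (Γ.tgt e))
      (fun e => y (Γ.src e) * y (Γ.tgt e))
    simp only [ite_self] at h5
    rw [h5]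
    refine Finset.prod_congr rfl fun e _ => ?_
    rw [(hσ e).1, (hσ e).2.1, sq]
  rw [h4, mul_assoc, ← Finset.prod_inv_distrib, ← Finset.prod_mul_distrib]
  unfold Dat.term
  congr 1
  · rw [Real.exp_sum]
    refine Finset.prod_congr rfl fun i _ => ?_
    rw [← Real.log_mul hkp.ne' (hVp i).ne']
    have h6 : (2 - 2 * (Γ.genus i : ℝ)) = ((2 - 2 * (Γ.genus i : ℤ) : ℤ) : ℝ) := by push_cast; rfl
    rw [h6, ← Real.rpow_intCast, mul_comm (((2 - 2 * (Γ.genus i : ℤ) : ℤ) : ℝ)), Real.exp_mul,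
      Real.exp_log (mul_pos hkp (hVp i))]
  · refine Finset.prod_congr rfl fun e _ => ?_
    have h7 : Real.exp (-(2 * Real.log (T.kap r))) = (T.kap r ^ 2)⁻¹ := by
      have h8 : 2 * Real.log (T.kap r) = Real.log (T.kap r ^ 2) := by
        rw [Real.log_pow]
        norm_num
      rw [Real.exp_neg, h8, Real.exp_log (by positivity)]
    rw [h7]
    have hFe : T.F r (x (Γ.src e)) (x (Γ.tgt e)) =
        ‖ev ((1 / (r : ℝ)) • x (Γ.tgt e)) (alt Φ (x (Γ.src e)))‖ /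
          (T.V r (x (Γ.src e)) * T.V r (x (Γ.tgt e))) := by
      rw [hF, hV]
    rw [hFe]
    have := (hVp (Γ.src e)).ne'
    have := (hVp (Γ.tgt e)).ne'
    have := hkp.ne'
    simp only [hy]
    field_simp

/-- The two-sided bounds for the invariants. -/
theorem ZG_bounds (h : IsSimple Φ) (hv : ∀ α ∈ Φ, ⟪α, v⟫ ≠ 0) (Γ : PlumbingGraph n m)
    (h0 : ∀ v, Γ.euler v = 0) (hd : Doubled Γ) (α α' : Fin n → ℝ)
    (hα : IsOptimal (Φ.card / Module.finrank ℝ V) Γ α)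
    (hα' : IsOptimal (Φ.card / Module.finrank ℝ V) Γ α') (hne : α ≠ α') :
    ∃ (c C : ℝ) (B : ℕ), 0 < c ∧ ∀ᶠ r : ℕ in atTop,
      c * ((r : ℝ) ^ growth (Φ.card + Module.finrank ℝ V) (Module.finrank ℝ V) Γ
        (weight (Φ.card / Module.finrank ℝ V) Γ α) * Real.log r) ≤ ‖ZG Φ v Γ r‖ ∧
      ‖ZG Φ v Γ r‖ ≤ C * ((r : ℝ) ^ growth (Φ.card + Module.finrank ℝ V) (Module.finrank ℝ V) Γ
        (weight (Φ.card / Module.finrank ℝ V) Γ α) * (1 + Real.log r) ^ B) := by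
  classical
  haveI : Finite (weyl Φ) := finite_weyl h
  haveI : Fintype (weyl Φ) := Fintype.ofFinite _
  obtain ⟨cρ, hc1, hcW, hc⟩ := alt_rho h.rs hv
  obtain ⟨T, hTD, hTℓ, hTL, hTV, hTF, hTk⟩ := exists_dat h hv hc1 hcW
  have hℓ0 : (0 : ℝ) < Module.finrank ℝ V := by exact_mod_cast rank_pos h
  have hcard : (Φ.card : ℝ) = 2 * T.D := by
    rw [hTD]; exact_mod_cast card_eq_two_pos h hv
  have hh : T.h = (Φ.card : ℝ) / Module.finrank ℝ V := by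
    unfold Dat.h
    rw [hTℓ, hcard]
  rw [← hh] at hα hα' ⊢
  obtain ⟨c, C, B, hc0, hb⟩ := T.bounds Γ α α' hα hα' hne
  have hd2 : (T.ℓ : ℝ) * (T.h + 1) = Φ.card + Module.finrank ℝ V := by
    rw [hTℓ, hh]
    field_simp
  have hd3 : (T.ℓ : ℝ) = Module.finrank ℝ V := by rw [hTℓ]
  rw [hd2, hd3] at hb
  refine ⟨c, C, B, hc0, ?_⟩
  filter_upwards [hb, eventually_ge_atTop 1] with r hr hr1
  have hZ : ‖ZG Φ v Γ r‖ = ∑ x ∈ Fintype.piFinset (fun _ : Fin n => T.L r), T.term r Γ x := by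
    rw [ZG_eq_sum h hv hc1 hc T hTL hTV hTF hTk r hr1 Γ h0 hd, Complex.norm_real, Real.norm_eq_abs,
      abs_of_nonneg (Finset.sum_nonneg fun x _ => T.term_nonneg r Γ x)]
  rw [hZ]
  exact hr

end Pool.Agent.Helper83.AllG
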